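import Pool.Agent.TLC.Tree1

/-!
# Module CONF: the first projection `X → Y` is confluent
-/

set_option autoImplicit false

noncomputable section

namespace Pool.Agent.TLC

open Set

/-! ### the triod is a part of `Y'` -/

theorem cf_tent_zero : tent 0 = 0 := by simp [tent]

theorem cf_kap_legp (i : Fin 3) (r : ℝ) : kap (legp i r) = legp i r := by
  funext c
  cases c with
  | inl k =>
    funext w
    have h : ∀ τ : Ty, legp i r (Sum.inr τ) [] = 0 := by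
      intro τ; simp [legp, br]
    by_cases hw : w = []
    · subst hw
      simp [kap, h, cf_tent_zero]
    · have h2 : legp i r (Sum.inl k) w = 0 := by
        unfold legp br edge
        by_cases hk : (Sum.inl k : Br) = Sum.inl i
        · simp only [hk, if_true, hw, if_false]
        · simp only [hk, if_false]; rfl
      simp [kap, hw, h2]
  | inr σ =>
    funext w
    simp [kap, legp, br]

theorem cf_lim_mem (i : Fin 3) (r : ℝ) (hr : r ∈ Icc (0 : ℝ) 1) : lim i r ∈ Y' := by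
  intro n
  refine ⟨Or.inl ?_, cf_kap_legp i r⟩
  simp only [KT, mem_iUnion]
  exact ⟨i, r, hr, rfl⟩

theorem cf_YT_sub : YT ⊆ Y' := by
  intro y hy
  simp only [YT, mem_iUnion] at hy
  obtain ⟨i, r, hr, rfl⟩ := hy
  exact cf_lim_mem i r hr

theorem cf_K'_sub (n : ℕ) : K' n ⊆ K n := by
  rintro x (h | h)
  · exact Or.inl h
  · simp only [mem_iUnion] at h
    obtain ⟨l, h⟩ := h
    refine Or.inr ?_
    simp only [mem_iUnion]
    exact ⟨Ty.M l, h⟩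

theorem cf_Y'_sub : Y' ⊆ Y := by
  intro y hy n
  exact ⟨cf_K'_sub n (hy n).1, (hy n).2⟩

theorem cf_YT_dom (j : Fin 4) : YT ⊆ dom j := by
  fin_cases j
  · exact cf_YT_sub.trans cf_Y'_sub
  · exact Subset.rfl
  · exact Subset.rfl
  · exact cf_YT_sub

/-! ### the sections -/

theorem cf_lc_cont (i : Fin 3) : Continuous (lc i) := by
  unfold lc
  exact (continuous_apply ([] : Wd)).comp ((continuous_apply (Sum.inl i : Br)).comp
    (continuous_apply 0))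

theorem cf_ht_cont (j : Fin 4) : Continuous (ht j) := by
  have h0 := cf_lc_cont 0
  have h1 := cf_lc_cont 1
  have h2 := cf_lc_cont 2
  fin_cases j
  · show Continuous fun y => lc 0 y / 2
    exact h0.div_const 2
  · show Continuous fun y => 1 - lc 0 y / 2 + lc 1 y / 2
    exact (continuous_const.sub (h0.div_const 2)).add (h1.div_const 2)
  · show Continuous fun y => 2 - lc 1 y / 2 + lc 2 y / 2
    exact (continuous_const.sub (h1.div_const 2)).add (h2.div_const 2)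
  · show Continuous fun y => 3 - lc 2 y / 2
    exact continuous_const.sub (h2.div_const 2)

theorem cf_sec_cont (j : Fin 4) : Continuous (sec j) :=
  continuous_id.prodMk (cf_ht_cont j)

theorem cf_lc_lim (i k : Fin 3) (r : ℝ) : lc i (lim k r) = if i = k then r else 0 := by
  unfold lc lim legp br
  by_cases h : i = k
  · simp [h, edge]
  · simp [h]

theorem cf_meet01 : sec 0 (lim 0 1) = sec 1 (lim 0 1) := by
  unfold sec ht
  simp [cf_lc_lim]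
  norm_num

theorem cf_meet12 : sec 1 (lim 1 1) = sec 2 (lim 1 1) := by
  unfold sec ht
  simp [cf_lc_lim]
  norm_num

theorem cf_meet23 : sec 2 (lim 2 1) = sec 3 (lim 2 1) := by
  unfold sec ht
  simp [cf_lc_lim]
  norm_num

theorem cf_sec_sub (j : Fin 4) (A : Set Sq) (hA : A ⊆ dom j) : sec j '' A ⊆ X := by
  rintro _ ⟨y, hy, rfl⟩
  simp only [X, mem_iUnion]
  exact ⟨j, y, hA hy, rfl⟩

theorem cf_fst_sec (j : Fin 4) (A : Set Sq) : Prod.fst '' (sec j '' A) = A := by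
  rw [image_image]
  simp [sec]

theorem cf_sec_conn (j : Fin 4) (A : Set Sq) (hA : IsConnected A) : IsConnected (sec j '' A) :=
  hA.image _ (cf_sec_cont j).continuousOn

theorem cf_single (j : Fin 4) (Q : Set Sq) (hQ : IsConnected Q) (hQd : Q ⊆ dom j) (y : Sq)
    (hy : y ∈ Q) : ∃ C : Set (Sq × ℝ), C ⊆ X ∧ IsConnected C ∧ sec j y ∈ C ∧
      Prod.fst '' C = Q :=
  ⟨sec j '' Q, cf_sec_sub j Q hQd, cf_sec_conn j Q hQ, mem_image_of_mem _ hy, cf_fst_sec j Q⟩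

/-- chaining -/
theorem cf_chain (C D : Set (Sq × ℝ)) (hC : IsConnected C) (hD : IsConnected D) (p : Sq × ℝ)
    (h1 : p ∈ C) (h2 : p ∈ D) : IsConnected (C ∪ D) :=
  IsConnected.union ⟨p, h1, h2⟩ hC hD

theorem conf_proof (hS2 : Stmt_Star2) (hS3 : Stmt_Star3) (hST : Stmt_SepT) (hSY : Stmt_SepY')
    (hCT : Stmt_ConT) (hCY : Stmt_ConY') : Stmt_Conf := by
  classical
  intro Q hQY hQc hQ p hp hpQ
  simp only [X, mem_iUnion] at hp
  obtain ⟨j, y, hy, rfl⟩ := hp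
  have hyQ : y ∈ Q := hpQ
  by_cases hT : Q ⊆ YT
  · exact cf_single j Q hQ (hT.trans (cf_YT_dom j)) y hyQ
  by_cases hctr : ctr ∈ Q
  swap
  · -- the centre is not in Q
    fin_cases j
    · exact cf_single 0 Q hQ hQY y hyQ
    · exact absurd (hST Q hQY hQc hQ hctr ⟨y, hyQ, hy⟩) hT
    · exact absurd (hST Q hQY hQc hQ hctr ⟨y, hyQ, hy⟩) hT
    · exact cf_single 3 Q hQ (hSY Q hQY hQc hQ hctr ⟨y, hyQ, hy⟩) y hyQ
  have hQT : IsConnected (Q ∩ YT) := hCT Q hQY hQc hQ hctr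
  have hQY' : IsConnected (Q ∩ Y') := hCY Q hQY hQc hQ hctr
  obtain ⟨a, b, hab, ha, hb⟩ := hS2 Q hQY hQc hQ hctr hT
  have hone : (1 : ℝ) ∈ Icc (0 : ℝ) 1 := by simp
  have htip : ∀ i : Fin 3, lim i 1 ∈ YT := by
    intro i
    simp only [YT, mem_iUnion]
    exact ⟨i, 1, hone, rfl⟩
  -- the tips
  have hE : (Q ⊆ Y' ∧ ∃ i : Fin 3, ∀ k, k ≠ i → lim k 1 ∈ Q) ∨ ∀ i, lim i 1 ∈ Q := by
    by_cases hY : Q ⊆ Y'
    · left
      refine ⟨hY, ?_⟩
      have ha1 : lim a 1 ∈ Q := ha ⟨1, hone, rfl⟩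
      have hb1 : lim b 1 ∈ Q := hb ⟨1, hone, rfl⟩
      have hdec : ∀ a b : Fin 3, a ≠ b → ∃ i : Fin 3, ∀ k, k ≠ i → k = a ∨ k = b := by
        decide
      obtain ⟨i, hi⟩ := hdec a b hab
      refine ⟨i, fun k hk => ?_⟩
      rcases hi k hk with rfl | rfl
      · exact ha1
      · exact hb1
    · right
      intro i
      exact hS3 Q hQY hQc hQ hctr hY (htip i)
  have hsT : ∀ j : Fin 4, sec j '' (Q ∩ YT) ⊆ X := fun j =>
    cf_sec_sub j _ (inter_subset_right.trans (cf_YT_dom j))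
  have hcT : ∀ j : Fin 4, IsConnected (sec j '' (Q ∩ YT)) := fun j => cf_sec_conn j _ hQT
  have hs0 : sec 0 '' Q ⊆ X := cf_sec_sub 0 Q hQY
  have hc0 : IsConnected (sec 0 '' Q) := cf_sec_conn 0 Q hQ
  have hfT : ∀ j : Fin 4, Prod.fst '' (sec j '' (Q ∩ YT)) = Q ∩ YT := fun j => cf_fst_sec j _
  -- a walk from sheet 1 to sheet 0
  have walk10 : lim 0 1 ∈ Q → IsConnected (sec 1 '' (Q ∩ YT) ∪ sec 0 '' Q) := fun h =>
    cf_chain _ _ (hcT 1) hc0 (sec 0 (lim 0 1)) (by rw [cf_meet01]; exact ⟨_, ⟨h, htip 0⟩, rfl⟩)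
      ⟨_, h, rfl⟩
  have walk210 : lim 0 1 ∈ Q → lim 1 1 ∈ Q →
      IsConnected (sec 2 '' (Q ∩ YT) ∪ (sec 1 '' (Q ∩ YT) ∪ sec 0 '' Q)) := fun h h' =>
    cf_chain _ _ (hcT 2) (walk10 h) (sec 1 (lim 1 1))
      (by rw [cf_meet12]; exact ⟨_, ⟨h', htip 1⟩, rfl⟩) (Or.inl ⟨_, ⟨h', htip 1⟩, rfl⟩)
  have walk23 : Q ⊆ Y' → lim 2 1 ∈ Q → IsConnected (sec 2 '' (Q ∩ YT) ∪ sec 3 '' Q) :=
    fun _ h => cf_chain _ _ (hcT 2) (cf_sec_conn 3 Q hQ) (sec 2 (lim 2 1))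
      ⟨_, ⟨h, htip 2⟩, rfl⟩ (by rw [cf_meet23]; exact ⟨_, h, rfl⟩)
  have walk123 : Q ⊆ Y' → lim 1 1 ∈ Q → lim 2 1 ∈ Q →
      IsConnected (sec 1 '' (Q ∩ YT) ∪ (sec 2 '' (Q ∩ YT) ∪ sec 3 '' Q)) :=
    fun h0 h h' => cf_chain _ _ (hcT 1) (walk23 h0 h') (sec 1 (lim 1 1))
      ⟨_, ⟨h, htip 1⟩, rfl⟩ (Or.inl (by rw [cf_meet12]; exact ⟨_, ⟨h, htip 1⟩, rfl⟩))
  have walk3210 : lim 0 1 ∈ Q → lim 1 1 ∈ Q → lim 2 1 ∈ Q →
      IsConnected (sec 3 '' (Q ∩ Y') ∪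
        (sec 2 '' (Q ∩ YT) ∪ (sec 1 '' (Q ∩ YT) ∪ sec 0 '' Q))) := fun h h' h'' =>
    cf_chain _ _ (cf_sec_conn 3 _ hQY') (walk210 h h') (sec 2 (lim 2 1))
      (by rw [cf_meet23]; exact ⟨_, ⟨h'', cf_YT_sub (htip 2)⟩, rfl⟩)
      (Or.inl ⟨_, ⟨h'', htip 2⟩, rfl⟩)
  have hQTQ : Q ∩ YT ∪ Q = Q := union_eq_right.2 inter_subset_left
  have hQYQ : Q ∩ Y' ∪ Q = Q := union_eq_right.2 inter_subset_left
  fin_cases j
  · exact cf_single 0 Q hQ hQY y hyQ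
  · -- sheet 1
    by_cases h0 : lim 0 1 ∈ Q
    · refine ⟨_, union_subset (hsT 1) hs0, walk10 h0, Or.inl ⟨y, ⟨hyQ, hy⟩, rfl⟩, ?_⟩
      rw [image_union, hfT, cf_fst_sec, hQTQ]
    · rcases hE with ⟨hY, i, hi⟩ | hE
      · have hi0 : i = 0 := by
          by_contra hne
          exact h0 (hi 0 (fun h => hne h.symm))
        subst hi0
        refine ⟨_, union_subset (hsT 1) (union_subset (hsT 2) (cf_sec_sub 3 Q hY)),
          walk123 hY (hi 1 (by decide)) (hi 2 (by decide)), Or.inl ⟨y, ⟨hyQ, hy⟩, rfl⟩, ?_⟩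
        rw [image_union, image_union, hfT, hfT, cf_fst_sec, hQTQ, hQTQ]
      · exact absurd (hE 0) h0
  · -- sheet 2
    by_cases h01 : lim 0 1 ∈ Q ∧ lim 1 1 ∈ Q
    · refine ⟨_, union_subset (hsT 2) (union_subset (hsT 1) hs0), walk210 h01.1 h01.2,
        Or.inl ⟨y, ⟨hyQ, hy⟩, rfl⟩, ?_⟩
      rw [image_union, image_union, hfT, hfT, cf_fst_sec, hQTQ, hQTQ]
    · rcases hE with ⟨hY, i, hi⟩ | hE
      · have hi2 : (2 : Fin 3) ≠ i := by
          rintro rfl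
          exact h01 ⟨hi 0 (by decide), hi 1 (by decide)⟩
        refine ⟨_, union_subset (hsT 2) (cf_sec_sub 3 Q hY), walk23 hY (hi 2 hi2),
          Or.inl ⟨y, ⟨hyQ, hy⟩, rfl⟩, ?_⟩
        rw [image_union, hfT, cf_fst_sec, hQTQ]
      · exact absurd ⟨hE 0, hE 1⟩ h01
  · -- sheet 3
    by_cases hY : Q ⊆ Y'
    · exact cf_single 3 Q hQ hY y hyQ
    · have hE' : ∀ i, lim i 1 ∈ Q := fun i => hS3 Q hQY hQc hQ hctr hY (htip i)
      refine ⟨_, union_subset (cf_sec_sub 3 (Q ∩ Y') inter_subset_right)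
        (union_subset (hsT 2) (union_subset (hsT 1) hs0)), walk3210 (hE' 0) (hE' 1) (hE' 2),
        Or.inl ⟨y, ⟨hyQ, hy⟩, rfl⟩, ?_⟩
      rw [image_union, image_union, image_union, hfT, hfT, cf_fst_sec, cf_fst_sec, hQTQ, hQTQ]
      exact hQYQ

end Pool.Agent.TLC

end
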