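import Pool.Agent.TLC.Cont
import Pool.Agent.LibConfluent.Defs

/-!
# `f × f` is not confluent
-/

set_option autoImplicit false

noncomputable section

namespace Pool.Agent.TLC.Fin11

open Set Pool.Agent.LibConfluent

/-! ### Bounds -/

theorem hgt_mem (i : Fin 3) : hgt i ∈ Icc (0 : ℝ) 2 := by
  constructor
  · exact Nat.cast_nonneg _
  · have : (i : ℕ) ≤ 2 := by omega
    unfold hgt
    exact_mod_cast this

theorem R_mem {n : ℕ} {τ : Ty} {p : HFun × ℝ} (hp : p ∈ R n τ) : p.2 ∈ Icc (0 : ℝ) 2 := by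
  induction n generalizing τ p with
  | zero =>
    cases τ with
    | M l =>
      have ha := hgt_mem (l + 1)
      have hb := hgt_mem (l + 2)
      rcases hp with ⟨r, hr, rfl⟩ | ⟨r, hr, rfl⟩
      · constructor
        · show 0 ≤ hgt (l + 1) + (hgt (l + 2) - hgt (l + 1)) * r / 2
          nlinarith [ha.1, ha.2, hb.1, hb.2, hr.1, hr.2, mul_nonneg hb.1 hr.1,
            mul_nonneg ha.1 (sub_nonneg.2 hr.2)]
        · show hgt (l + 1) + (hgt (l + 2) - hgt (l + 1)) * r / 2 ≤ 2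
          nlinarith [ha.1, ha.2, hb.1, hb.2, hr.1, hr.2, mul_nonneg (sub_nonneg.2 hb.2) hr.1,
            mul_nonneg (sub_nonneg.2 ha.2) (sub_nonneg.2 hr.2)]
      · constructor
        · show 0 ≤ hgt (l + 2) - (hgt (l + 2) - hgt (l + 1)) * r / 2
          nlinarith [ha.1, ha.2, hb.1, hb.2, hr.1, hr.2, mul_nonneg ha.1 hr.1,
            mul_nonneg hb.1 (sub_nonneg.2 hr.2)]
        · show hgt (l + 2) - (hgt (l + 2) - hgt (l + 1)) * r / 2 ≤ 2
          nlinarith [ha.1, ha.2, hb.1, hb.2, hr.1, hr.2, mul_nonneg (sub_nonneg.2 ha.2) hr.1,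
            mul_nonneg (sub_nonneg.2 hb.2) (sub_nonneg.2 hr.2)]
    | P i =>
      obtain ⟨r, hr, rfl⟩ := hp
      exact hgt_mem i
  | succ n ih =>
    rcases hp with hp | hp
    · simp only [mem_iUnion, mem_image] at hp
      obtain ⟨s, _, r, _, rfl⟩ := hp
      exact hgt_mem s
    · simp only [mem_iUnion, mem_image] at hp
      obtain ⟨b, q, hq, rfl⟩ := hp
      have := ih hq
      exact this

theorem mem_LT {p : Pt × ℝ} : p ∈ LT ↔ ∃ i k : Fin 3, k ≠ i ∧ ∃ r ∈ Icc (0 : ℝ) 1,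
    p = (legp k r, hgt i) := by
  simp only [LT, mem_iUnion, mem_image, mem_compl_iff, mem_singleton_iff]
  constructor
  · rintro ⟨i, k, hk, r, hr, rfl⟩; exact ⟨i, k, hk, r, hr, rfl⟩
  · rintro ⟨i, k, hk, r, hr, rfl⟩; exact ⟨i, k, hk, r, hr, rfl⟩

theorem L_mem {p : Sq × ℝ} (hp : p ∈ L) : p.2 ∈ Icc (0 : ℝ) 2 := by
  rcases hp.2 0 with h | h
  · obtain ⟨i, k, _, r, _, h⟩ := mem_LT.1 h
    have : p.2 = hgt i := congrArg Prod.snd h
    rw [this]; exact hgt_mem i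
  · simp only [mem_iUnion, mem_image] at h
    obtain ⟨τ, q, hq, h⟩ := h
    have : q.2 = p.2 := congrArg Prod.snd h
    rw [← this]; exact R_mem hq

theorem ctr_L (i : Fin 3) : (ctr, hgt i) ∈ L := by
  refine ⟨YT_subset_Y ctr_mem_YT, fun n => Or.inl (mem_LT.2 ?_)⟩
  obtain ⟨k, hk⟩ : ∃ k : Fin 3, k ≠ i := by
    revert i; decide
  exact ⟨i, k, hk, 0, zero_mem, by simp [ctr]⟩

theorem lc_mem {y : Sq} (hy : y ∈ Y) (i : Fin 3) : lc i y ∈ Icc (0 : ℝ) 1 := by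
  rcases mem_K.1 (hy 0).1 with ⟨k, r, hr, h⟩ | ⟨τ, u, _, h⟩
  · by_cases hk : i = k
    · subst hk; simp only [lc, h, legp, br_self, edge_nil]; exact hr
    · have h0 : (y 0) (Sum.inl i) = 0 := by rw [h]; exact br_ne (by simpa using hk) _
      simp only [lc, h0]; exact zero_mem
  · have h0 : (y 0) (Sum.inl i) = 0 := by rw [h]; exact br_ne (by simp) _
    simp only [lc, h0]; exact zero_mem

/-! ### The two colours -/

/-- The first colour class. -/
def GG : Set ((Sq × ℝ) × ℝ) :=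
  (sec 3 '' dom 3) ×ˢ univ ∪ (sec 2 '' dom 2) ×ˢ {0, 1} ∪ (sec 1 '' dom 1) ×ˢ {0}

/-- The second colour class. -/
def HH : Set ((Sq × ℝ) × ℝ) :=
  (sec 0 '' dom 0) ×ˢ univ ∪ (sec 1 '' dom 1) ×ˢ {1, 2} ∪ (sec 2 '' dom 2) ×ˢ {2}

theorem isClosed_GG (hInv : Stmt_Inv) : IsClosed GG := by
  have h := fun j => (isCompact_sheet hInv j).isClosed
  exact (((h 3).prod isClosed_univ).union ((h 2).prod (Set.toFinite _).isClosed)).union
    ((h 1).prod isClosed_singleton)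

theorem isClosed_HH (hInv : Stmt_Inv) : IsClosed HH := by
  have h := fun j => (isCompact_sheet hInv j).isClosed
  exact (((h 0).prod isClosed_univ).union ((h 1).prod (Set.toFinite _).isClosed)).union
    ((h 2).prod isClosed_singleton)

theorem hgt_0 : hgt 0 = 0 := by simp [hgt]

theorem hgt_1 : hgt 1 = 1 := by simp [hgt]

theorem hgt_2 : hgt 2 = 2 := by simp [hgt]

theorem hgt_cases (i : Fin 3) : hgt i = 0 ∨ hgt i = 1 ∨ hgt i = 2 := by
  fin_cases i
  · exact Or.inl hgt_0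
  · exact Or.inr (Or.inl hgt_1)
  · exact Or.inr (Or.inr hgt_2)

theorem hgt_injective : Function.Injective hgt := by
  intro i j h
  have : ((i : ℕ) : ℝ) = ((j : ℕ) : ℝ) := h
  exact Fin.ext (by exact_mod_cast this)

theorem cover (hLT : Stmt_LT) {p : Sq × ℝ} {t : ℝ} (hp : p ∈ X) (hL : (p.1, t) ∈ L) :
    (p, t) ∈ GG ∪ HH := by
  obtain ⟨j, hj⟩ := mem_iUnion.1 hp
  match j, hj with
  | 0, hj => exact Or.inr (Or.inl (Or.inl ⟨hj, trivial⟩))
  | 3, hj => exact Or.inl (Or.inl (Or.inl ⟨hj, trivial⟩))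
  | 1, hj =>
    obtain ⟨y, hy, rfl⟩ := hj
    obtain ⟨i, _, _, ht, _⟩ := hLT y hy t hL
    rcases hgt_cases i with h | h | h
    · exact Or.inl (Or.inr ⟨⟨y, hy, rfl⟩, ht.trans h⟩)
    · exact Or.inr (Or.inl (Or.inr ⟨⟨y, hy, rfl⟩, Or.inl (ht.trans h)⟩))
    · exact Or.inr (Or.inl (Or.inr ⟨⟨y, hy, rfl⟩, Or.inr (ht.trans h)⟩))
  | 2, hj =>
    obtain ⟨y, hy, rfl⟩ := hj
    obtain ⟨i, _, _, ht, _⟩ := hLT y hy t hL
    rcases hgt_cases i with h | h | h
    · exact Or.inl (Or.inl (Or.inr ⟨⟨y, hy, rfl⟩, Or.inl (ht.trans h)⟩))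
    · exact Or.inl (Or.inl (Or.inr ⟨⟨y, hy, rfl⟩, Or.inr (ht.trans h)⟩))
    · exact Or.inr (Or.inr ⟨⟨y, hy, rfl⟩, ht.trans h⟩)

/-- The tip of the leg `i` is missing in `L` at the height `i`. -/
theorem tip_not_mem (hLT : Stmt_LT) (i : Fin 3) : (lim i 1, hgt i) ∉ L := by
  intro h
  obtain ⟨j, k, hk, ht, r, hr, h2⟩ := hLT _ (mem_YT.2 ⟨i, 1, one_mem, rfl⟩) _ h
  have hij := hgt_injective ht
  subst hij
  have h3 : lc i (lim i 1) = lc i (lim k r) := by rw [h2]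
  rw [lc_self, lc_ne hk.symm] at h3
  exact one_ne_zero h3

theorem eq_tip {y : Sq} (hy : y ∈ YT) {i : Fin 3} (h : lc i y = 1) : y = lim i 1 := by
  obtain ⟨k, r, hr, rfl⟩ := mem_YT.1 hy
  rw [lc_lim] at h
  by_cases hk : i = k
  · subst hk
    simp only [if_true] at h
    rw [h]
  · simp [hk] at h

theorem disj (hLT : Stmt_LT) {p : Sq × ℝ} {t : ℝ} (hG : (p, t) ∈ GG) (hH : (p, t) ∈ HH)
    (hL : (p.1, t) ∈ L) : False := by
  have hb := fun i => lc_mem hL.1 i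
  have b0 := hb 0
  have b1 := hb 1
  have b2 := hb 2
  have key : ∀ j, p ∈ sec j '' dom j → p.1 ∈ dom j ∧ p.2 = ht j p.1 := by
    rintro j ⟨y, hy, rfl⟩; exact ⟨hy, rfl⟩
  have hone : ∀ i, p.1 ∈ YT → lc i p.1 = 1 → t = hgt i → False := by
    intro i hy h1 ht
    have := eq_tip hy h1
    rw [this, ht] at hL
    exact tip_not_mem hLT i hL
  rcases hG with (⟨h3, -⟩ | ⟨h2, h2t⟩) | ⟨h1, h1t⟩
  · obtain ⟨h3a, h3b⟩ := key 3 h3
    rcases hH with (⟨h, -⟩ | ⟨h, -⟩) | ⟨h, ht⟩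
    · obtain ⟨ha, hb⟩ := key 0 h
      simp only [Pool.Agent.TLC.ht] at h3b hb
      linarith [b2.2, b0.2]
    · obtain ⟨ha, hb⟩ := key 1 h
      simp only [Pool.Agent.TLC.ht] at h3b hb
      linarith [b2.2, b0.1, b1.2]
    · obtain ⟨ha, hb⟩ := key 2 h
      simp only [Pool.Agent.TLC.ht] at h3b hb
      exact hone 2 ha (by linarith [b2.2, b1.1]) (by rw [hgt_2]; exact ht)
  · obtain ⟨h2a, h2b⟩ := key 2 h2
    rcases hH with (⟨h, -⟩ | ⟨h, ht⟩) | ⟨h, ht⟩
    · obtain ⟨ha, hb⟩ := key 0 h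
      simp only [Pool.Agent.TLC.ht] at h2b hb
      linarith [b1.2, b2.1, b0.2]
    · obtain ⟨ha, hb⟩ := key 1 h
      simp only [Pool.Agent.TLC.ht] at h2b hb
      simp only [mem_insert_iff, mem_singleton_iff] at h2t ht
      refine hone 1 ha (by linarith [b1.2, b0.1, b2.1]) ?_
      rw [hgt_1]
      rcases h2t with h | h
      · rcases ht with h' | h' <;> linarith
      · exact h
    · simp only [mem_insert_iff, mem_singleton_iff] at h2t ht
      rcases h2t with h | h <;> linarith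
  · obtain ⟨h1a, h1b⟩ := key 1 h1
    simp only [mem_singleton_iff] at h1t
    rcases hH with (⟨h, -⟩ | ⟨h, ht⟩) | ⟨h, ht⟩
    · obtain ⟨ha, hb⟩ := key 0 h
      simp only [Pool.Agent.TLC.ht] at h1b hb
      exact hone 0 h1a (by linarith [b0.2, b1.1]) (by rw [hgt_0]; exact h1t)
    · simp only [mem_insert_iff, mem_singleton_iff] at ht
      rcases ht with h' | h' <;> linarith
    · simp only [mem_singleton_iff] at ht
      linarith

/-! ### The map `f` -/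

/-- The map. -/
def fm (x : X) : Y := ⟨x.1.1, by
  obtain ⟨j, y, hy, h⟩ := mem_iUnion.1 x.2
  rw [← h]
  match j, hy with
  | 0, hy => exact hy
  | 1, hy => exact YT_subset_Y hy
  | 2, hy => exact YT_subset_Y hy
  | 3, hy => exact Y'_subset_Y hy⟩

theorem fm_val (x : X) : (fm x : Sq) = x.1.1 := rfl

theorem continuous_fm : Continuous fm :=
  Continuous.subtype_mk (continuous_fst.comp continuous_subtype_val) _

theorem confluent_fm (hConf : Stmt_Conf) : Confluent fm := by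
  refine ⟨continuous_fm, ?_, ?_⟩
  · rintro ⟨y, hy⟩
    exact ⟨⟨sec 0 y, mem_iUnion.2 ⟨0, y, hy, rfl⟩⟩, rfl⟩
  · rintro Q ⟨hQ, hQc⟩ C ⟨x, hx, rfl⟩
    apply Subset.antisymm
    · rintro _ ⟨z, hz, rfl⟩
      have h := connectedComponentIn_subset (fm ⁻¹' Q) x hz
      exact h
    · obtain ⟨D, hDX, hDc, hxD, hD⟩ := hConf (Subtype.val '' Q)
        (by rintro _ ⟨y, _, rfl⟩; exact y.2)
        (hQ.image continuous_subtype_val) (hQc.image _ continuous_subtype_val.continuousOn)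
        x.1 x.2 ⟨fm x, hx, rfl⟩
      have h1 : Subtype.val '' (Subtype.val ⁻¹' D : Set X) = D := by
        rw [Subtype.image_preimage_coe]
        exact inter_eq_right.2 hDX
      have h2 : IsPreconnected (Subtype.val ⁻¹' D : Set X) := by
        rw [← Topology.IsInducing.subtypeVal.isPreconnected_image, h1]
        exact hDc.isPreconnected
      have h3 : (Subtype.val ⁻¹' D : Set X) ⊆ fm ⁻¹' Q := by
        intro z hz
        have h4 : z.1.1 ∈ Prod.fst '' D := ⟨z.1, hz, rfl⟩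
        rw [hD] at h4
        obtain ⟨w, hw, hwz⟩ := h4
        have : fm z = w := Subtype.ext hwz.symm
        show fm z ∈ Q
        rw [this]; exact hw
      have h5 := h2.subset_connectedComponentIn (x := x) hxD h3
      intro w hw
      have h6 : (w : Sq) ∈ Prod.fst '' D := by rw [hD]; exact ⟨w, hw, rfl⟩
      obtain ⟨p, hp, hpw⟩ := h6
      exact ⟨⟨p, hDX hp⟩, h5 hp, Subtype.ext hpw⟩

/-! ### `f × f` is not confluent -/

theorem not_confluent (hInv : Stmt_Inv) (hL : Stmt_L) (hLT : Stmt_LT) (hI : Stmt_Iota) :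
    ∃ (M : Set (Y × Y)) (C : Set (X × X)), IsSubcontinuum M ∧
      IsComponentOf C (Prod.map fm fm ⁻¹' M) ∧ Prod.map fm fm '' C ≠ M := by
  obtain ⟨ι, hιc, hιi, hι, t₁, ht₁⟩ := hI
  have hhalf : ∀ t ∈ Icc (0 : ℝ) 2, t / 2 ∈ Icc (0 : ℝ) 1 := fun t ht =>
    ⟨by linarith [ht.1], by linarith [ht.2]⟩
  -- the continuum `M`
  set M : Set (Y × Y) := {b | ∃ t, ((b.1 : Sq), t) ∈ L ∧ (b.2 : Sq) = ι (t / 2)} with hM
  have hMsub : IsSubcontinuum M := by
    let g : L → Y × Y := fun p =>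
      (⟨p.1.1, p.2.1⟩, ⟨ι (p.1.2 / 2), (hι _ (hhalf _ (L_mem p.2))).1⟩)
    have hg : Continuous g := by
      refine Continuous.prodMk (Continuous.subtype_mk (continuous_fst.comp continuous_subtype_val) _)
        (Continuous.subtype_mk (hιc.comp ?_) _)
      exact (continuous_snd.comp continuous_subtype_val).div_const 2
    have hgM : range g = M := by
      ext b
      constructor
      · rintro ⟨p, rfl⟩
        exact ⟨p.1.2, p.2, rfl⟩
      · rintro ⟨t, h1, h2⟩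
        exact ⟨⟨_, h1⟩, Prod.ext rfl (Subtype.ext h2.symm)⟩
    have : CompactSpace L := isCompact_iff_compactSpace.1 hL.1
    have : ConnectedSpace L := isConnected_iff_connectedSpace.1 hL.2
    rw [← hgM]
    exact ⟨isCompact_range hg, isConnected_range hg⟩
  -- the point
  have hι0 := hι 0 zero_mem
  set x₀ : X := ⟨sec 3 ctr, mem_iUnion.2 ⟨3, ctr, YT_subset_Y' ctr_mem_YT, rfl⟩⟩ with hx₀
  set x₁ : X := ⟨sec 0 (ι 0), mem_iUnion.2 ⟨0, ι 0, hι0.1, rfl⟩⟩ with hx₁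
  have hmem : (x₀, x₁) ∈ Prod.map fm fm ⁻¹' M := by
    refine ⟨0, ?_, ?_⟩
    · have := ctr_L 0
      rw [hgt_0] at this
      exact this
    · show ι 0 = ι (0 / 2)
      rw [zero_div]
  refine ⟨M, connectedComponentIn (Prod.map fm fm ⁻¹' M) (x₀, x₁), hMsub, ⟨_, hmem, rfl⟩, ?_⟩
  -- the two closed sets
  have hcl : ∀ A : Set ((Sq × ℝ) × ℝ), IsClosed A →
      IsClosed {a : X × X | ∃ t ∈ Icc (0 : ℝ) 2, a.2.1.1 = ι (t / 2) ∧ (a.1.1, t) ∈ A} := by
    intro A hA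
    have : CompactSpace (Icc (0 : ℝ) 2) := isCompact_iff_compactSpace.1 isCompact_Icc
    have h1 : IsClosed {q : (X × X) × Icc (0 : ℝ) 2 |
        q.1.2.1.1 = ι ((q.2 : ℝ) / 2) ∧ (q.1.1.1, (q.2 : ℝ)) ∈ A} := by
      apply IsClosed.inter
      · exact isClosed_eq (by fun_prop) (hιc.comp (by fun_prop))
      · exact hA.preimage (by fun_prop)
    have h2 := isClosedMap_fst_of_compactSpace (X := X × X) (Y := Icc (0 : ℝ) 2) _ h1
    convert h2 using 1
    ext a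
    constructor
    · rintro ⟨t, ht, h3, h4⟩
      exact ⟨(a, ⟨t, ht⟩), ⟨h3, h4⟩, rfl⟩
    · rintro ⟨⟨a', t⟩, ⟨h3, h4⟩, rfl⟩
      exact ⟨t, t.2, h3, h4⟩
  have hG := hcl GG (isClosed_GG hInv)
  have hH := hcl HH (isClosed_HH hInv)
  have hpre := isPreconnected_connectedComponentIn (F := Prod.map fm fm ⁻¹' M) (x := (x₀, x₁))
  have hsub : connectedComponentIn (Prod.map fm fm ⁻¹' M) (x₀, x₁) ⊆
      {a : X × X | ∃ t ∈ Icc (0 : ℝ) 2, a.2.1.1 = ι (t / 2) ∧ (a.1.1, t) ∈ GG} := by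
    intro a ha
    have hcov : ∀ a ∈ connectedComponentIn (Prod.map fm fm ⁻¹' M) (x₀, x₁),
        a ∈ {a : X × X | ∃ t ∈ Icc (0 : ℝ) 2, a.2.1.1 = ι (t / 2) ∧ (a.1.1, t) ∈ GG} ∪
          {a : X × X | ∃ t ∈ Icc (0 : ℝ) 2, a.2.1.1 = ι (t / 2) ∧ (a.1.1, t) ∈ HH} := by
      intro a ha
      obtain ⟨t, h1, h2⟩ := connectedComponentIn_subset _ _ ha
      rcases cover hLT a.1.2 h1 with h3 | h3
      · exact Or.inl ⟨t, L_mem h1, h2, h3⟩
      · exact Or.inr ⟨t, L_mem h1, h2, h3⟩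
    rcases hcov a ha with h | h
    · exact h
    · exfalso
      obtain ⟨b, hb, ⟨t, ht, h1, h2⟩, ⟨t', ht', h1', h2'⟩⟩ :=
        isPreconnected_closed_iff.1 hpre _ _ hG hH hcov
        ⟨(x₀, x₁), mem_connectedComponentIn hmem, 0, ⟨le_rfl, by norm_num⟩, by
          show ι 0 = ι (0 / 2)
          rw [zero_div], Or.inl (Or.inl ⟨⟨ctr, YT_subset_Y' ctr_mem_YT, rfl⟩, trivial⟩)⟩
        ⟨a, ha, h⟩
      obtain ⟨s, h3, h4⟩ := connectedComponentIn_subset _ _ hb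
      have e1 : t = t' := by
        have := hιi (hhalf t ht) (hhalf t' ht') (h1.symm.trans h1')
        linarith
      have e2 : t = s := by
        have := hιi (hhalf t ht) (hhalf s (L_mem h3)) (h1.symm.trans h4)
        linarith
      subst e1
      subst e2
      exact disj hLT h2 h2' h3
  intro heq
  have hι1 := hι 1 one_mem
  have hmemM : ((⟨ι 1, hι1.1⟩, ⟨ι (t₁ / 2), (hι _ (hhalf _ (L_mem ht₁))).1⟩) : Y × Y) ∈ M :=
    ⟨t₁, ht₁, rfl⟩
  rw [← heq] at hmemM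
  obtain ⟨a, ha, h1⟩ := hmemM
  have h2 : a.1.1.1 = ι 1 := congrArg (fun b : Y × Y => (b.1 : Sq)) h1
  obtain ⟨t, _, _, h3⟩ := hsub ha
  apply hι1.2.1
  rw [← h2]
  rcases h3 with (⟨⟨y, hy, h⟩, -⟩ | ⟨⟨y, hy, h⟩, -⟩) | ⟨⟨y, hy, h⟩, -⟩
  · rw [← show y = a.1.1.1 from congrArg Prod.fst h]; exact hy
  · rw [← show y = a.1.1.1 from congrArg Prod.fst h]; exact YT_subset_Y' hy
  · rw [← show y = a.1.1.1 from congrArg Prod.fst h]; exact YT_subset_Y' hy

/-- The assembly. -/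
theorem main (hInv : Stmt_Inv) (hT : Stmt_TreeLikeX) (hConf : Stmt_Conf) (hL : Stmt_L)
    (hLT : Stmt_LT) (hI : Stmt_Iota) :
    ∃ (A B : Type) (_ : MetricSpace A) (_ : MetricSpace B) (f : A → B),
    CompactSpace A ∧ ConnectedSpace A ∧ CompactSpace B ∧ ConnectedSpace B ∧
    TreeLike A ∧ Confluent f ∧
    ∃ (M : Set (B × B)) (C : Set (A × A)), IsSubcontinuum M ∧
      IsComponentOf C (Prod.map f f ⁻¹' M) ∧ Prod.map f f '' C ≠ M := by
  obtain ⟨hY1, hY2, hX1, hX2⟩ := cont_proof hInv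
  let mX : MetricSpace X := TopologicalSpace.metrizableSpaceMetric X
  let mY : MetricSpace Y := TopologicalSpace.metrizableSpaceMetric Y
  exact ⟨X, Y, mX, mY, fm, isCompact_iff_compactSpace.1 hX1, isConnected_iff_connectedSpace.1 hX2,
    isCompact_iff_compactSpace.1 hY1, isConnected_iff_connectedSpace.1 hY2, hT mX rfl,
    confluent_fm hConf, not_confluent hInv hL hLT hI⟩

end Pool.Agent.TLC.Fin11

end
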