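import Pool.Agent.TLC.Stmts

/-! INV: intersections and inverse limits of compact connected sets. -/

set_option autoImplicit false

namespace Pool.Agent.TLC

open Set

theorem inter_proof : Stmt_Inter := by
  intro Z _ _ A hK hC hA
  have hcl : ∀ n, IsClosed (A n) := fun n => (hK n).isClosed
  have hKI : IsCompact (⋂ n, A n) :=
    (hK 0).of_isClosed_subset (isClosed_iInter hcl) (iInter_subset _ 0)
  refine ⟨IsCompact.nonempty_iInter_of_sequence_nonempty_isCompact_isClosed A
    (fun i => hA (Nat.le_succ i)) (fun i => (hC i).nonempty) (hK 0) hcl, ?_⟩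
  rw [isPreconnected_closed_iff]
  intro t t' ht ht' hsub hn hn'
  by_contra hcon
  rw [not_nonempty_iff_eq_empty] at hcon
  have hd : Disjoint ((⋂ n, A n) ∩ t) ((⋂ n, A n) ∩ t') := by
    rw [disjoint_iff_inter_eq_empty]
    rw [← inter_inter_distrib_left]
    exact hcon
  obtain ⟨U, V, hU, hV, hUt, hVt, hUV⟩ := SeparatedNhds.of_isCompact_isCompact
    (hKI.inter_right ht) (hKI.inter_right ht') hd
  obtain ⟨n, hAn⟩ := exists_subset_nhds_of_isCompact' (V := A) hA.directed_ge hK hcl
    (U := U ∪ V) (by
      intro x hx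
      apply (hU.union hV).mem_nhds
      rcases hsub hx with h | h
      · exact Or.inl (hUt ⟨hx, h⟩)
      · exact Or.inr (hVt ⟨hx, h⟩))
  obtain ⟨x, hx, hxt⟩ := hn
  obtain ⟨y, hy, hyt⟩ := hn'
  obtain ⟨z, -, hzU, hzV⟩ := (hC n).isPreconnected U V hU hV hAn
    ⟨x, iInter_subset _ n hx, hUt ⟨hx, hxt⟩⟩ ⟨y, iInter_subset _ n hy, hVt ⟨hy, hyt⟩⟩
  exact (disjoint_left.mp hUV hzU) hzV

theorem inv_proof : Stmt_Inv := by
  intro Z _ _ φ A hφ hK hC hm
  -- finite stages
  set B : ℕ → Set (ℕ → Z) := fun n => {z | (∀ k, z k ∈ A k) ∧ ∀ k, k < n → φ (z (k + 1)) = z k}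
    with hB
  have hanti : Antitone B := by
    intro m n hmn z hz
    exact ⟨hz.1, fun k hk => hz.2 k (hk.trans_le hmn)⟩
  have hIB : {z : ℕ → Z | ∀ n, z n ∈ A n ∧ φ (z (n + 1)) = z n} = ⋂ n, B n := by
    ext z
    simp only [mem_ofPred_eq, mem_iInter, hB]
    constructor
    · intro h n
      exact ⟨fun k => (h k).1, fun k _ => (h k).2⟩
    · intro h n
      exact ⟨(h 0).1 n, (h (n + 1)).2 n (Nat.lt_succ_self n)⟩
  have hpi : IsCompact (pi univ A) := isCompact_univ_pi hK
  have hpc : IsConnected (pi univ A) := isConnected_univ_pi.mpr hC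
  -- the projection maps
  let Φ : ℕ → (ℕ → Z) → (ℕ → Z) := fun n w k => φ^[n - k] (w (max k n))
  have hΦc : ∀ n, Continuous (Φ n) := by
    intro n
    apply continuous_pi
    intro k
    exact (hφ.iterate _).comp (continuous_apply _)
  have hmaps : ∀ j k : ℕ, ∀ x ∈ A (k + j), φ^[j] x ∈ A k := by
    intro j
    induction j with
    | zero => intro k x hx; exact hx
    | succ j ih =>
      intro k x hx
      rw [Function.iterate_succ_apply]
      exact ih k _ (hm (k + j) hx)
  have hBim : ∀ n, B n = Φ n '' (pi univ A) := by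
    intro n
    ext z
    constructor
    · rintro ⟨h1, h2⟩
      refine ⟨z, fun k _ => h1 k, ?_⟩
      funext k
      show φ^[n - k] (z (max k n)) = z k
      rcases le_total n k with hk | hk
      · rw [max_eq_left hk, Nat.sub_eq_zero_of_le hk]; rfl
      · rw [max_eq_right hk]
        have : ∀ j, k + j ≤ n → φ^[j] (z (k + j)) = z k := by
          intro j
          induction j with
          | zero => intro _; rfl
          | succ j ih =>
            intro hj
            rw [Function.iterate_succ_apply]
            rw [show k + (j + 1) = k + j + 1 from rfl, h2 (k + j) (by omega)]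
            exact ih (by omega)
        have h3 := this (n - k) (by omega)
        rwa [show k + (n - k) = n by omega] at h3
    · rintro ⟨w, hw, rfl⟩
      refine ⟨?_, ?_⟩
      · intro k
        show φ^[n - k] (w (max k n)) ∈ A k
        apply hmaps
        have : k + (n - k) = max k n := by omega
        rw [this]
        exact hw _ (mem_univ _)
      · intro k hk
        show φ (φ^[n - (k + 1)] (w (max (k + 1) n))) = φ^[n - k] (w (max k n))
        rw [← Function.iterate_succ_apply' φ]
        rw [show (n - (k + 1)).succ = n - k by omega, show max (k + 1) n = max k n by omega]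
  have hBc : ∀ n, IsCompact (B n) := fun n => by rw [hBim]; exact hpi.image (hΦc n)
  have hBco : ∀ n, IsConnected (B n) := fun n => by
    rw [hBim]; exact hpc.image _ (hΦc n).continuousOn
  rw [hIB]
  refine ⟨?_, inter_proof _ inferInstance inferInstance B hBc hBco hanti⟩
  exact (hBc 0).of_isClosed_subset (isClosed_iInter fun n => (hBc n).isClosed) (iInter_subset _ 0)

end Pool.Agent.TLC
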