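import Pool.Agent.TLC.Stmts

/-!
# An arc in `Y` outside of `Y'`
-/

set_option autoImplicit false

noncomputable section

namespace Pool.Agent.TLC.Iota89

open Set

/-- The type of the hair used at level `n`. -/
def pidx : ℕ → Fin 3
  | 0 => 0
  | n + 1 => pidx n - 1

/-- The point `u` of the subtree with the name `true ^ n`. -/
def nd : ℕ → HFun → HFun
  | 0, u => u
  | n + 1, u => node true (nd n u)

/-- The arc. -/
def iot (r : ℝ) : Sq := fun n => br (Sum.inr (Ty.P (pidx n))) (nd n (edge r))

theorem continuous_edge : Continuous edge := by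
  refine continuous_pi (fun w => ?_)
  unfold edge
  by_cases h : w = []
  · simpa [h] using continuous_id'
  · simpa [h] using continuous_const

theorem continuous_node (b : Bool) : Continuous (node b) := by
  refine continuous_pi (fun w => ?_)
  cases w with
  | nil => exact continuous_const
  | cons c w =>
    by_cases h : c = b
    · have : (fun u : HFun => node b u (c :: w)) = fun u => u w := by
        funext u
        simp [node, h]
      rw [this]
      exact continuous_apply w
    · have : (fun u : HFun => node b u (c :: w)) = fun _ => 0 := by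
        funext u
        simp [node, h]
      rw [this]
      exact continuous_const

theorem continuous_br (a : Br) : Continuous (br a) := by
  refine continuous_pi (fun c => ?_)
  unfold br
  by_cases h : c = a
  · simpa [h] using continuous_id'
  · simpa [h] using continuous_const

theorem continuous_nd (n : ℕ) : Continuous (nd n) := by
  induction n with
  | zero => exact continuous_id
  | succ n ih => exact (continuous_node true).comp ih

theorem continuous_iot : Continuous iot := by
  refine continuous_pi (fun n => ?_)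
  exact (continuous_br _).comp ((continuous_nd n).comp continuous_edge)

theorem edge_mem_tree (n : ℕ) {r : ℝ} (hr : r ∈ Icc (0 : ℝ) 1) : edge r ∈ Tree n := by
  cases n with
  | zero => exact ⟨r, hr, rfl⟩
  | succ n => exact Or.inl ⟨r, hr, rfl⟩

theorem nd_mem_tree (n : ℕ) {r : ℝ} (hr : r ∈ Icc (0 : ℝ) 1) : nd n (edge r) ∈ Tree n := by
  induction n with
  | zero => exact ⟨r, hr, rfl⟩
  | succ n ih => exact Or.inr (mem_iUnion.2 ⟨true, _, ih, rfl⟩)

theorem tent_zero : tent 0 = 0 := by simp [tent]

theorem tent_one : tent 1 = 0 := by norm_num [tent]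

theorem kap_br_node (i : Fin 3) (u : HFun) :
    kap (br (Sum.inr (Ty.P i)) (node true u)) = br (Sum.inr (Ty.P (i + 1))) u := by
  funext c
  cases c with
  | inl j =>
    funext w
    by_cases hw : w = []
    · subst hw
      have h1 : ∀ τ : Ty, tent (br (Sum.inr (Ty.P i)) (node true u) (Sum.inr τ) []) = 0 := by
        intro τ
        by_cases h : τ = Ty.P i
        · simp [br, h, node, tent_one]
        · simp [br, h, tent_zero]
      simp only [kap, h1]
      simp [br]
    · simp [kap, hw, br]
  | inr σ =>
    funext w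
    have h1 : ∀ τ : Ty, ∀ b : Bool, (if ch τ b = σ then
        br (Sum.inr (Ty.P i)) (node true u) (Sum.inr τ) (b :: w) else 0) =
        if τ = Ty.P i then (if b = true then (if Ty.P (i + 1) = σ then u w else 0) else 0)
          else 0 := by
      intro τ b
      by_cases h : τ = Ty.P i
      · subst h
        cases b with
        | false => simp [br, node]
        | true => simp [br, node, ch]
      · simp [br, h]
    simp only [kap, h1]
    rw [Finset.sum_eq_single (Ty.P i)]
    · by_cases h : Ty.P (i + 1) = σ
      · subst h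
        simp [br]
      · have h' : ¬ (σ = Ty.P (i + 1)) := fun e => h e.symm
        simp [br, h, h']
    · intro τ _ h
      simp [h]
    · intro h
      exact absurd (Finset.mem_univ _) h

theorem kap_iot (r : ℝ) (n : ℕ) : kap (iot r (n + 1)) = iot r n := by
  change kap (br (Sum.inr (Ty.P (pidx n - 1))) (node true (nd n (edge r)))) = _
  rw [kap_br_node, sub_add_cancel]
  rfl

theorem iot_one_val (r : ℝ) : iot r 1 (Sum.inr (Ty.P (pidx 1))) [] = 1 := by
  simp [iot, br, nd, node]

theorem iot_mem_Y {r : ℝ} (hr : r ∈ Icc (0 : ℝ) 1) : iot r ∈ Y := by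
  intro n
  refine ⟨Or.inr (mem_iUnion.2 ⟨Ty.P (pidx n), _, nd_mem_tree n hr, rfl⟩), kap_iot r n⟩

theorem KT_val {x : Pt} (hx : x ∈ KT) (σ : Ty) : x (Sum.inr σ) = 0 := by
  obtain ⟨i, t, _, rfl⟩ := mem_iUnion.1 hx
  simp [legp, br]

theorem K'_val {n : ℕ} {x : Pt} (hx : x ∈ K' n) (i : Fin 3) : x (Sum.inr (Ty.P i)) = 0 := by
  rcases hx with hx | hx
  · exact KT_val hx _
  · obtain ⟨l, u, _, rfl⟩ := mem_iUnion.1 hx
    simp [br]

theorem iot_notMem_Y' (r : ℝ) : iot r ∉ Y' := by
  intro h
  have h1 := iot_one_val r
  rw [K'_val (h 1).1] at h1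
  simp at h1

theorem iot_notMem_YT (r : ℝ) : iot r ∉ YT := by
  intro h
  obtain ⟨i, t, _, h2⟩ := mem_iUnion.1 h
  have h1 := iot_one_val r
  rw [← h2] at h1
  simp [lim, legp, br] at h1

theorem nd_mem_R (n : ℕ) : (nd n (edge 1), (0 : ℝ)) ∈ R n (Ty.P (pidx n)) := by
  induction n with
  | zero =>
    refine ⟨1, by simp, ?_⟩
    simp [nd, hgt, pidx]
  | succ n ih =>
    refine Or.inr (mem_iUnion.2 ⟨true, (nd n (edge 1), (0 : ℝ)), ?_, rfl⟩)
    have : ch (Ty.P (pidx (n + 1))) true = Ty.P (pidx n) := by
      change Ty.P (pidx n - 1 + 1) = _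
      rw [sub_add_cancel]
    rw [this]
    exact ih

/-- The module statement. -/
theorem iota_proof : Stmt_Iota := by
  refine ⟨iot, continuous_iot, ?_, ?_, 0, iot_mem_Y (by simp), ?_⟩
  · intro r _ r' _ h
    have h1 := congrFun (congrFun (congrFun h 0) (Sum.inr (Ty.P 0))) []
    simpa [iot, br, nd, edge, pidx] using h1
  · intro r hr
    exact ⟨iot_mem_Y hr, iot_notMem_Y' r, iot_notMem_YT r⟩
  · intro n
    refine Or.inr (mem_iUnion.2 ⟨Ty.P (pidx n), (nd n (edge 1), (0 : ℝ)), nd_mem_R n, rfl⟩)

end Pool.Agent.TLC.Iota89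

end
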