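import Pool.Agent.TLC.Defs

/-!
# Basic facts: the bonding map, compactness and connectedness of the trees
-/

set_option autoImplicit false

noncomputable section

namespace Pool.Agent.TLC

open Set

@[simp] theorem edge_nil (r : ℝ) : edge r [] = r := rfl

@[simp] theorem edge_cons (r : ℝ) (b : Bool) (w : Wd) : edge r (b :: w) = 0 := rfl

theorem edge_zero : edge 0 = 0 := by
  funext w; by_cases h : w = [] <;> simp [edge, h]

@[simp] theorem node_nil (b : Bool) (u : HFun) : node b u [] = 1 := rfl

@[simp] theorem node_cons (b c : Bool) (u : HFun) (w : Wd) :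
    node b u (c :: w) = if c = b then u w else 0 := rfl

theorem node_zero (b : Bool) : node b 0 = edge 1 := by
  funext w
  cases w with
  | nil => rfl
  | cons c w => simp

theorem edge_injective : Function.Injective edge := fun r s h => by
  have := congrFun h []; simpa using this

theorem node_injective (b : Bool) : Function.Injective (node b) := fun u v h => by
  funext w
  have := congrFun h (b :: w); simpa using this

theorem continuous_edge : Continuous edge := by
  apply continuous_pi
  intro w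
  by_cases h : w = []
  · simp only [edge, h, if_true]; exact continuous_id
  · simp only [edge, h, if_false]; exact continuous_const

theorem continuous_node (b : Bool) : Continuous (node b) := by
  apply continuous_pi
  intro w
  cases w with
  | nil => exact continuous_const
  | cons c w =>
    by_cases h : c = b
    · simp only [node_cons, h, if_true]; exact continuous_apply w
    · simp only [node_cons, h, if_false]; exact continuous_const

@[simp] theorem br_self (a : Br) (u : HFun) : br a u a = u := by simp [br]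

theorem br_ne {a c : Br} (h : c ≠ a) (u : HFun) : br a u c = 0 := by simp [br, h]

@[simp] theorem br_zero (a : Br) : br a 0 = 0 := by
  funext c; by_cases h : c = a <;> simp [br, h]

theorem br_injective (a : Br) : Function.Injective (br a) := fun u v h => by
  have := congrFun h a; simpa using this

theorem continuous_br (a : Br) : Continuous (br a) := by
  apply continuous_pi
  intro c
  by_cases h : c = a
  · simp only [br, h, if_true]; exact continuous_id
  · simp only [br, h, if_false]; exact continuous_const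

@[simp] theorem legp_zero (i : Fin 3) : legp i 0 = 0 := by simp [legp, edge_zero]

theorem continuous_legp (i : Fin 3) : Continuous (legp i) := (continuous_br _).comp continuous_edge

theorem legp_injective (i : Fin 3) : Function.Injective (legp i) :=
  (br_injective _).comp edge_injective

@[simp] theorem tent_zero : tent 0 = 0 := by simp [tent]

@[simp] theorem tent_one : tent 1 = 0 := by norm_num [tent]

theorem tent_mem {r : ℝ} (h : r ∈ Icc (0 : ℝ) 1) : tent r ∈ Icc (0 : ℝ) 1 := by
  obtain ⟨h0, h1⟩ := h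
  constructor
  · have : |2 * r - 1| ≤ 1 := abs_le.2 ⟨by linarith, by linarith⟩
    unfold tent; linarith
  · have := abs_nonneg (2 * r - 1)
    unfold tent; linarith

theorem tent_half {r : ℝ} (h : r ∈ Icc (0 : ℝ) 1) : tent (r / 2) = r := by
  unfold tent
  rw [abs_of_nonpos (by linarith [h.2])]
  ring

theorem continuous_tent : Continuous tent := by unfold tent; fun_prop

/-! ### The bonding map -/

theorem kap_legp (i : Fin 3) (r : ℝ) : kap (legp i r) = legp i r := by
  funext c
  cases c with
  | inl j =>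
    funext w
    by_cases hw : w = []
    · subst hw
      simp [kap, legp, br]
    · cases w with
      | nil => exact absurd rfl hw
      | cons b w =>
        by_cases hj : j = i <;> simp [kap, legp, br, hj]
  | inr σ =>
    funext w
    simp [kap, legp, br]

theorem kap_edge (τ : Ty) (r : ℝ) :
    kap (br (Sum.inr τ) (edge r)) = legp (lg τ) (tent r) := by
  funext c
  cases c with
  | inl j =>
    funext w
    cases w with
    | nil =>
      simp only [kap, legp, br, if_true]
      rw [Finset.sum_eq_single τ]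
      · by_cases hj : j = lg τ
        · simp [hj]
        · simp [hj, Ne.symm hj]
      · intro σ _ hσ
        simp [hσ]
      · simp
    | cons b w =>
      by_cases hj : j = lg τ <;> simp [kap, legp, br, hj]
  | inr σ =>
    funext w
    have h1 : legp (lg τ) (tent r) (Sum.inr σ) w = 0 := by simp [legp, br]
    rw [h1]
    refine Finset.sum_eq_zero fun τ' _ => Finset.sum_eq_zero fun b _ => ?_
    by_cases h : (Sum.inr τ' : Br) = Sum.inr τ
    · simp [br, h]
    · simp [br, h]

theorem kap_node (τ : Ty) (b : Bool) (u : HFun) :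
    kap (br (Sum.inr τ) (node b u)) = br (Sum.inr (ch τ b)) u := by
  funext c
  cases c with
  | inl j =>
    funext w
    cases w with
    | nil =>
      have h1 : br (Sum.inr (ch τ b)) u (Sum.inl j) [] = 0 := by simp [br]
      have h2 : br (Sum.inr τ) (node b u) (Sum.inl j) [] = 0 := by simp [br]
      rw [h1]
      simp only [kap, if_true]
      rw [h2, zero_add]
      refine Finset.sum_eq_zero fun τ' _ => ?_
      by_cases h : (Sum.inr τ' : Br) = Sum.inr τ
      · simp [br, h]
      · simp [br, h]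
    | cons b w => simp [kap, br]
  | inr σ =>
    funext w
    simp only [kap, br]
    rw [Finset.sum_eq_single τ]
    · rw [Finset.sum_eq_single b]
      · by_cases h : ch τ b = σ
        · simp [h]
        · simp [h, Ne.symm h]
      · intro c _ hc
        simp [hc]
      · simp
    · intro τ' _ hτ
      simp [hτ]
    · simp

theorem kap_zero : kap 0 = 0 := by
  have := kap_legp 0 0
  simpa using this

theorem continuous_kap : Continuous kap := by
  apply continuous_pi
  intro c
  apply continuous_pi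
  intro w
  cases c with
  | inl i =>
    by_cases hw : w = []
    · simp only [kap, hw, if_true]
      apply Continuous.add (by fun_prop)
      apply continuous_finsetSum
      intro τ _
      by_cases h : lg τ = i
      · simp only [h, if_true]; exact continuous_tent.comp (by fun_prop)
      · simp only [h, if_false]; exact continuous_const
    · simp only [kap, hw, if_false]; exact continuous_const
  | inr σ =>
    simp only [kap]
    apply continuous_finsetSum
    intro τ _
    apply continuous_finsetSum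
    intro b _
    by_cases h : ch τ b = σ
    · simp only [h, if_true]; fun_prop
    · simp only [h, if_false]; exact continuous_const

/-! ### The trees -/

theorem mem_tree_edge (n : ℕ) {r : ℝ} (h : r ∈ Icc (0 : ℝ) 1) : edge r ∈ Tree n := by
  cases n with
  | zero => exact ⟨r, h, rfl⟩
  | succ n => exact Or.inl ⟨r, h, rfl⟩

theorem zero_mem_tree (n : ℕ) : (0 : HFun) ∈ Tree n := by
  rw [← edge_zero]; exact mem_tree_edge n ⟨le_rfl, zero_le_one⟩

theorem isCompact_tree (n : ℕ) : IsCompact (Tree n) := by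
  induction n with
  | zero => exact isCompact_Icc.image continuous_edge
  | succ n ih =>
    exact (isCompact_Icc.image continuous_edge).union
      (isCompact_iUnion fun b => ih.image (continuous_node b))

theorem isConnected_tree (n : ℕ) : IsConnected (Tree n) := by
  have h0 : IsConnected (edge '' Icc 0 1) :=
    (isConnected_Icc zero_le_one).image _ continuous_edge.continuousOn
  induction n with
  | zero => exact h0
  | succ n ih =>
    have h1 : ∀ b : Bool, IsConnected (edge '' Icc 0 1 ∪ node b '' Tree n) := fun b => by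
      have h2 : edge 1 ∈ node b '' Tree n := ⟨0, zero_mem_tree n, node_zero b⟩
      exact IsConnected.union ⟨edge 1, ⟨1, ⟨zero_le_one, le_rfl⟩, rfl⟩, h2⟩ h0
        (ih.image _ (continuous_node b).continuousOn)
    have h2 : Tree (n + 1) =
        (edge '' Icc 0 1 ∪ node false '' Tree n) ∪ (edge '' Icc 0 1 ∪ node true '' Tree n) := by
      ext x
      simp only [Tree, mem_union, mem_iUnion, Bool.exists_bool]
      tauto
    rw [h2]
    exact (h1 false).union ⟨edge 1, Or.inl ⟨1, ⟨zero_le_one, le_rfl⟩, rfl⟩,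
      Or.inl ⟨1, ⟨zero_le_one, le_rfl⟩, rfl⟩⟩ (h1 true)

/-- Elements of `Tree n`: an edge point, or a node (only if `n` is positive). -/
theorem mem_tree_iff {n : ℕ} {u : HFun} : u ∈ Tree n ↔
    (∃ r ∈ Icc (0 : ℝ) 1, u = edge r) ∨ ∃ m, n = m + 1 ∧ ∃ b, ∃ v ∈ Tree m, u = node b v := by
  cases n with
  | zero =>
    simp only [Tree, mem_image]
    constructor
    · rintro ⟨r, hr, rfl⟩; exact Or.inl ⟨r, hr, rfl⟩
    · rintro (⟨r, hr, rfl⟩ | ⟨m, hm, _⟩)
      · exact ⟨r, hr, rfl⟩
      · omega
  | succ n =>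
    simp only [Tree, mem_union, mem_image, mem_iUnion]
    constructor
    · rintro (⟨r, hr, rfl⟩ | ⟨b, v, hv, rfl⟩)
      · exact Or.inl ⟨r, hr, rfl⟩
      · exact Or.inr ⟨n, rfl, b, v, hv, rfl⟩
    · rintro (⟨r, hr, rfl⟩ | ⟨m, hm, b, v, hv, rfl⟩)
      · exact Or.inl ⟨r, hr, rfl⟩
      · obtain rfl : n = m := by omega
        exact Or.inr ⟨b, v, hv, rfl⟩

theorem zero_mem_KT : (0 : Pt) ∈ KT :=
  mem_iUnion.2 ⟨0, 0, ⟨le_rfl, zero_le_one⟩, legp_zero 0⟩

theorem mem_KT {x : Pt} : x ∈ KT ↔ ∃ i, ∃ r ∈ Icc (0 : ℝ) 1, x = legp i r := by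
  simp only [KT, mem_iUnion, mem_image]
  constructor
  · rintro ⟨i, r, hr, rfl⟩; exact ⟨i, r, hr, rfl⟩
  · rintro ⟨i, r, hr, rfl⟩; exact ⟨i, r, hr, rfl⟩

theorem mem_K {n : ℕ} {x : Pt} : x ∈ K n ↔
    (∃ i, ∃ r ∈ Icc (0 : ℝ) 1, x = legp i r) ∨ ∃ τ, ∃ u ∈ Tree n, x = br (Sum.inr τ) u := by
  simp only [K, mem_union, mem_KT, mem_iUnion, mem_image]
  constructor
  · rintro (h | ⟨τ, u, hu, rfl⟩)
    · exact Or.inl h
    · exact Or.inr ⟨τ, u, hu, rfl⟩
  · rintro (h | ⟨τ, u, hu, rfl⟩)
    · exact Or.inl h
    · exact Or.inr ⟨τ, u, hu, rfl⟩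

theorem mem_K' {n : ℕ} {x : Pt} : x ∈ K' n ↔
    (∃ i, ∃ r ∈ Icc (0 : ℝ) 1, x = legp i r) ∨
      ∃ l, ∃ u ∈ Tree n, x = br (Sum.inr (Ty.M l)) u := by
  simp only [K', mem_union, mem_KT, mem_iUnion, mem_image]
  constructor
  · rintro (h | ⟨τ, u, hu, rfl⟩)
    · exact Or.inl h
    · exact Or.inr ⟨τ, u, hu, rfl⟩
  · rintro (h | ⟨τ, u, hu, rfl⟩)
    · exact Or.inl h
    · exact Or.inr ⟨τ, u, hu, rfl⟩

theorem K'_subset_K (n : ℕ) : K' n ⊆ K n := by
  intro x hx
  rw [mem_K'] at hx
  rw [mem_K]
  rcases hx with h | ⟨l, u, hu, rfl⟩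
  · exact Or.inl h
  · exact Or.inr ⟨_, u, hu, rfl⟩

theorem KT_subset_K' (n : ℕ) : KT ⊆ K' n := fun _ hx => Or.inl hx

theorem KT_subset_K (n : ℕ) : KT ⊆ K n := fun _ hx => Or.inl hx

theorem zero_mem_K (n : ℕ) : (0 : Pt) ∈ K n := KT_subset_K n zero_mem_KT

theorem zero_mem_K' (n : ℕ) : (0 : Pt) ∈ K' n := KT_subset_K' n zero_mem_KT

/-- A union of connected sets through one point. -/
theorem isConnected_iUnion_of_mem {Z : Type} [TopologicalSpace Z] {ι : Type} [Nonempty ι]
    {s : ι → Set Z} {z : Z} (hz : ∀ i, z ∈ s i) (hs : ∀ i, IsConnected (s i)) :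
    IsConnected (⋃ i, s i) := by
  refine ⟨⟨z, mem_iUnion.2 ⟨Classical.arbitrary ι, hz _⟩⟩, ?_⟩
  exact isPreconnected_iUnion ⟨z, mem_iInter.2 hz⟩ fun i => (hs i).isPreconnected

theorem isCompact_KT : IsCompact KT :=
  isCompact_iUnion fun i => isCompact_Icc.image (continuous_legp i)

theorem isConnected_KT : IsConnected KT :=
  isConnected_iUnion_of_mem (z := 0) (fun i => ⟨0, ⟨le_rfl, zero_le_one⟩, legp_zero i⟩)
    fun i => (isConnected_Icc zero_le_one).image _ (continuous_legp i).continuousOn

theorem isCompact_K (n : ℕ) : IsCompact (K n) :=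
  isCompact_KT.union (isCompact_iUnion fun _ => (isCompact_tree n).image (continuous_br _))

theorem isConnected_K (n : ℕ) : IsConnected (K n) := by
  have : Nonempty Ty := ⟨Ty.M 0⟩
  refine isConnected_KT.union ⟨0, zero_mem_KT, ?_⟩
    (isConnected_iUnion_of_mem (z := 0) (fun τ => ⟨0, zero_mem_tree n, br_zero _⟩) fun τ =>
      (isConnected_tree n).image _ (continuous_br _).continuousOn)
  exact mem_iUnion.2 ⟨Ty.M 0, 0, zero_mem_tree n, br_zero _⟩

theorem isCompact_K' (n : ℕ) : IsCompact (K' n) :=
  isCompact_KT.union (isCompact_iUnion fun _ => (isCompact_tree n).image (continuous_br _))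

theorem isConnected_K' (n : ℕ) : IsConnected (K' n) := by
  refine isConnected_KT.union ⟨0, zero_mem_KT, ?_⟩
    (isConnected_iUnion_of_mem (z := 0) (fun τ => ⟨0, zero_mem_tree n, br_zero _⟩) fun τ =>
      (isConnected_tree n).image _ (continuous_br _).continuousOn)
  exact mem_iUnion.2 ⟨0, 0, zero_mem_tree n, br_zero _⟩

theorem kap_mem_K {n : ℕ} {x : Pt} (hx : x ∈ K (n + 1)) : kap x ∈ K n := by
  rw [mem_K] at hx
  rcases hx with ⟨i, r, hr, rfl⟩ | ⟨τ, u, hu, rfl⟩
  · rw [kap_legp, mem_K]; exact Or.inl ⟨i, r, hr, rfl⟩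
  · rw [mem_tree_iff] at hu
    rcases hu with ⟨r, hr, rfl⟩ | ⟨m, hm, b, v, hv, rfl⟩
    · rw [kap_edge, mem_K]; exact Or.inl ⟨_, _, tent_mem hr, rfl⟩
    · obtain rfl : n = m := by omega
      rw [kap_node, mem_K]; exact Or.inr ⟨_, v, hv, rfl⟩

theorem kap_mem_K' {n : ℕ} {x : Pt} (hx : x ∈ K' (n + 1)) : kap x ∈ K' n := by
  rw [mem_K'] at hx
  rcases hx with ⟨i, r, hr, rfl⟩ | ⟨l, u, hu, rfl⟩
  · rw [kap_legp, mem_K']; exact Or.inl ⟨i, r, hr, rfl⟩
  · rw [mem_tree_iff] at hu
    rcases hu with ⟨r, hr, rfl⟩ | ⟨m, hm, b, v, hv, rfl⟩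
    · rw [kap_edge, mem_K']; exact Or.inl ⟨_, _, tent_mem hr, rfl⟩
    · obtain rfl : n = m := by omega
      rw [kap_node, mem_K']
      refine Or.inr ?_
      cases b
      · exact ⟨l + 1, v, hv, rfl⟩
      · exact ⟨l + 2, v, hv, rfl⟩

theorem kap_mem_KT {x : Pt} (hx : x ∈ KT) : kap x = x := by
  rw [mem_KT] at hx
  obtain ⟨i, r, hr, rfl⟩ := hx
  exact kap_legp i r

/-! ### The types -/

theorem lg_ch_ne (τ : Ty) (b : Bool) : lg (ch τ b) ≠ lg τ := by
  revert τ b; decide

theorem lg_not_mem_st (τ : Ty) : lg τ ∉ st τ := by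
  cases τ with
  | M l => fin_cases l <;> simp [lg, st]
  | P i => fin_cases i <;> simp [lg, st]

theorem ch_eq_P {τ : Ty} {b : Bool} {i : Fin 3} (h : ch τ b = Ty.P i) :
    τ = Ty.P (i + 2) ∧ b = true := by
  revert τ b i; decide

/-! ### Threads -/

theorem lim_mem_Y' (i : Fin 3) {r : ℝ} (hr : r ∈ Icc (0 : ℝ) 1) : lim i r ∈ Y' :=
  fun _ => ⟨KT_subset_K' _ (mem_KT.2 ⟨i, r, hr, rfl⟩), kap_legp i r⟩

theorem Y'_subset_Y : Y' ⊆ Y := fun _ hy n => ⟨K'_subset_K n (hy n).1, (hy n).2⟩

theorem YT_subset_Y' : YT ⊆ Y' := by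
  intro y hy
  simp only [YT, mem_iUnion, mem_image] at hy
  obtain ⟨i, r, hr, rfl⟩ := hy
  exact lim_mem_Y' i hr

theorem YT_subset_Y : YT ⊆ Y := YT_subset_Y'.trans Y'_subset_Y

theorem mem_YT {y : Sq} : y ∈ YT ↔ ∃ i, ∃ r ∈ Icc (0 : ℝ) 1, y = lim i r := by
  simp only [YT, mem_iUnion, mem_image]
  constructor
  · rintro ⟨i, r, hr, rfl⟩; exact ⟨i, r, hr, rfl⟩
  · rintro ⟨i, r, hr, rfl⟩; exact ⟨i, r, hr, rfl⟩

@[simp] theorem lim_zero (i : Fin 3) : lim i 0 = ctr := by
  funext n; simp [lim, ctr]

theorem ctr_mem_YT : ctr ∈ YT := mem_YT.2 ⟨0, 0, ⟨le_rfl, zero_le_one⟩, (lim_zero 0).symm⟩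

theorem continuous_lim (i : Fin 3) : Continuous (lim i) :=
  continuous_pi fun _ => continuous_legp i

theorem lim_injective (i : Fin 3) : Function.Injective (lim i) := fun _ _ h =>
  legp_injective i (congrFun h 0)

/-- A thread whose points all lie on the triod is a point of the triod. -/
theorem mem_YT_of_forall {y : Sq} (hy : y ∈ Y) (h : ∀ n, y n ∈ KT) : y ∈ YT := by
  have h1 : ∀ n, y n = y 0 := by
    intro n
    induction n with
    | zero => rfl
    | succ n ih => rw [← ih, ← (hy n).2, kap_mem_KT (h (n + 1))]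
  obtain ⟨i, r, hr, h2⟩ := mem_KT.1 (h 0)
  exact mem_YT.2 ⟨i, r, hr, funext fun n => by rw [h1 n, h2]; rfl⟩

theorem isCompact_YT : IsCompact YT :=
  isCompact_iUnion fun i => isCompact_Icc.image (continuous_lim i)

theorem isConnected_YT : IsConnected YT :=
  isConnected_iUnion_of_mem (z := ctr) (fun i => ⟨0, ⟨le_rfl, zero_le_one⟩, lim_zero i⟩)
    fun i => (isConnected_Icc zero_le_one).image _ (continuous_lim i).continuousOn

/-- The bonding map of a thread, several steps. -/
theorem kap_iter {y : Sq} (hy : y ∈ Y) (n m : ℕ) : kap^[m] (y (n + m)) = y n := by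
  induction m with
  | zero => rfl
  | succ m ih => rw [Function.iterate_succ_apply, ← add_assoc, (hy (n + m)).2, ih]

theorem continuous_ht (j : Fin 4) : Continuous (ht j) := by
  have h : ∀ i, Continuous (lc i) := fun i => by unfold lc; fun_prop
  have h0 := h 0
  have h1 := h 1
  have h2 := h 2
  match j with
  | 0 => exact h0.div_const 2
  | 1 => exact (continuous_const.sub (h0.div_const 2)).add (h1.div_const 2)
  | 2 => exact (continuous_const.sub (h1.div_const 2)).add (h2.div_const 2)
  | 3 => exact continuous_const.sub (h2.div_const 2)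

theorem continuous_sec (j : Fin 4) : Continuous (sec j) := continuous_id.prodMk (continuous_ht j)

@[simp] theorem sec_fst (j : Fin 4) (y : Sq) : (sec j y).1 = y := rfl

theorem lc_lim (i k : Fin 3) (r : ℝ) : lc k (lim i r) = if k = i then r else 0 := by
  by_cases h : k = i <;> simp [lc, lim, legp, br, h]

end Pool.Agent.TLC

end
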