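import Pool.Agent.TLC.Stmts
import Pool.Agent.TLC.Basic
import Pool.Agent.TLC.Inv

/-! LCON: the continuum `L`. -/

set_option autoImplicit false

namespace Pool.Agent.TLC

open Set

theorem continuous_seg (s : ℝ) : Continuous (fun r : ℝ => (edge r, s)) :=
  continuous_edge.prodMk continuous_const

theorem continuous_nodeP (b : Bool) : Continuous (fun p : HFun × ℝ => (node b p.1, p.2)) :=
  ((continuous_node b).comp continuous_fst).prodMk continuous_snd

theorem continuous_brP (a : Br) : Continuous (fun p : HFun × ℝ => (br a p.1, p.2)) :=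
  ((continuous_br a).comp continuous_fst).prodMk continuous_snd

theorem continuous_R0a (a b : ℝ) : Continuous (fun r : ℝ => (edge r, a + b * r / 2)) :=
  continuous_edge.prodMk (by fun_prop)

theorem continuous_R0b (a b : ℝ) : Continuous (fun r : ℝ => (edge r, a - b * r / 2)) :=
  continuous_edge.prodMk (by fun_prop)

theorem isCompact_R : ∀ (n : ℕ) (τ : Ty), IsCompact (R n τ)
  | 0, Ty.M _ => (isCompact_Icc.image (continuous_R0a _ _)).union
      (isCompact_Icc.image (continuous_R0b _ _))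
  | 0, Ty.P _ => isCompact_Icc.image (continuous_seg _)
  | n + 1, τ => ((toFinite (st τ)).isCompact_biUnion
      (fun s _ => isCompact_Icc.image (continuous_seg (hgt s)))).union
      (isCompact_iUnion fun b => (isCompact_R n (ch τ b)).image (continuous_nodeP b))

theorem zero_mem_R : ∀ (n : ℕ) (τ : Ty), ∀ s ∈ st τ, ((0 : HFun), hgt s) ∈ R n τ
  | 0, Ty.M l, s, hs => by
      rcases hs with rfl | hs
      · exact Or.inl ⟨0, ⟨le_rfl, zero_le_one⟩, by simp [edge_zero]⟩
      · rw [mem_singleton_iff] at hs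
        subst hs
        exact Or.inr ⟨0, ⟨le_rfl, zero_le_one⟩, by simp [edge_zero]⟩
  | 0, Ty.P i, s, hs => by
      have hs' : s = i := hs
      subst hs'
      exact ⟨0, ⟨le_rfl, zero_le_one⟩, by simp [edge_zero]⟩
  | n + 1, τ, s, hs => Or.inl (mem_biUnion hs ⟨0, ⟨le_rfl, zero_le_one⟩, by simp [edge_zero]⟩)

theorem isConnected_seg (s : ℝ) : IsConnected ((fun r : ℝ => (edge r, s)) '' Icc 0 1) :=
  (isConnected_Icc zero_le_one).image _ (continuous_seg s).continuousOn

theorem one_mem_seg (s : ℝ) : (edge 1, s) ∈ ((fun r : ℝ => (edge r, s)) '' Icc 0 1) :=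
  ⟨1, ⟨zero_le_one, le_rfl⟩, rfl⟩

theorem one_mem_node (n : ℕ) (τ : Ty) (b : Bool) (s : Fin 3) (hs : s ∈ st (ch τ b)) :
    (edge 1, hgt s) ∈ (fun p : HFun × ℝ => (node b p.1, p.2)) '' R n (ch τ b) :=
  ⟨(0, hgt s), zero_mem_R n _ s hs, by simp [node_zero]⟩

theorem m1 (l : Fin 3) : l + 2 ∈ st (ch (Ty.M l) false) := by
  simp only [ch, st, mem_insert_iff, mem_singleton_iff]; revert l; decide

theorem m2 (l : Fin 3) : l + 1 ∈ st (ch (Ty.M l) true) := by
  simp only [ch, st, mem_insert_iff, mem_singleton_iff]; revert l; decide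

theorem m3 (l : Fin 3) (b : Bool) : l ∈ st (ch (Ty.M l) b) := by
  cases b
  · simp only [ch, st, mem_insert_iff, mem_singleton_iff]; revert l; decide
  · simp only [ch, st, mem_insert_iff, mem_singleton_iff]; revert l; decide

theorem m4 (i : Fin 3) : i ∈ st (ch (Ty.P i) false) := by
  simp only [ch, st, mem_insert_iff, mem_singleton_iff]; revert i; decide

theorem m5 (i : Fin 3) (b : Bool) : i + 1 ∈ st (ch (Ty.P i) b) := by
  cases b
  · simp only [ch, st, mem_insert_iff, mem_singleton_iff]; revert i; decide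
  · simp only [ch, st, mem_singleton_iff]

theorem succ_ne' (i : Fin 3) : i + 1 ≠ i := by revert i; decide

theorem R_succ (n : ℕ) (τ : Ty) : R (n + 1) τ =
    (⋃ s ∈ st τ, (fun r : ℝ => (edge r, hgt s)) '' Icc 0 1) ∪
      ⋃ b : Bool, (fun p : HFun × ℝ => (node b p.1, p.2)) '' R n (ch τ b) := rfl

theorem mem_R_succ (n : ℕ) (τ : Ty) (x : HFun × ℝ) : x ∈ R (n + 1) τ ↔
    (∃ s ∈ st τ, x ∈ (fun r : ℝ => (edge r, hgt s)) '' Icc 0 1) ∨
      (x ∈ (fun p : HFun × ℝ => (node false p.1, p.2)) '' R n (ch τ false) ∨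
        x ∈ (fun p : HFun × ℝ => (node true p.1, p.2)) '' R n (ch τ true)) := by
  rw [R_succ, mem_union, mem_iUnion₂, mem_iUnion, Bool.exists_bool]
  simp only [exists_prop]

theorem isConnected_R : ∀ (n : ℕ) (τ : Ty), IsConnected (R n τ)
  | 0, Ty.M l => by
      refine IsConnected.union (s := (fun r : ℝ => (edge r, hgt (l + 1) + (hgt (l + 2) - hgt (l + 1)) * r / 2)) '' Icc 0 1)
        (t := (fun r : ℝ => (edge r, hgt (l + 2) - (hgt (l + 2) - hgt (l + 1)) * r / 2)) '' Icc 0 1)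
        ⟨(edge 1, (hgt (l + 1) + hgt (l + 2)) / 2), ?_, ?_⟩ ?_ ?_
      · refine ⟨1, ⟨zero_le_one, le_rfl⟩, ?_⟩
        simp only [Prod.mk.injEq, true_and]; ring
      · refine ⟨1, ⟨zero_le_one, le_rfl⟩, ?_⟩
        simp only [Prod.mk.injEq, true_and]; ring
      · exact (isConnected_Icc zero_le_one).image _ (continuous_R0a _ _).continuousOn
      · exact (isConnected_Icc zero_le_one).image _ (continuous_R0b _ _).continuousOn
  | 0, Ty.P i => isConnected_seg _
  | n + 1, Ty.M l => by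
      have hc : ∀ b, IsConnected ((fun p : HFun × ℝ => (node b p.1, p.2)) '' R n (ch (Ty.M l) b)) :=
        fun b => (isConnected_R n _).image _ (continuous_nodeP b).continuousOn
      have h1 := IsConnected.union ⟨(edge 1, hgt (l + 2)), one_mem_seg (hgt (l + 2)),
        one_mem_node n (Ty.M l) false (l + 2) (m1 l)⟩
        (isConnected_seg (hgt (l + 2))) (hc false)
      have h2 := IsConnected.union ⟨(edge 1, hgt (l + 1)), one_mem_seg (hgt (l + 1)),
        one_mem_node n (Ty.M l) true (l + 1) (m2 l)⟩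
        (isConnected_seg (hgt (l + 1))) (hc true)
      have h3 := IsConnected.union ⟨(edge 1, hgt l),
        Or.inr (one_mem_node n (Ty.M l) false l (m3 l _)),
        Or.inr (one_mem_node n (Ty.M l) true l (m3 l _))⟩ h1 h2
      convert h3 using 1
      ext x
      rw [mem_R_succ]
      simp only [mem_union]
      constructor
      · rintro (⟨s, hs, hx⟩ | hx | hx)
        · rcases hs with hs | hs
          · subst hs
            exact Or.inr (Or.inl hx)
          · rw [mem_singleton_iff] at hs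
            subst hs
            exact Or.inl (Or.inl hx)
        · exact Or.inl (Or.inr hx)
        · exact Or.inr (Or.inr hx)
      · rintro ((hx | hx) | (hx | hx))
        · exact Or.inl ⟨_, Or.inr rfl, hx⟩
        · exact Or.inr (Or.inl hx)
        · exact Or.inl ⟨_, Or.inl rfl, hx⟩
        · exact Or.inr (Or.inr hx)
  | n + 1, Ty.P i => by
      have hc : ∀ b, IsConnected ((fun p : HFun × ℝ => (node b p.1, p.2)) '' R n (ch (Ty.P i) b)) :=
        fun b => (isConnected_R n _).image _ (continuous_nodeP b).continuousOn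
      have h1 := IsConnected.union ⟨(edge 1, hgt i), one_mem_seg (hgt i),
        one_mem_node n (Ty.P i) false i (m4 i)⟩
        (isConnected_seg (hgt i)) (hc false)
      have h3 := IsConnected.union ⟨(edge 1, hgt (i + 1)),
        Or.inr (one_mem_node n (Ty.P i) false (i + 1) (m5 i _)),
        one_mem_node n (Ty.P i) true (i + 1) (m5 i _)⟩ h1 (hc true)
      convert h3 using 1
      ext x
      rw [mem_R_succ]
      simp only [mem_union]
      constructor
      · rintro (⟨s, hs, hx⟩ | hx | hx)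
        · have hs' : s = i := hs
          subst hs'
          exact Or.inl (Or.inl hx)
        · exact Or.inl (Or.inr hx)
        · exact Or.inr hx
      · rintro ((hx | hx) | hx)
        · exact Or.inl ⟨_, rfl, hx⟩
        · exact Or.inr (Or.inl hx)
        · exact Or.inr (Or.inr hx)

/-- the pieces of `LL n` -/
def GG (n : ℕ) : Fin 3 ⊕ Ty → Set (Pt × ℝ)
  | Sum.inl i => ⋃ k ∈ ({i}ᶜ : Set (Fin 3)), (fun r : ℝ => (legp k r, hgt i)) '' Icc 0 1
  | Sum.inr τ => (fun p : HFun × ℝ => (br (Sum.inr τ) p.1, p.2)) '' R n τ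

theorem LL_eq (n : ℕ) : LL n = ⋃ j, GG n j := by
  rw [iUnion_sum]
  rfl

theorem continuous_legs (k : Fin 3) (s : ℝ) : Continuous (fun r : ℝ => (legp k r, s)) :=
  (continuous_legp k).prodMk continuous_const

theorem isCompact_GG (n : ℕ) (j : Fin 3 ⊕ Ty) : IsCompact (GG n j) := by
  cases j with
  | inl i =>
    exact (toFinite _).isCompact_biUnion fun k _ => isCompact_Icc.image (continuous_legs k _)
  | inr τ => exact (isCompact_R n τ).image (continuous_brP _)

theorem zero_mem_GG_inl (n : ℕ) (i : Fin 3) : ((0 : Pt), hgt i) ∈ GG n (Sum.inl i) := by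
  refine mem_biUnion (x := i + 1) ?_ ⟨0, ⟨le_rfl, zero_le_one⟩, by simp⟩
  show ¬ (i + 1 = i)
  revert i; decide

theorem zero_mem_GG_inr (n : ℕ) (τ : Ty) (s : Fin 3) (hs : s ∈ st τ) :
    ((0 : Pt), hgt s) ∈ GG n (Sum.inr τ) :=
  ⟨(0, hgt s), zero_mem_R n τ s hs, by simp⟩

theorem isConnected_GG (n : ℕ) (j : Fin 3 ⊕ Ty) : IsConnected (GG n j) := by
  cases j with
  | inl i =>
    have : Nonempty {k : Fin 3 // k ∈ ({i}ᶜ : Set (Fin 3))} := ⟨⟨i + 1, by
      show ¬ (i + 1 = i); revert i; decide⟩⟩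
    have h := isConnected_iUnion_of_mem (z := ((0 : Pt), hgt i))
      (s := fun k : {k : Fin 3 // k ∈ ({i}ᶜ : Set (Fin 3))} =>
        (fun r : ℝ => (legp k r, hgt i)) '' Icc 0 1)
      (fun k => ⟨0, ⟨le_rfl, zero_le_one⟩, by simp⟩)
      (fun k => (isConnected_Icc zero_le_one).image _ (continuous_legs _ _).continuousOn)
    convert h using 1
    show (⋃ k ∈ ({i}ᶜ : Set (Fin 3)), (fun r : ℝ => (legp k r, hgt i)) '' Icc 0 1) = _
    rw [biUnion_eq_iUnion]
  | inr τ => exact (isConnected_R n τ).image _ (continuous_brP _).continuousOn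

theorem isCompact_LL (n : ℕ) : IsCompact (LL n) := by
  rw [LL_eq]
  exact isCompact_iUnion (isCompact_GG n)

theorem isConnected_LL (n : ℕ) : IsConnected (LL n) := by
  rw [LL_eq]
  apply IsConnected.iUnion_of_reflTransGen (isConnected_GG n)
  have hio : ∀ τ : Ty, ∀ s ∈ st τ, (GG n (Sum.inr τ) ∩ GG n (Sum.inl s)).Nonempty :=
    fun τ s hs => ⟨_, zero_mem_GG_inr n τ s hs, zero_mem_GG_inl n s⟩
  have hoi : ∀ τ : Ty, ∀ s ∈ st τ, (GG n (Sum.inl s) ∩ GG n (Sum.inr τ)).Nonempty :=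
    fun τ s hs => ⟨_, zero_mem_GG_inl n s, zero_mem_GG_inr n τ s hs⟩
  have hij : ∀ i j : Fin 3, i = j ∨ ∃ l : Fin 3, i ∈ st (Ty.M l) ∧ j ∈ st (Ty.M l) := by
    intro i j
    simp only [st, mem_insert_iff, mem_singleton_iff]
    revert i j
    decide
  have hss : ∀ i j : Fin 3, Relation.ReflTransGen
      (fun i j : Fin 3 ⊕ Ty => (GG n i ∩ GG n j).Nonempty) (Sum.inl i) (Sum.inl j) := by
    intro i j
    rcases hij i j with rfl | ⟨l, h1, h2⟩
    · exact Relation.ReflTransGen.refl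
    · exact (Relation.ReflTransGen.single (hoi _ _ h1)).tail (hio _ _ h2)
  have hst : ∀ τ : Ty, ∃ s, s ∈ st τ := by
    intro τ
    cases τ with
    | M l => exact ⟨l + 1, Or.inl rfl⟩
    | P i => exact ⟨i, rfl⟩
  intro i j
  cases i with
  | inl i =>
    cases j with
    | inl j => exact hss i j
    | inr τ =>
      obtain ⟨s, hs⟩ := hst τ
      exact (hss i s).tail (hoi _ _ hs)
  | inr τ =>
    obtain ⟨s, hs⟩ := hst τ
    cases j with
    | inl j => exact Relation.ReflTransGen.head (hio _ _ hs) (hss s j)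
    | inr τ' =>
      obtain ⟨s', hs'⟩ := hst τ'
      exact Relation.ReflTransGen.head (hio _ _ hs) ((hss s s').tail (hoi _ _ hs'))

theorem R_fst : ∀ (n : ℕ) (τ : Ty), ∀ p ∈ R n τ, p.1 ∈ Tree n
  | 0, Ty.M l, p, hp => by
      rcases hp with ⟨r, hr, rfl⟩ | ⟨r, hr, rfl⟩
      · exact ⟨r, hr, rfl⟩
      · exact ⟨r, hr, rfl⟩
  | 0, Ty.P i, p, hp => by
      obtain ⟨r, hr, rfl⟩ := hp
      exact ⟨r, hr, rfl⟩
  | n + 1, τ, p, hp => by
      rcases hp with hp | hp
      · simp only [mem_iUnion] at hp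
        obtain ⟨s, hs, r, hr, rfl⟩ := hp
        exact mem_tree_edge _ hr
      · simp only [mem_iUnion] at hp
        obtain ⟨b, q, hq, rfl⟩ := hp
        exact Or.inr (mem_iUnion.mpr ⟨b, q.1, R_fst n _ q hq, rfl⟩)

theorem mem_LL {n : ℕ} {p : Pt × ℝ} : p ∈ LL n ↔
    (∃ i k : Fin 3, k ≠ i ∧ ∃ r ∈ Icc (0 : ℝ) 1, p = (legp k r, hgt i)) ∨
    ∃ τ : Ty, ∃ u t, (u, t) ∈ R n τ ∧ p = (br (Sum.inr τ) u, t) := by
  unfold LL LT
  simp only [mem_union, mem_iUnion, mem_image, mem_compl_iff, mem_singleton_iff, exists_prop,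
    Prod.exists]
  constructor
  · rintro (⟨i, k, hk, r, hr, rfl⟩ | ⟨τ, u, t, h, rfl⟩)
    · exact Or.inl ⟨i, k, hk, r, hr, rfl⟩
    · exact Or.inr ⟨τ, u, t, h, rfl⟩
  · rintro (⟨i, k, hk, r, hr, rfl⟩ | ⟨τ, u, t, h, rfl⟩)
    · exact Or.inl ⟨i, k, hk, r, hr, rfl⟩
    · exact Or.inr ⟨τ, u, t, h, rfl⟩

theorem LL_fst {n : ℕ} {p : Pt × ℝ} (hp : p ∈ LL n) : p.1 ∈ K n := by
  rw [mem_LL] at hp
  rw [mem_K]
  rcases hp with ⟨i, k, hk, r, hr, rfl⟩ | ⟨τ, u, t, h, rfl⟩
  · exact Or.inl ⟨k, r, hr, rfl⟩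
  · exact Or.inr ⟨τ, u, R_fst n τ _ h, rfl⟩

theorem LL_maps (n : ℕ) :
    MapsTo (fun p : Pt × ℝ => (kap p.1, p.2)) (LL (n + 1)) (LL n) := by
  intro p hp
  rw [mem_LL] at hp
  rw [mem_LL]
  rcases hp with ⟨i, k, hk, r, hr, rfl⟩ | ⟨τ, u, t, h, rfl⟩
  · exact Or.inl ⟨i, k, hk, r, hr, by simp only [kap_legp]⟩
  · rcases h with h | h
    · simp only [mem_iUnion] at h
      obtain ⟨s, hs, r, hr, he⟩ := h
      simp only [Prod.mk.injEq] at he
      obtain ⟨rfl, rfl⟩ := he
      refine Or.inl ⟨s, lg τ, ?_, tent r, tent_mem hr, by simp only [kap_edge]⟩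
      rintro rfl
      exact lg_not_mem_st τ hs
    · simp only [mem_iUnion] at h
      obtain ⟨b, q, hq, he⟩ := h
      simp only [Prod.mk.injEq] at he
      obtain ⟨rfl, rfl⟩ := he
      exact Or.inr ⟨ch τ b, q.1, q.2, hq, by simp only [kap_node]⟩

theorem l_proof : Stmt_L := by
  have hφ : Continuous (fun p : Pt × ℝ => (kap p.1, p.2)) :=
    (continuous_kap.comp continuous_fst).prodMk continuous_snd
  have hinv := inv_proof (Pt × ℝ) inferInstance inferInstance (fun p : Pt × ℝ => (kap p.1, p.2))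
    LL hφ isCompact_LL isConnected_LL LL_maps
  let F : (ℕ → Pt × ℝ) → Sq × ℝ := fun z => (fun n => (z n).1, (z 0).2)
  have hF : Continuous F := by
    apply Continuous.prodMk
    · exact continuous_pi fun n => continuous_fst.comp (continuous_apply n)
    · exact continuous_snd.comp (continuous_apply 0)
  have hL : L = F '' {z : ℕ → Pt × ℝ | ∀ n, z n ∈ LL n ∧
      (fun p : Pt × ℝ => (kap p.1, p.2)) (z (n + 1)) = z n} := by
    ext p
    constructor
    · rintro ⟨h1, h2⟩
      refine ⟨fun n => (p.1 n, p.2), fun n => ⟨h2 n, ?_⟩, rfl⟩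
      show (kap (p.1 (n + 1)), p.2) = (p.1 n, p.2)
      rw [(h1 n).2]
    · rintro ⟨z, hz, rfl⟩
      have h0 : ∀ n, (z n).2 = (z 0).2 := by
        intro n
        induction n with
        | zero => rfl
        | succ n ih =>
          have := congrArg Prod.snd (hz n).2
          rw [← ih]
          exact this
      refine ⟨fun n => ⟨LL_fst (hz n).1, congrArg Prod.fst (hz n).2⟩, fun n => ?_⟩
      show ((z n).1, (z 0).2) ∈ LL n
      rw [← h0 n]
      exact (hz n).1
  unfold Stmt_L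
  rw [hL]
  exact ⟨hinv.1.image hF, hinv.2.image _ hF.continuousOn⟩

theorem zero_R0 (τ : Ty) (t : ℝ) (h : ((0 : HFun), t) ∈ R 0 τ) : ∃ s ∈ st τ, t = hgt s := by
  have he : ∀ r : ℝ, edge r = 0 → r = 0 := fun r hr => by
    have := congrFun hr []
    simpa using this
  cases τ with
  | M l =>
    rcases h with ⟨r, hr, h⟩ | ⟨r, hr, h⟩
    · simp only [Prod.mk.injEq] at h
      have := he r h.1
      subst this
      exact ⟨l + 1, Or.inl rfl, by rw [← h.2]; ring⟩
    · simp only [Prod.mk.injEq] at h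
      have := he r h.1
      subst this
      exact ⟨l + 2, Or.inr rfl, by rw [← h.2]; ring⟩
  | P i =>
    obtain ⟨r, hr, h⟩ := h
    simp only [Prod.mk.injEq] at h
    exact ⟨i, rfl, h.2.symm⟩

theorem lT_proof : Stmt_LT := by
  intro y hy t h
  rw [mem_YT] at hy
  obtain ⟨k, r, hr, rfl⟩ := hy
  have h0 := h.2 0
  rw [mem_LL] at h0
  rcases h0 with ⟨i, k', hk, r', hr', he⟩ | ⟨τ, u, t', hR, he⟩
  · simp only [Prod.mk.injEq] at he
    refine ⟨i, k', hk, he.2, r', hr', ?_⟩
    funext n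
    exact he.1
  · simp only [Prod.mk.injEq] at he
    obtain ⟨he1, rfl⟩ := he
    have hu : u = 0 := by
      have h1 := congrFun he1 (Sum.inr τ)
      rw [br_self] at h1
      rw [← h1]
      show legp k r (Sum.inr τ) = 0
      exact br_ne (by simp) _
    subst hu
    obtain ⟨s, hs, rfl⟩ := zero_R0 τ t hR
    refine ⟨s, s + 1, succ_ne' s, rfl, 0, ⟨le_rfl, zero_le_one⟩, ?_⟩
    rw [lim_zero]
    funext n
    show legp k r = 0
    have h2 : lim k r 0 = legp k r := rfl
    rw [← h2, he1, br_zero]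

end Pool.Agent.TLC
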