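import Pool.Agent.TLC.Defs

/-!
# Statements of the modules

`MP_53fb6e_gt`, tree-like class. Paper proof: `/team-store/MP_53fb6e_TREELIKE.md`.
-/

set_option autoImplicit false

noncomputable section

namespace Pool.Agent.TLC

open Set

/-! ### INV: general topology -/

/-- A decreasing intersection of compact connected sets is connected. -/
def Stmt_Inter : Prop := ∀ (Z : Type) (_ : TopologicalSpace Z) (_ : T2Space Z) (A : ℕ → Set Z),
  (∀ n, IsCompact (A n)) → (∀ n, IsConnected (A n)) → Antitone A → IsConnected (⋂ n, A n)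

/-- Inverse limits of compact connected sets are compact and connected. -/
def Stmt_Inv : Prop := ∀ (Z : Type) (_ : TopologicalSpace Z) (_ : T2Space Z) (φ : Z → Z)
  (A : ℕ → Set Z), Continuous φ → (∀ n, IsCompact (A n)) → (∀ n, IsConnected (A n)) →
  (∀ n, MapsTo φ (A (n + 1)) (A n)) →
  IsCompact {z : ℕ → Z | ∀ n, z n ∈ A n ∧ φ (z (n + 1)) = z n} ∧
  IsConnected {z : ℕ → Z | ∀ n, z n ∈ A n ∧ φ (z (n + 1)) = z n}

/-! ### TREE: finite trees -/

/-- Images of tree sets. -/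
def Stmt_TreeImage : Prop := ∀ (Z W : Type) (_ : TopologicalSpace Z) (_ : TopologicalSpace W)
  (g : Z → W) (A : Set Z), Continuous g → IsTreeSet A → InjOn g A → IsTreeSet (g '' A)

/-- The trees. -/
def Stmt_TreeSets : Prop := IsTreeSet KT ∧ ∀ n, IsTreeSet (K n) ∧ IsTreeSet (K' n)

/-- The projections of `X` are finite trees. -/
def Stmt_TreeX : Prop := ∀ n, IsTreeSet ((fun p : Sq × ℝ => (p.1 n, p.2)) '' X)

/-- `X` is tree-like in every metric inducing its topology. -/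
def Stmt_TreeLikeX : Prop := ∀ m : MetricSpace X,
  m.toUniformSpace.toTopologicalSpace = (inferInstance : TopologicalSpace X) →
  @TreeLike X m

/-! ### STAR: subcontinua of `Y` -/

/-- A subcontinuum through the centre outside of the triod contains two legs. -/
def Stmt_Star2 : Prop := ∀ Q : Set Sq, Q ⊆ Y → IsCompact Q → IsConnected Q → ctr ∈ Q → ¬ Q ⊆ YT →
  ∃ i j : Fin 3, i ≠ j ∧ lim i '' Icc 0 1 ⊆ Q ∧ lim j '' Icc 0 1 ⊆ Q

/-- A subcontinuum through the centre outside of `Y'` contains the triod. -/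
def Stmt_Star3 : Prop := ∀ Q : Set Sq, Q ⊆ Y → IsCompact Q → IsConnected Q → ctr ∈ Q → ¬ Q ⊆ Y' →
  YT ⊆ Q

/-- Subcontinua missing the centre. -/
def Stmt_SepT : Prop := ∀ Q : Set Sq, Q ⊆ Y → IsCompact Q → IsConnected Q → ctr ∉ Q →
  (Q ∩ YT).Nonempty → Q ⊆ YT

/-- Subcontinua missing the centre. -/
def Stmt_SepY' : Prop := ∀ Q : Set Sq, Q ⊆ Y → IsCompact Q → IsConnected Q → ctr ∉ Q →
  (Q ∩ Y').Nonempty → Q ⊆ Y'

/-- The traces of subcontinua through the centre. -/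
def Stmt_ConT : Prop := ∀ Q : Set Sq, Q ⊆ Y → IsCompact Q → IsConnected Q → ctr ∈ Q →
  IsConnected (Q ∩ YT)

/-- The traces of subcontinua through the centre. -/
def Stmt_ConY' : Prop := ∀ Q : Set Sq, Q ⊆ Y → IsCompact Q → IsConnected Q → ctr ∈ Q →
  IsConnected (Q ∩ Y')

/-! ### CONF: the first projection `X → Y` is confluent -/

/-- Confluence. -/
def Stmt_Conf : Prop := ∀ Q : Set Sq, Q ⊆ Y → IsCompact Q → IsConnected Q →
  ∀ p ∈ X, p.1 ∈ Q → ∃ C : Set (Sq × ℝ), C ⊆ X ∧ IsConnected C ∧ p ∈ C ∧ Prod.fst '' C = Q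

/-- `X` and `Y` are continua. -/
def Stmt_Cont : Prop := IsCompact Y ∧ IsConnected Y ∧ IsCompact X ∧ IsConnected X

/-! ### LCON: the continuum `L` -/

/-- `L` is a continuum. -/
def Stmt_L : Prop := IsCompact L ∧ IsConnected L

/-- `L` over the triod. -/
def Stmt_LT : Prop := ∀ y ∈ YT, ∀ t : ℝ, (y, t) ∈ L →
  ∃ i k : Fin 3, k ≠ i ∧ t = hgt i ∧ ∃ r ∈ Icc (0 : ℝ) 1, y = lim k r

/-- An arc in `Y` outside of `Y'`. -/
def Stmt_Iota : Prop := ∃ ι : ℝ → Sq, Continuous ι ∧ InjOn ι (Icc 0 1) ∧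
  (∀ r ∈ Icc (0 : ℝ) 1, ι r ∈ Y ∧ ι r ∉ Y' ∧ ι r ∉ YT) ∧ ∃ t, (ι 1, t) ∈ L

end Pool.Agent.TLC

end
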