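import Pool.Agent.TLC.Basic
import Pool.Agent.TLC.Stmts

/-!
# Subcontinua of `Y`: missing the centre, and traces on the triod and on `Y'`
-/

set_option autoImplicit false

noncomputable section

namespace Pool.Agent.TLC

open Set

/-! ### Branches -/

theorem K_ne_zero {n : ℕ} {x : Pt} (hx : x ∈ K n) (h0 : x ≠ 0) : ∃ a, x a ≠ 0 := by
  by_contra hcon
  push Not at hcon
  exact h0 (funext hcon)

theorem K_eq_br {n : ℕ} {x : Pt} (hx : x ∈ K n) : ∃ a u, x = br a u := by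
  rw [mem_K] at hx
  rcases hx with ⟨i, r, _, rfl⟩ | ⟨τ, u, _, rfl⟩
  · exact ⟨_, _, rfl⟩
  · exact ⟨_, _, rfl⟩

theorem K_branch {n : ℕ} {x : Pt} (hx : x ∈ K n) {a c : Br} (ha : x a ≠ 0) (hc : x c ≠ 0) :
    a = c := by
  obtain ⟨d, u, rfl⟩ := K_eq_br hx
  by_cases h1 : a = d
  · by_cases h2 : c = d
    · rw [h1, h2]
    · exact absurd (br_ne h2 u) hc
  · exact absurd (br_ne h1 u) ha

theorem K_leg {n : ℕ} {x : Pt} (hx : x ∈ K n) {i : Fin 3} (hi : x (Sum.inl i) ≠ 0) :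
    ∃ r ∈ Icc (0 : ℝ) 1, x = legp i r := by
  rw [mem_K] at hx
  rcases hx with ⟨j, r, hr, rfl⟩ | ⟨τ, u, _, rfl⟩
  · by_cases h : i = j
    · subst h; exact ⟨r, hr, rfl⟩
    · exact absurd (br_ne (by simpa using h) _) hi
  · exact absurd (br_ne (by simp) _) hi

theorem K_hair {n : ℕ} {x : Pt} (hx : x ∈ K n) {τ : Ty} (hi : x (Sum.inr τ) ≠ 0) :
    ∃ u ∈ Tree n, x = br (Sum.inr τ) u := by
  rw [mem_K] at hx
  rcases hx with ⟨j, r, hr, rfl⟩ | ⟨σ, u, hu, rfl⟩
  · exact absurd (br_ne (by simp) _) hi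
  · by_cases h : τ = σ
    · subst h; exact ⟨u, hu, rfl⟩
    · exact absurd (br_ne (by simpa using h) _) hi

/-- The branch of the points of a connected set missing `0` is constant. -/
theorem branch_const {Q : Set Sq} (hQ : IsPreconnected Q) {n : ℕ}
    (hK : ∀ q ∈ Q, q n ∈ K n ∧ q n ≠ 0) {q₀ : Sq} (hq₀ : q₀ ∈ Q) {a : Br} (ha : q₀ n a ≠ 0) :
    ∀ q ∈ Q, q n a ≠ 0 := by
  have hU : IsOpen {q : Sq | q n a ≠ 0} :=
    isOpen_ne.preimage ((continuous_apply a).comp (continuous_apply n))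
  have hV : IsOpen {q : Sq | ∃ c, c ≠ a ∧ q n c ≠ 0} := by
    have : {q : Sq | ∃ c, c ≠ a ∧ q n c ≠ 0} = ⋃ c ∈ ({a}ᶜ : Set Br), {q : Sq | q n c ≠ 0} := by
      ext q; simp
    rw [this]
    exact isOpen_biUnion fun c _ => isOpen_ne.preimage ((continuous_apply c).comp (continuous_apply n))
  have hsub : Q ⊆ {q : Sq | q n a ≠ 0} ∪ {q : Sq | ∃ c, c ≠ a ∧ q n c ≠ 0} := by
    intro q hq
    obtain ⟨c, hc⟩ := K_ne_zero (hK q hq).1 (hK q hq).2
    by_cases h : c = a
    · left; rw [← h]; exact hc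
    · right; exact ⟨c, h, hc⟩
  by_contra hcon
  push Not at hcon
  obtain ⟨q, hq, hqa⟩ := hcon
  have h2 : (Q ∩ {q : Sq | ∃ c, c ≠ a ∧ q n c ≠ 0}).Nonempty := by
    refine ⟨q, hq, ?_⟩
    rcases hsub hq with h | h
    · exact absurd hqa h
    · exact h
  obtain ⟨p, hp, hp1, c, hc, hp2⟩ := hQ _ _ hU hV hsub ⟨q₀, hq₀, ha⟩ h2
  exact hc (K_branch (hK p hp).1 hp2 hp1)

/-! ### Threads -/

theorem thread_agree {y z : Sq} (hy : ∀ n, kap (y (n + 1)) = y n)
    (hz : ∀ n, kap (z (n + 1)) = z n) {n : ℕ} (h : y n = z n) : ∀ k ≤ n, y k = z k := by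
  induction n with
  | zero => intro k hk; obtain rfl : k = 0 := by omega
            exact h
  | succ n ih =>
    intro k hk
    rcases Nat.lt_or_ge n k with h1 | h1
    · obtain rfl : k = n + 1 := by omega
      exact h
    · exact ih (by rw [← hy n, ← hz n, h]) k h1

/-- A thread all of whose (or infinitely many) coordinates are coordinates of points of a closed
set belongs to it. -/
theorem mem_of_frequently {Q : Set Sq} (hQY : Q ⊆ Y) (hQ : IsClosed Q) {z : Sq}
    (hz : ∀ n, kap (z (n + 1)) = z n) (h : ∀ N, ∃ n ≥ N, ∃ q ∈ Q, q n = z n) : z ∈ Q := by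
  choose n hn q hq hqz using h
  have h1 : Filter.Tendsto q Filter.atTop (nhds z) := by
    rw [tendsto_pi_nhds]
    intro k
    apply tendsto_const_nhds.congr'
    filter_upwards [Filter.eventually_ge_atTop k] with N hN
    exact (thread_agree (fun m => (hQY (hq N) m).2) hz (hqz N) k (le_trans hN (hn N))).symm
  exact hQ.mem_of_tendsto h1 (Filter.Eventually.of_forall hq)

theorem ctr_thread (n : ℕ) : kap (ctr (n + 1)) = ctr n := kap_zero

theorem exists_ne_zero {Q : Set Sq} (hQY : Q ⊆ Y) (hQ : IsClosed Q) (hc : ctr ∉ Q) :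
    ∃ N, ∀ n ≥ N, ∀ q ∈ Q, q n ≠ 0 := by
  by_contra hcon
  push Not at hcon
  exact hc (mem_of_frequently hQY hQ ctr_thread hcon)

theorem sepT_proof : Stmt_SepT := by
  intro Q hQY hQ hQc hc hne
  obtain ⟨N, hN⟩ := exists_ne_zero hQY hQ.isClosed hc
  obtain ⟨q₀, hq₀, hq₀T⟩ := hne
  obtain ⟨i, r, hr, rfl⟩ := mem_YT.1 hq₀T
  intro q hq
  have h1 : ∀ n ≥ N, q n ∈ KT := by
    intro n hn
    have h2 : lim i r n (Sum.inl i) ≠ 0 := by
      intro h3
      apply hN n hn _ hq₀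
      have : edge r = 0 := by simpa [lim, legp] using h3
      simp [lim, legp, this]
    obtain ⟨s, hs, h4⟩ := K_leg (hQY hq n).1 (branch_const hQc.isPreconnected
      (fun q hq => ⟨(hQY hq n).1, hN n hn q hq⟩) hq₀ h2 q hq)
    rw [h4]
    exact mem_KT.2 ⟨i, s, hs, rfl⟩
  refine mem_YT_of_forall (hQY hq) fun n => ?_
  have h5 : q n = q (n + N) := by
    induction N with
    | zero => rfl
    | succ M _ =>
      rw [← kap_iter (hQY hq) n (M + 1)]
      have h6 : ∀ m, kap^[m] (q (n + (M + 1))) = q (n + (M + 1)) := by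
        intro m
        induction m with
        | zero => rfl
        | succ m ih => rw [Function.iterate_succ_apply', ih, kap_mem_KT (h1 _ (by omega))]
      exact h6 _
  rw [h5]
  exact h1 _ (by omega)

theorem kap_iter_K' {n : ℕ} (m : ℕ) {x : Pt} (hx : x ∈ K' (n + m)) : kap^[m] x ∈ K' n := by
  induction m generalizing x with
  | zero => exact hx
  | succ m ih =>
    rw [Function.iterate_succ_apply]
    exact ih (kap_mem_K' hx)

theorem sepY'_proof : Stmt_SepY' := by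
  intro Q hQY hQ hQc hc hne
  obtain ⟨N, hN⟩ := exists_ne_zero hQY hQ.isClosed hc
  obtain ⟨q₀, hq₀, hq₀Y⟩ := hne
  intro q hq
  have h1 : ∀ n ≥ N, q n ∈ K' n := by
    intro n hn
    have h2 := (hq₀Y n).1
    obtain ⟨a, ha⟩ := K_ne_zero (K'_subset_K n h2) (hN n hn _ hq₀)
    have h3 := branch_const hQc.isPreconnected
      (fun q hq => ⟨(hQY hq n).1, hN n hn q hq⟩) hq₀ ha q hq
    rw [mem_K'] at h2
    rcases h2 with ⟨i, r, hr, h4⟩ | ⟨l, u, hu, h4⟩
    · have h5 : a = Sum.inl i := by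
        by_contra h6
        exact ha (by rw [h4]; exact br_ne h6 _)
      subst h5
      obtain ⟨s, hs, h6⟩ := K_leg (hQY hq n).1 h3
      rw [h6]
      exact mem_K'.2 (Or.inl ⟨i, s, hs, rfl⟩)
    · have h5 : a = Sum.inr (Ty.M l) := by
        by_contra h6
        exact ha (by rw [h4]; exact br_ne h6 _)
      subst h5
      obtain ⟨s, hs, h6⟩ := K_hair (hQY hq n).1 h3
      rw [h6]
      exact mem_K'.2 (Or.inr ⟨l, s, hs, rfl⟩)
  intro n
  refine ⟨?_, (hQY hq n).2⟩
  rw [← kap_iter (hQY hq) n N]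
  exact kap_iter_K' N (h1 _ (by omega))

/-! ### Traces -/

/-- Kill the branches outside of `S`. -/
def kill (S : Set Br) [DecidablePred (· ∈ S)] (x : Pt) : Pt := fun a => if a ∈ S then x a else 0

theorem continuous_kill (S : Set Br) [DecidablePred (· ∈ S)] : Continuous (kill S) := by
  apply continuous_pi
  intro a
  by_cases h : a ∈ S
  · simp only [kill, h, if_true]; fun_prop
  · simp only [kill, h, if_false]; exact continuous_const

theorem kill_br_mem {S : Set Br} [DecidablePred (· ∈ S)] {a : Br} (h : a ∈ S) (u : HFun) :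
    kill S (br a u) = br a u := by
  funext c
  by_cases hc : c ∈ S
  · simp [kill, hc]
  · have : c ≠ a := fun h' => hc (h' ▸ h)
    simp [kill, hc, br_ne this]

theorem kill_br_not_mem {S : Set Br} [DecidablePred (· ∈ S)] {a : Br} (h : a ∉ S) (u : HFun) :
    kill S (br a u) = 0 := by
  funext c
  by_cases hc : c ∈ S
  · have : c ≠ a := fun h' => h (h' ▸ hc)
    simp [kill, hc, br_ne this]
  · simp [kill, hc]

theorem con_aux (hInv : Stmt_Inv) (S : Set Br) [DecidablePred (· ∈ S)] (D : ℕ → Set Pt)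
    (hD : ∀ n, D n ⊆ K n) (hDS : ∀ n, ∀ x ∈ K n, ∀ a u, x = br a u → (a ∈ S → x ∈ D n))
    (hDk : ∀ n, ∀ x ∈ D n, kill S x = x) (hD0 : ∀ n, (0 : Pt) ∈ D n)
    (hkap : ∀ n, MapsTo kap (D (n + 1)) (D n))
    {Q : Set Sq} (hQY : Q ⊆ Y) (hQ : IsCompact Q) (hQc : IsConnected Q) (hc : ctr ∈ Q) :
    IsConnected (Q ∩ {y | ∀ n, y n ∈ D n}) := by
  set A : ℕ → Set Pt := fun n => kill S '' ((fun q : Sq => q n) '' Q) with hA
  have hmem : ∀ n x, x ∈ A n ↔ (∃ q ∈ Q, q n = x) ∧ x ∈ D n := by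
    intro n x
    constructor
    · rintro ⟨_, ⟨q, hq, rfl⟩, rfl⟩
      obtain ⟨a, u, h1⟩ := K_eq_br (hQY hq n).1
      by_cases ha : a ∈ S
      · have h2 := hDS n _ (hQY hq n).1 a u h1 ha
        simp only
        rw [hDk n _ h2]
        exact ⟨⟨q, hq, rfl⟩, h2⟩
      · simp only
        rw [h1, kill_br_not_mem ha]
        exact ⟨⟨ctr, hc, rfl⟩, hD0 n⟩
    · rintro ⟨⟨q, hq, rfl⟩, h⟩
      exact ⟨_, ⟨q, hq, rfl⟩, hDk n _ h⟩
  have h1 := hInv Pt inferInstance inferInstance kap A continuous_kap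
    (fun n => (hQ.image (continuous_apply n)).image (continuous_kill S))
    (fun n => (hQc.image _ (continuous_apply n).continuousOn).image _
      (continuous_kill S).continuousOn)
    (by
      intro n x hx
      rw [hmem] at hx ⊢
      obtain ⟨⟨q, hq, rfl⟩, h⟩ := hx
      exact ⟨⟨q, hq, ((hQY hq) n).2.symm⟩, hkap n h⟩)
  have h2 : {z : Sq | ∀ n, z n ∈ A n ∧ kap (z (n + 1)) = z n} = Q ∩ {y | ∀ n, y n ∈ D n} := by
    ext z
    constructor
    · intro hz
      refine ⟨mem_of_frequently hQY hQ.isClosed (fun n => (hz n).2) fun N =>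
        ⟨N, le_rfl, ((hmem N _).1 (hz N).1).1⟩, fun n => ((hmem n _).1 (hz n).1).2⟩
    · rintro ⟨hz, hzD⟩ n
      exact ⟨(hmem n _).2 ⟨⟨z, hz, rfl⟩, hzD n⟩, (hQY hz n).2⟩
  rw [← h2]
  exact h1.2

open Classical in
theorem conT_proof (hInv : Stmt_Inv) : Stmt_ConT := by
  intro Q hQY hQ hQc hc
  have h := con_aux hInv (range Sum.inl) (fun _ => KT) KT_subset_K (by
      rintro n x hx a u rfl ⟨i, rfl⟩
      rw [mem_K] at hx
      rcases hx with ⟨j, r, hr, h⟩ | ⟨τ, u', _, h⟩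
      · rw [h]; exact mem_KT.2 ⟨j, r, hr, rfl⟩
      · have h0 : u = 0 := by
          have := congrFun h (Sum.inl i)
          rw [br_self, br_ne (by simp)] at this
          exact this
        rw [h0, br_zero]; exact zero_mem_KT)
    (by
      intro n x hx
      obtain ⟨i, r, _, rfl⟩ := mem_KT.1 hx
      exact kill_br_mem (S := range Sum.inl) (mem_range_self i) _) (fun _ => zero_mem_KT)
    (fun n x hx => by rw [kap_mem_KT hx]; exact hx) hQY hQ hQc hc
  have h2 : Q ∩ YT = Q ∩ {y | ∀ _n : ℕ, y _n ∈ KT} := by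
    ext y
    constructor
    · rintro ⟨hy, hyT⟩
      refine ⟨hy, fun n => ?_⟩
      obtain ⟨i, r, hr, rfl⟩ := mem_YT.1 hyT
      exact mem_KT.2 ⟨i, r, hr, rfl⟩
    · rintro ⟨hy, hyT⟩
      exact ⟨hy, mem_YT_of_forall (hQY hy) hyT⟩
  rw [h2]
  exact h

open Classical in
theorem conY'_proof (hInv : Stmt_Inv) : Stmt_ConY' := by
  intro Q hQY hQ hQc hc
  have h := con_aux hInv {a | (∃ i, a = Sum.inl i) ∨ ∃ l, a = Sum.inr (Ty.M l)} K' K'_subset_K (by
      rintro n x hx a u rfl ha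
      rw [mem_K] at hx
      rcases hx with ⟨j, r, hr, h⟩ | ⟨τ, u', hu', h⟩
      · rw [h]; exact mem_K'.2 (Or.inl ⟨j, r, hr, rfl⟩)
      · by_cases h0 : u = 0
        · rw [h0, br_zero]; exact zero_mem_K' n
        · have h1 : a = Sum.inr τ := by
            by_contra h1
            apply h0
            have := congrFun h a
            rw [br_self, br_ne h1] at this
            exact this
          rcases ha with ⟨i, rfl⟩ | ⟨l, rfl⟩
          · simp at h1
          · have h2 : Ty.M l = τ := by simpa using h1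
            subst h2
            rw [h]
            exact mem_K'.2 (Or.inr ⟨l, u', hu', rfl⟩))
    (by
      intro n x hx
      rcases mem_K'.1 hx with ⟨i, r, _, rfl⟩ | ⟨l, u, _, rfl⟩
      · exact kill_br_mem (Or.inl ⟨i, rfl⟩) _
      · exact kill_br_mem (Or.inr ⟨l, rfl⟩) _) zero_mem_K'
    (fun n x hx => kap_mem_K' hx) hQY hQ hQc hc
  have h2 : Q ∩ Y' = Q ∩ {y | ∀ n : ℕ, y n ∈ K' n} := by
    ext y
    constructor
    · rintro ⟨hy, hyT⟩
      exact ⟨hy, fun n => (hyT n).1⟩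
    · rintro ⟨hy, hyT⟩
      exact ⟨hy, fun n => ⟨hyT n, (hQY hy n).2⟩⟩
  rw [h2]
  exact h

end Pool.Agent.TLC

end
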