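import Pool.Agent.TLC.StarAux

/-!
# Module STAR: subcontinua of `Y` through the centre (helper94)
-/

set_option autoImplicit false

noncomputable section

namespace Pool.Agent.TLC

open Set Filter Topology

namespace Aux94

theorem lg_ch (σ : Ty) (b : Bool) : lg (ch σ b) ≠ lg σ := by
  revert σ b
  decide

theorem par_P (σ : Ty) (b : Bool) (j : Fin 3) (h : ch σ b = Ty.P j) : σ = Ty.P (j - 1) := by
  revert σ b j
  decide

theorem leg_points {Q : Set Sq} (hQY : Q ⊆ Y) (hQ : IsConnected Q) (hc : ctr ∈ Q) {y : Sq}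
    (hy : y ∈ Q) {m : ℕ} {σ : Ty} (h1 : y (m + 1) (Sum.inr σ) [] = 1) {r : ℝ}
    (hr : 0 < r) (hr1 : r ≤ 1) : ∃ q ∈ Q, ∀ k, k ≤ m → q k = legp (lg σ) r := by
  have hcont : ContinuousOn (fun q : Sq => q (m + 1) (Sum.inr σ) []) Q :=
    (continuous_coord _ _ _).continuousOn
  have hiv := hQ.isPreconnected.intermediate_value hc hy hcont
  have hmem : r / 2 ∈ Icc (ctr (m + 1) (Sum.inr σ) []) (y (m + 1) (Sum.inr σ) []) := by
    rw [h1]
    have : ctr (m + 1) (Sum.inr σ) [] = 0 := rfl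
    rw [this]
    constructor <;> linarith
  obtain ⟨q, hq, hqr⟩ := hiv hmem
  simp only at hqr
  refine ⟨q, hq, ?_⟩
  have hqY := hQY hq
  apply leg_below hqY m
  rw [← (hqY m).2]
  rcases K_cases (hqY (m + 1)).1 with ⟨i, s, hs, hx⟩ | ⟨τ, u, hu, hx⟩
  · exfalso
    rw [hx] at hqr
    unfold legp at hqr
    rw [br_inl_inr] at hqr
    linarith
  · rw [hx, br_inr_inr] at hqr
    by_cases hst : σ = τ
    · subst hst
      rw [if_pos rfl] at hqr
      rcases hu with ⟨s, hs, rfl⟩ | hu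
      · rw [edge_nil] at hqr
        rw [hx, kap_edge, hqr, tent_half hr1]
      · exfalso
        simp only [mem_iUnion] at hu
        obtain ⟨b, v, hv, rfl⟩ := hu
        have h3 : node b v [] = 1 := rfl
        rw [h3] at hqr
        linarith
    · exfalso
      rw [if_neg hst] at hqr
      linarith

/-- leg `j` appears below level `m + 1` -/
def Lv (y : Sq) (j : Fin 3) (m : ℕ) : Prop :=
  ∃ σ, Hr (m + 1) σ y ∧ y (m + 1) (Sum.inr σ) [] = 1 ∧ lg σ = j

theorem leg_sub {Q : Set Sq} (hQY : Q ⊆ Y) (hQc : IsCompact Q) (hQ : IsConnected Q)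
    (hc : ctr ∈ Q) {y : Sq} (hy : y ∈ Q) {j : Fin 3} (hf : ∃ᶠ m in atTop, Lv y j m) :
    lim j '' Icc 0 1 ⊆ Q := by
  rintro _ ⟨r, hr, rfl⟩
  by_cases hr0 : r = 0
  · subst hr0
    have : lim j 0 = ctr := by
      funext n
      show legp j 0 = 0
      exact legp_zero j
    rw [this]
    exact hc
  · apply mem_of_closed hQc.isClosed
    refine hf.mono ?_
    rintro m ⟨σ, h1, h2, h3⟩
    have := leg_points hQY hQ hc hy h2 (lt_of_le_of_ne hr.1 (Ne.symm hr0)) hr.2
    rw [h3] at this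
    exact this

theorem star2_proof : Stmt_Star2 := by
  intro Q hQY hQc hQ hc hns
  obtain ⟨y, hy, hyT⟩ := not_subset.1 hns
  have hyY := hQY hy
  obtain ⟨n, τ, hn⟩ := exists_Hr_of_notMem_YT hyY hyT
  have hlv : ∀ᶠ m in atTop, ∃ j, Lv y j m := by
    filter_upwards [eventually_ge_atTop n] with m hm
    obtain ⟨σ, hσ⟩ := hn.up_exists hyY m hm
    obtain ⟨ρ, b, -, h2, h3⟩ := hσ.up hyY
    exact ⟨lg ρ, ρ, h2, h3, rfl⟩
  -- some leg appears frequently
  have h0 : ∃ i, ∃ᶠ m in atTop, Lv y i m := by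
    by_contra hcon
    push Not at hcon
    have hcon' : ∀ᶠ m in atTop, ∀ i, ¬ Lv y i m := by
      rw [eventually_all]
      intro i
      exact hcon i
    obtain ⟨m, h1, h2⟩ := (hlv.and hcon').exists
    obtain ⟨j, hj⟩ := h1
    exact h2 j hj
  obtain ⟨i, hi⟩ := h0
  -- a second one
  have h1 : ∃ j, i ≠ j ∧ ∃ᶠ m in atTop, Lv y j m := by
    by_contra hcon
    push Not at hcon
    have hcon' : ∀ᶠ m in atTop, ∀ j, i ≠ j → ¬ Lv y j m := by
      rw [eventually_all]
      intro j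
      by_cases hij : i = j
      · exact Eventually.of_forall fun m h => absurd hij h
      · have := hcon j hij
        filter_upwards [this] with m hm _
        exact hm
    have hall : ∀ᶠ m in atTop, Lv y i m := by
      filter_upwards [hlv, hcon'] with m h2 h3
      obtain ⟨j, hj⟩ := h2
      by_cases hij : i = j
      · rw [hij]; exact hj
      · exact absurd hj (h3 j hij)
    obtain ⟨N, hN⟩ := eventually_atTop.1 hall
    obtain ⟨σ, g1, -, g3⟩ := hN N le_rfl
    obtain ⟨ρ, k1, -, k3⟩ := hN (N + 1) (by omega)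
    obtain ⟨ρ', b, l1, l2, -⟩ := g1.up hyY
    have : ρ' = ρ := l2.unique k1
    subst this
    apply lg_ch ρ' b
    rw [l1, g3, k3]
  obtain ⟨j, hij, hj⟩ := h1
  exact ⟨i, j, hij, leg_sub hQY hQc hQ hc hy hi, leg_sub hQY hQc hQ hc hy hj⟩

theorem Hr.upP {m : ℕ} {j : Fin 3} {y : Sq} (hy : y ∈ Y) (h : Hr m (Ty.P j) y) :
    Hr (m + 1) (Ty.P (j - 1)) y ∧ y (m + 1) (Sum.inr (Ty.P (j - 1))) [] = 1 := by
  obtain ⟨σ, b, h1, h2, h3⟩ := h.up hy
  have := par_P σ b j h1
  subst this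
  exact ⟨h2, h3⟩

theorem Hr.upP_exists {m : ℕ} {j : Fin 3} {y : Sq} (hy : y ∈ Y) (h : Hr m (Ty.P j) y) :
    ∀ k, m ≤ k → ∃ i, Hr k (Ty.P i) y := by
  intro k hk
  induction k, hk using Nat.le_induction with
  | base => exact ⟨j, h⟩
  | succ k _ ih =>
    obtain ⟨i, hi⟩ := ih
    exact ⟨i - 1, (hi.upP hy).1⟩

theorem fin3_cases (j l : Fin 3) : l = j ∨ l = j - 1 ∨ l = j - 1 - 1 := by
  revert j l
  decide

theorem lg_P (j : Fin 3) : lg (Ty.P (j - 1)) = j := by
  revert j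
  decide

theorem star3_proof : Stmt_Star3 := by
  intro Q hQY hQc hQ hc hns
  obtain ⟨y, hy, hyT⟩ := not_subset.1 hns
  have hyY := hQY hy
  obtain ⟨n, i, hn⟩ := exists_Hr_of_notMem_Y' hyY hyT
  have hfreq : ∀ l, ∃ᶠ m in atTop, Lv y l m := by
    intro l
    rw [frequently_atTop]
    intro N
    obtain ⟨j, hj⟩ := hn.upP_exists hyY (max N n) (le_max_right _ _)
    obtain ⟨a1, a2⟩ := hj.upP hyY
    obtain ⟨b1, b2⟩ := a1.upP hyY
    obtain ⟨c1, c2⟩ := b1.upP hyY
    have hNm : N ≤ max N n := le_max_left _ _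
    rcases fin3_cases j l with h | h | h
    · exact ⟨max N n, hNm, _, a1, a2, by rw [lg_P, h]⟩
    · exact ⟨max N n + 1, by omega, _, b1, b2, by rw [lg_P, h]⟩
    · exact ⟨max N n + 2, by omega, _, c1, c2, by rw [lg_P, h]⟩
  intro z hz
  simp only [YT, mem_iUnion] at hz
  obtain ⟨l, hl⟩ := hz
  exact leg_sub hQY hQc hQ hc hy (hfreq l) hl

end Aux94

theorem star2_proof : Stmt_Star2 := Aux94.star2_proof

theorem star3_proof : Stmt_Star3 := Aux94.star3_proof

end Pool.Agent.TLC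

end
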