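import Pool.Agent.TLC.Stmts

/-!
# Module TREE1: images of tree sets, the trees `KT`, `K n`, `K' n`
-/

set_option autoImplicit false

noncomputable section

namespace Pool.Agent.TLC

open Set

theorem treeImage_proof : Stmt_TreeImage := by
  intro Z W _ _ g A hg hA
  induction hA with
  | arc γ hc hi =>
    intro hinj
    rw [← range_comp]
    refine IsTreeSet.arc (g ∘ γ) (hg.comp hc) ?_
    intro a b hab
    exact hi (hinj (mem_range_self a) (mem_range_self b) hab)
  | @glue A B z hA hB h ihA ihB =>
    intro hinj
    rw [image_union]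
    refine IsTreeSet.glue (z := g z) (ihA (hinj.mono subset_union_left))
      (ihB (hinj.mono subset_union_right)) ?_
    rw [← hinj.image_inter subset_union_left subset_union_right, h, image_singleton]

theorem t1_glueFam {ι Z : Type} [TopologicalSpace Z] (z : Z) (A : ι → Set Z) (s : Finset ι)
    (hs : s.Nonempty) (hA : ∀ i ∈ s, IsTreeSet (A i)) (hz : ∀ i ∈ s, z ∈ A i)
    (hd : ∀ i ∈ s, ∀ j ∈ s, i ≠ j → A i ∩ A j ⊆ {z}) : IsTreeSet (⋃ i ∈ s, A i) := by
  classical
  induction hs using Finset.Nonempty.cons_induction with
  | singleton a => simpa using hA a (by simp)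
  | cons a s ha hs ih =>
    have h1 : (⋃ i ∈ Finset.cons a s ha, A i) = A a ∪ ⋃ i ∈ s, A i := by
      ext x; simp
    rw [h1]
    refine IsTreeSet.glue (z := z) (hA a (by simp)) (ih ?_ ?_ ?_) ?_
    · intro i hi; exact hA i (by simp [hi])
    · intro i hi; exact hz i (by simp [hi])
    · intro i hi j hj hij
      exact hd i (by simp [hi]) j (by simp [hj]) hij
    · apply Subset.antisymm
      · rintro x ⟨hxa, hx⟩
        simp only [mem_iUnion] at hx
        obtain ⟨i, hi, hxi⟩ := hx
        refine hd a (by simp) i (by simp [hi]) ?_ ⟨hxa, hxi⟩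
        rintro rfl
        exact ha hi
      · rintro x rfl
        refine ⟨hz a (by simp), ?_⟩
        obtain ⟨i, hi⟩ := hs
        simp only [mem_iUnion]
        exact ⟨i, hi, hz i (by simp [hi])⟩

theorem t1_edge_nil (r : ℝ) : edge r [] = r := by simp [edge]

theorem t1_edge_cons (r : ℝ) (c : Bool) (w : Wd) : edge r (c :: w) = 0 := by simp [edge]

theorem t1_edge_cont : Continuous edge := by
  apply continuous_pi
  intro w
  unfold edge
  by_cases h : w = []
  · simp only [h, if_true]; exact continuous_id
  · simp only [h, if_false]; exact continuous_const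

theorem t1_edge_inj : Function.Injective edge := by
  intro a b h
  have := congrFun h []
  simpa [edge] using this

theorem t1_edge_zero : edge 0 = 0 := by
  funext w
  simp [edge]

theorem t1_edge_tree : IsTreeSet (edge '' Icc (0 : ℝ) 1) := by
  have h : edge '' Icc (0 : ℝ) 1 = range (fun t : unitInterval => edge (t : ℝ)) := by
    ext x
    constructor
    · rintro ⟨r, hr, rfl⟩; exact ⟨⟨r, hr⟩, rfl⟩
    · rintro ⟨t, rfl⟩; exact ⟨t, t.2, rfl⟩
  rw [h]
  refine IsTreeSet.arc _ (t1_edge_cont.comp continuous_subtype_val) ?_
  intro a b hab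
  exact Subtype.ext (t1_edge_inj hab)

theorem t1_node_cont (b : Bool) : Continuous (node b) := by
  apply continuous_pi
  intro w
  cases w with
  | nil => exact continuous_const
  | cons c w =>
    show Continuous fun u : HFun => if c = b then u w else 0
    by_cases h : c = b
    · simp only [h, if_true]; exact continuous_apply w
    · simp only [h, if_false]; exact continuous_const

theorem t1_node_inj (b : Bool) : Function.Injective (node b) := by
  intro u v h
  funext w
  have := congrFun h (b :: w)
  simpa [node] using this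

theorem t1_node_zero (b : Bool) : node b 0 = edge 1 := by
  funext w
  cases w with
  | nil => simp [node, edge]
  | cons c w => simp [node, edge]

theorem t1_zero_mem_tree (n : ℕ) : (0 : HFun) ∈ Tree n := by
  have h : (0 : HFun) ∈ edge '' Icc (0 : ℝ) 1 := ⟨0, by simp, t1_edge_zero⟩
  cases n with
  | zero => exact h
  | succ n => exact Or.inl h

theorem t1_tree : ∀ n : ℕ, IsTreeSet (Tree n)
  | 0 => t1_edge_tree
  | n + 1 => by
      have ih := t1_tree n
      let A : Option Bool → Set HFun := fun o => match o with
        | none => edge '' Icc 0 1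
        | some b => node b '' Tree n
      have h1 : Tree (n + 1) = ⋃ o ∈ (Finset.univ : Finset (Option Bool)), A o := by
        ext x
        simp only [Tree, mem_union, mem_iUnion, Finset.mem_univ, exists_true_left]
        constructor
        · rintro (h | ⟨b, h⟩)
          · exact ⟨none, h⟩
          · exact ⟨some b, h⟩
        · rintro ⟨o, h⟩
          cases o with
          | none => exact Or.inl h
          | some b => exact Or.inr ⟨b, h⟩
      rw [h1]
      have hnode : ∀ b c : Bool, b ≠ c → node b '' Tree n ∩ node c '' Tree n ⊆ {edge 1} := by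
        rintro b c hbc x ⟨⟨u, hu, rfl⟩, ⟨v, hv, hv'⟩⟩
        have hu0 : u = 0 := by
          funext w
          have h2 := congrFun hv' (b :: w)
          simp [node, hbc] at h2
          exact h2.symm
        rw [hu0, t1_node_zero]
        exact mem_singleton _
      have hedge : ∀ b : Bool, edge '' Icc (0 : ℝ) 1 ∩ node b '' Tree n ⊆ {edge 1} := by
        rintro b x ⟨⟨r, hr, rfl⟩, ⟨u, hu, hu'⟩⟩
        have h2 := congrFun hu' []
        simp [node, edge] at h2
        rw [← h2]
        exact mem_singleton _
      apply t1_glueFam (edge 1) A Finset.univ ⟨none, Finset.mem_univ _⟩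
      · intro o _
        cases o with
        | none => exact t1_edge_tree
        | some b => exact treeImage_proof _ _ _ _ (node b) _ (t1_node_cont b) ih
                      ((t1_node_inj b).injOn)
      · intro o _
        cases o with
        | none => exact ⟨1, by simp, rfl⟩
        | some b => exact ⟨0, t1_zero_mem_tree n, t1_node_zero b⟩
      · intro o _ o' _ hne
        cases o with
        | none =>
          cases o' with
          | none => exact absurd rfl hne
          | some c => exact hedge c
        | some b =>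
          cases o' with
          | none => rw [inter_comm]; exact hedge b
          | some c => exact hnode b c (fun h => hne (by rw [h]))

theorem t1_br_self (a : Br) (u : HFun) : br a u a = u := by simp [br]

theorem t1_br_ne (a c : Br) (u : HFun) (h : c ≠ a) : br a u c = 0 := by simp [br, h]

theorem t1_br_cont (a : Br) : Continuous (br a) := by
  apply continuous_pi
  intro c
  unfold br
  by_cases h : c = a
  · simp only [h, if_true]; exact continuous_id
  · simp only [h, if_false]; exact continuous_const

theorem t1_br_inj (a : Br) : Function.Injective (br a) := by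
  intro u v h
  have := congrFun h a
  simpa [br] using this

theorem t1_br_zero (a : Br) : br a 0 = 0 := by
  funext c
  simp [br]

theorem t1_br_inter (a b : Br) (hab : a ≠ b) (A B : Set HFun) :
    br a '' A ∩ br b '' B ⊆ {0} := by
  rintro x ⟨⟨u, hu, rfl⟩, ⟨v, hv, hv'⟩⟩
  have h := congrFun hv' a
  rw [t1_br_self, t1_br_ne b a v hab] at h
  rw [← h, t1_br_zero]
  exact mem_singleton _

/-- a bouquet of trees -/
theorem t1_bouquet (s : Finset Br) (hs : s.Nonempty) (T : Br → Set HFun)
    (hT : ∀ a ∈ s, IsTreeSet (T a)) (h0 : ∀ a ∈ s, (0 : HFun) ∈ T a) :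
    IsTreeSet (⋃ a ∈ s, br a '' T a) := by
  apply t1_glueFam 0 _ s hs
  · intro a ha
    exact treeImage_proof _ _ _ _ (br a) _ (t1_br_cont a) (hT a ha) ((t1_br_inj a).injOn)
  · intro a ha
    exact ⟨0, h0 a ha, t1_br_zero a⟩
  · intro a _ b _ hab
    exact t1_br_inter a b hab _ _

theorem t1_edge0 : (0 : HFun) ∈ edge '' Icc (0 : ℝ) 1 := ⟨0, by simp, t1_edge_zero⟩

theorem t1_legp (i : Fin 3) : legp i '' Icc (0 : ℝ) 1
    = br (Sum.inl i) '' (edge '' Icc (0 : ℝ) 1) := by
  rw [image_image]
  rfl

theorem treeSets_proof : Stmt_TreeSets := by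
  refine ⟨?_, fun n => ⟨?_, ?_⟩⟩
  · have h : KT = ⋃ a ∈ (Finset.univ.image (Sum.inl : Fin 3 → Br)),
        br a '' (edge '' Icc (0 : ℝ) 1) := by
      ext x
      simp only [KT, t1_legp, mem_iUnion, Finset.mem_image, Finset.mem_univ, true_and]
      constructor
      · rintro ⟨i, h⟩; exact ⟨Sum.inl i, ⟨i, rfl⟩, h⟩
      · rintro ⟨a, ⟨i, rfl⟩, h⟩; exact ⟨i, h⟩
    rw [h]
    apply t1_bouquet
    · exact ⟨Sum.inl 0, by simp⟩
    · intro a _; exact t1_edge_tree
    · intro a _; exact t1_edge0
  · let T : Br → Set HFun := fun a => match a with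
      | Sum.inl _ => edge '' Icc (0 : ℝ) 1
      | Sum.inr _ => Tree n
    have h : K n = ⋃ a ∈ (Finset.univ : Finset Br), br a '' T a := by
      ext x
      simp only [K, KT, t1_legp, mem_union, mem_iUnion, Finset.mem_univ, exists_true_left]
      constructor
      · rintro (⟨i, h⟩ | ⟨τ, h⟩)
        · exact ⟨Sum.inl i, h⟩
        · exact ⟨Sum.inr τ, h⟩
      · rintro ⟨a, h⟩
        cases a with
        | inl i => exact Or.inl ⟨i, h⟩
        | inr τ => exact Or.inr ⟨τ, h⟩
    rw [h]
    apply t1_bouquet
    · exact ⟨Sum.inl 0, by simp⟩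
    · intro a _
      cases a with
      | inl i => exact t1_edge_tree
      | inr τ => exact t1_tree n
    · intro a _
      cases a with
      | inl i => exact t1_edge0
      | inr τ => exact t1_zero_mem_tree n
  · let T : Br → Set HFun := fun a => match a with
      | Sum.inl _ => edge '' Icc (0 : ℝ) 1
      | Sum.inr _ => Tree n
    have h : K' n = ⋃ a ∈ (Finset.univ.image (Sum.inl : Fin 3 → Br) ∪
        Finset.univ.image (fun l : Fin 3 => (Sum.inr (Ty.M l) : Br))), br a '' T a := by
      ext x
      simp only [K', KT, t1_legp, mem_union, mem_iUnion, Finset.mem_univ, Finset.mem_union,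
        Finset.mem_image, true_and]
      constructor
      · rintro (⟨i, h⟩ | ⟨l, h⟩)
        · exact ⟨Sum.inl i, Or.inl ⟨i, rfl⟩, h⟩
        · exact ⟨Sum.inr (Ty.M l), Or.inr ⟨l, rfl⟩, h⟩
      · rintro ⟨a, (⟨i, rfl⟩ | ⟨l, rfl⟩), h⟩
        · exact Or.inl ⟨i, h⟩
        · exact Or.inr ⟨l, h⟩
    rw [h]
    apply t1_bouquet
    · exact ⟨Sum.inl 0, by simp⟩
    · intro a _
      cases a with
      | inl i => exact t1_edge_tree
      | inr τ => exact t1_tree n
    · intro a _
      cases a with
      | inl i => exact t1_edge0
      | inr τ => exact t1_zero_mem_tree n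

end Pool.Agent.TLC

end
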