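import Pool.Agent.TLC.Basic
import Pool.Agent.TLC.Stmts

/-!
# `X` is tree-like

`MP_53fb6e_gt`, tree-like class, module TREE2: the projections of `X` to finite levels are finite
trees (`Stmt_TreeX`) and have small fibres (`Stmt_TreeLikeX`).
-/

set_option autoImplicit false

noncomputable section

namespace Pool.Agent.TLC

open Set

namespace T2

/-! ### Lifting points to threads -/

theorem exists_thread (A : ℕ → Set Pt) (hm : ∀ n, MapsTo kap (A (n + 1)) (A n))
    (hs : ∀ n, SurjOn kap (A (n + 1)) (A n)) (n : ℕ) (x : Pt) (hx : x ∈ A n) :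
    ∃ y : Sq, (∀ m, y m ∈ A m ∧ kap (y (m + 1)) = y m) ∧ y n = x := by
  classical
  have hs' : ∀ m, ∀ u : Pt, ∃ v : Pt, u ∈ A m → v ∈ A (m + 1) ∧ kap v = u := by
    intro m u
    by_cases hu : u ∈ A m
    · obtain ⟨v, hv, hvu⟩ := hs m hu
      exact ⟨v, fun _ => ⟨hv, hvu⟩⟩
    · exact ⟨u, fun h => absurd h hu⟩
  choose s hs2 using hs'
  let z : ℕ → Pt := fun m => Nat.rec x (fun k u => s (n + k) u) m
  have hz0 : z 0 = x := rfl
  have hzs : ∀ m, z (m + 1) = s (n + m) (z m) := fun m => rfl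
  have hzA : ∀ m, z m ∈ A (n + m) := by
    intro m
    induction m with
    | zero => exact hx
    | succ m ih => rw [hzs]; exact (hs2 (n + m) (z m) ih).1
  have hzk : ∀ m, kap (z (m + 1)) = z m := by
    intro m
    rw [hzs]
    exact (hs2 (n + m) (z m) (hzA m)).2
  have hit : ∀ k m, kap^[k] (z (m + k)) = z m := by
    intro k
    induction k with
    | zero => intro m; rfl
    | succ k ih =>
      intro m
      have h1 : z (m + (k + 1)) = z ((m + k) + 1) := rfl
      rw [Function.iterate_succ_apply, h1, hzk]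
      exact ih m
  have hmap : ∀ k m, ∀ u ∈ A (k + m), kap^[k] u ∈ A m := by
    intro k
    induction k with
    | zero => intro m u hu; simpa using hu
    | succ k ih =>
      intro m u hu
      rw [Function.iterate_succ_apply]
      apply ih m
      apply hm (k + m)
      have : k + 1 + m = k + m + 1 := by omega
      rwa [this] at hu
  refine ⟨fun m => kap^[n] (z m), fun m => ⟨hmap n m (z m) (hzA m), ?_⟩, ?_⟩
  · rw [← Function.iterate_succ_apply' kap n, Function.iterate_succ_apply, hzk]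
  · have := hit n 0
    rw [Nat.zero_add] at this
    exact this

theorem mapsTo_kap_K (n : ℕ) : MapsTo kap (K (n + 1)) (K n) := fun _ hx => kap_mem_K hx

theorem mapsTo_kap_K' (n : ℕ) : MapsTo kap (K' (n + 1)) (K' n) := fun _ hx => kap_mem_K' hx

theorem ch_surj (σ : Ty) : ∃ τ b, ch τ b = σ := by
  revert σ; decide

theorem ch_surjM (l : Fin 3) : ∃ k b, ch (Ty.M k) b = Ty.M l := by
  revert l; decide

theorem legp_mem_KT {i : Fin 3} {r : ℝ} (hr : r ∈ Icc (0 : ℝ) 1) : legp i r ∈ KT :=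
  mem_iUnion.2 ⟨i, ⟨r, hr, rfl⟩⟩

theorem node_mem_Tree {n : ℕ} {b : Bool} {u : HFun} (hu : u ∈ Tree n) :
    node b u ∈ Tree (n + 1) := by
  exact Or.inr (mem_iUnion.2 ⟨b, ⟨u, hu, rfl⟩⟩)

theorem surjOn_K (n : ℕ) : SurjOn kap (K (n + 1)) (K n) := by
  rintro x (hx | hx)
  · obtain ⟨i, r, hr, rfl⟩ := mem_iUnion.1 hx
    exact ⟨legp i r, KT_subset_K _ (legp_mem_KT hr), kap_legp i r⟩
  · obtain ⟨σ, u, hu, rfl⟩ := mem_iUnion.1 hx
    obtain ⟨τ, b, rfl⟩ := ch_surj σ
    exact ⟨br (Sum.inr τ) (node b u), Or.inr (mem_iUnion.2 ⟨τ, ⟨node b u, node_mem_Tree hu, rfl⟩⟩),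
      kap_node τ b u⟩

theorem surjOn_K' (n : ℕ) : SurjOn kap (K' (n + 1)) (K' n) := by
  rintro x (hx | hx)
  · obtain ⟨i, r, hr, rfl⟩ := mem_iUnion.1 hx
    exact ⟨legp i r, KT_subset_K' _ (legp_mem_KT hr), kap_legp i r⟩
  · obtain ⟨l, u, hu, rfl⟩ := mem_iUnion.1 hx
    obtain ⟨k, b, hk⟩ := ch_surjM l
    refine ⟨br (Sum.inr (Ty.M k)) (node b u),
      Or.inr (mem_iUnion.2 ⟨k, ⟨node b u, node_mem_Tree hu, rfl⟩⟩), ?_⟩
    rw [kap_node, hk]

/-! ### The heights as functions of the level `n` coordinate -/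

/-- The height of the sheet `j` as a function of the coordinate of level `n`. -/
def hn (j : Fin 4) (n : ℕ) (x : Pt) : ℝ := ht j (fun _ => kap^[n] x)

theorem ht_eq_of_zero (j : Fin 4) (y y' : Sq) (h : y 0 = y' 0) : ht j y = ht j y' := by
  fin_cases j <;> simp [ht, lc, h]

theorem thread_zero {y : Sq} (hy : ∀ m, kap (y (m + 1)) = y m) (n : ℕ) :
    kap^[n] (y n) = y 0 := by
  induction n with
  | zero => rfl
  | succ n ih => rw [Function.iterate_succ_apply, hy]; exact ih

theorem ht_eq_hn (j : Fin 4) {y : Sq} (hy : ∀ m, kap (y (m + 1)) = y m) (n : ℕ) :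
    ht j y = hn j n (y n) := by
  apply ht_eq_of_zero
  exact (thread_zero hy n).symm

theorem continuous_coord (a : Br) (w : Wd) : Continuous (fun x : Pt => x a w) :=
  (continuous_apply w).comp (continuous_apply a)

theorem continuous_hn (j : Fin 4) (n : ℕ) : Continuous (hn j n) := by
  have h1 : Continuous (fun x : Pt => kap^[n] x) := continuous_kap.iterate n
  have h2 : ∀ i : Fin 3, Continuous (fun x : Pt => (kap^[n] x) (Sum.inl i) []) := fun i =>
    (continuous_coord (Sum.inl i) []).comp h1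
  fin_cases j
  · exact (h2 0).div_const 2
  · exact ((continuous_const (y := (1 : ℝ))).sub ((h2 0).div_const 2)).add ((h2 1).div_const 2)
  · exact ((continuous_const (y := (2 : ℝ))).sub ((h2 1).div_const 2)).add ((h2 2).div_const 2)
  · exact (continuous_const (y := (3 : ℝ))).sub ((h2 2).div_const 2)

theorem iterate_legp (n : ℕ) (i : Fin 3) (r : ℝ) : kap^[n] (legp i r) = legp i r := by
  induction n with
  | zero => rfl
  | succ n ih => rw [Function.iterate_succ_apply, kap_legp]; exact ih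

theorem legp_inl (i k : Fin 3) (r : ℝ) : legp i r (Sum.inl k) [] = if k = i then r else 0 := by
  unfold legp br edge
  by_cases h : k = i
  · simp [h]
  · have : (Sum.inl k : Br) ≠ Sum.inl i := fun h' => h (Sum.inl.inj h')
    simp [h]

theorem iterate_mem_K (n : ℕ) {x : Pt} (hx : x ∈ K n) : kap^[n] x ∈ K 0 := by
  induction n generalizing x with
  | zero => exact hx
  | succ n ih => rw [Function.iterate_succ_apply]; exact ih (mapsTo_kap_K n hx)

/-- The leg coordinates of the points of `K 0`. -/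
theorem legs_K0 {x : Pt} (hx : x ∈ K 0) : (∀ i, 0 ≤ x (Sum.inl i) []) ∧
    x (Sum.inl 0) [] + x (Sum.inl 1) [] + x (Sum.inl 2) [] ≤ 1 := by
  rcases hx with hx | hx
  · obtain ⟨i, r, hr, rfl⟩ := mem_iUnion.1 hx
    constructor
    · intro k
      rw [legp_inl]
      split_ifs
      · exact hr.1
      · exact le_rfl
    · rw [legp_inl, legp_inl, legp_inl]
      fin_cases i <;> simp [hr.2]
  · obtain ⟨τ, u, hu, rfl⟩ := mem_iUnion.1 hx
    have h0 : ∀ i : Fin 3, br (Sum.inr τ) u (Sum.inl i) [] = 0 := by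
      intro i
      simp [br]
    constructor
    · intro i
      exact (h0 i).ge
    · rw [h0, h0, h0]; norm_num

/-- The graph of the height of sheet `j` over a set. -/
def gr (j : Fin 4) (n : ℕ) (A : Set Pt) : Set (Pt × ℝ) := (fun x => (x, hn j n x)) '' A

theorem mem_gr {j : Fin 4} {n : ℕ} {A : Set Pt} {p : Pt × ℝ} :
    p ∈ gr j n A ↔ p.1 ∈ A ∧ p.2 = hn j n p.1 := by
  constructor
  · rintro ⟨x, hx, rfl⟩
    exact ⟨hx, rfl⟩
  · rintro ⟨h1, h2⟩
    exact ⟨p.1, h1, Prod.ext rfl h2.symm⟩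

theorem image_sec (j : Fin 4) (n : ℕ) (D : Set Sq) (A : Set Pt)
    (hD : ∀ y ∈ D, ∀ m, kap (y (m + 1)) = y m) (hA : (fun y : Sq => y n) '' D = A) :
    (fun p : Sq × ℝ => (p.1 n, p.2)) '' (sec j '' D) = gr j n A := by
  rw [← hA]
  ext p
  constructor
  · rintro ⟨_, ⟨y, hy, rfl⟩, rfl⟩
    exact ⟨y n, ⟨y, hy, rfl⟩, by simp only [sec]; rw [← ht_eq_hn j (hD y hy) n]⟩
  · rintro ⟨_, ⟨y, hy, rfl⟩, rfl⟩
    exact ⟨sec j y, ⟨y, hy, rfl⟩, by simp only [sec]; rw [ht_eq_hn j (hD y hy) n]⟩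

theorem image_Y (n : ℕ) : (fun y : Sq => y n) '' Y = K n := by
  apply Subset.antisymm
  · rintro _ ⟨y, hy, rfl⟩
    exact (hy n).1
  · intro x hx
    obtain ⟨y, hy, hyn⟩ := exists_thread K mapsTo_kap_K surjOn_K n x hx
    exact ⟨y, hy, hyn⟩

theorem image_Y' (n : ℕ) : (fun y : Sq => y n) '' Y' = K' n := by
  apply Subset.antisymm
  · rintro _ ⟨y, hy, rfl⟩
    exact (hy n).1
  · intro x hx
    obtain ⟨y, hy, hyn⟩ := exists_thread K' mapsTo_kap_K' surjOn_K' n x hx
    exact ⟨y, hy, hyn⟩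

theorem image_YT (n : ℕ) : (fun y : Sq => y n) '' YT = KT := by
  apply Subset.antisymm
  · rintro _ ⟨y, hy, rfl⟩
    obtain ⟨i, r, hr, rfl⟩ := mem_iUnion.1 hy
    exact legp_mem_KT hr
  · intro x hx
    obtain ⟨i, r, hr, rfl⟩ := mem_iUnion.1 hx
    exact ⟨lim i r, mem_iUnion.2 ⟨i, ⟨r, hr, rfl⟩⟩, rfl⟩

theorem thread_dom (j : Fin 4) : ∀ y ∈ dom j, ∀ m, kap (y (m + 1)) = y m := by
  have hT : ∀ y ∈ YT, ∀ m, kap (y (m + 1)) = y m := by
    intro y hy m
    obtain ⟨i, r, hr, rfl⟩ := mem_iUnion.1 hy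
    exact kap_legp i r
  fin_cases j
  · intro y hy m; exact (hy m).2
  · exact hT
  · exact hT
  · intro y hy m; exact (hy m).2

/-- The projection of `X` to level `n`. -/
theorem image_X (n : ℕ) : (fun p : Sq × ℝ => (p.1 n, p.2)) '' X =
    ((gr 0 n (K n) ∪ gr 1 n KT) ∪ gr 2 n KT) ∪ gr 3 n (K' n) := by
  have hX : X = ((sec 0 '' dom 0 ∪ sec 1 '' dom 1) ∪ sec 2 '' dom 2) ∪ sec 3 '' dom 3 := by
    ext p
    simp only [X, mem_iUnion, mem_union]
    constructor
    · rintro ⟨j, hj⟩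
      fin_cases j
      · exact Or.inl (Or.inl (Or.inl hj))
      · exact Or.inl (Or.inl (Or.inr hj))
      · exact Or.inl (Or.inr hj)
      · exact Or.inr hj
    · rintro (((h | h) | h) | h)
      · exact ⟨0, h⟩
      · exact ⟨1, h⟩
      · exact ⟨2, h⟩
      · exact ⟨3, h⟩
  rw [hX, image_union, image_union, image_union,
    image_sec 0 n (dom 0) (K n) (thread_dom 0) (image_Y n),
    image_sec 1 n (dom 1) KT (thread_dom 1) (image_YT n),
    image_sec 2 n (dom 2) KT (thread_dom 2) (image_YT n),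
    image_sec 3 n (dom 3) (K' n) (thread_dom 3) (image_Y' n)]

theorem hn_bounds (n : ℕ) {x : Pt} (hx : x ∈ K n) :
    0 ≤ hn 0 n x ∧ hn 0 n x ≤ 1 / 2 ∧ 1 / 2 ≤ hn 1 n x ∧ hn 1 n x ≤ 3 / 2 ∧
    3 / 2 ≤ hn 2 n x ∧ hn 2 n x ≤ 5 / 2 ∧ 5 / 2 ≤ hn 3 n x := by
  obtain ⟨h0, h1⟩ := legs_K0 (iterate_mem_K n hx)
  have a0 := h0 0
  have a1 := h0 1
  have a2 := h0 2
  simp only [hn, ht, lc]
  refine ⟨?_, ?_, ?_, ?_, ?_, ?_, ?_⟩ <;> linarith

theorem hn_legp (n : ℕ) (i : Fin 3) (r : ℝ) :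
    hn 0 n (legp i r) = (if (0 : Fin 3) = i then r else 0) / 2 ∧
    hn 1 n (legp i r) = 1 - (if (0 : Fin 3) = i then r else 0) / 2 +
      (if (1 : Fin 3) = i then r else 0) / 2 ∧
    hn 2 n (legp i r) = 2 - (if (1 : Fin 3) = i then r else 0) / 2 +
      (if (2 : Fin 3) = i then r else 0) / 2 ∧
    hn 3 n (legp i r) = 3 - (if (2 : Fin 3) = i then r else 0) / 2 := by
  simp only [hn, ht, lc, iterate_legp, legp_inl]
  exact ⟨trivial, trivial, trivial, trivial⟩

end T2

open T2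

/-- `Stmt_TreeX` from the statements on tree sets. -/
theorem treeX_proof (hI : Stmt_TreeImage) (hS : Stmt_TreeSets) : Stmt_TreeX := by
  intro n
  rw [image_X]
  have hg : ∀ (j : Fin 4) (A : Set Pt), IsTreeSet A → IsTreeSet (gr j n A) := by
    intro j A hA
    refine hI Pt (Pt × ℝ) _ _ (fun x => (x, hn j n x)) A ?_ hA ?_
    · exact continuous_id.prodMk (continuous_hn j n)
    · intro x _ y _ hxy
      exact (Prod.mk.inj hxy).1
  have g0 := hg 0 (K n) (hS.2 n).1
  have g1 := hg 1 KT hS.1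
  have g2 := hg 2 KT hS.1
  have g3 := hg 3 (K' n) (hS.2 n).2
  have one_mem : (1 : ℝ) ∈ Icc (0 : ℝ) 1 := ⟨zero_le_one, le_rfl⟩
  have c10 : ¬ (1 : Fin 3) = 0 := by decide
  have c01 : ¬ (0 : Fin 3) = 1 := by decide
  have c21 : ¬ (2 : Fin 3) = 1 := by decide
  have c12 : ¬ (1 : Fin 3) = 2 := by decide
  have i01 : gr 0 n (K n) ∩ gr 1 n KT = {(legp 0 1, 1 / 2)} := by
    ext ⟨x, t⟩
    rw [mem_inter_iff, mem_gr, mem_gr, mem_singleton_iff]
    constructor
    · rintro ⟨⟨h1, h2⟩, h3, h4⟩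
      simp only at h1 h2 h3 h4
      have b := hn_bounds n h1
      obtain ⟨i, r, hr, rfl⟩ := mem_iUnion.1 h3
      obtain ⟨e0, e1, e2, e3⟩ := hn_legp n i r
      have ht : t = 1 / 2 := by linarith [b.2.1, b.2.2.1]
      rw [e1, ht] at h4
      have hi : i = 0 ∧ r = 1 := by
        have hr1 := hr.1
        have hr2 := hr.2
        fin_cases i
        · simp at h4; exact ⟨rfl, by linarith⟩
        · exfalso; simp at h4; linarith
        · exfalso; norm_num at h4
      rw [hi.1, hi.2, ht]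
    · intro h
      obtain ⟨rfl, rfl⟩ := Prod.mk.inj h
      obtain ⟨e0, e1, e2, e3⟩ := hn_legp n 0 1
      refine ⟨⟨KT_subset_K n (legp_mem_KT one_mem), ?_⟩, legp_mem_KT one_mem, ?_⟩
      · rw [e0, if_pos rfl]
      · rw [e1, if_pos rfl, if_neg c10]; norm_num
  have i12 : (gr 0 n (K n) ∪ gr 1 n KT) ∩ gr 2 n KT = {(legp 1 1, 3 / 2)} := by
    ext ⟨x, t⟩
    rw [mem_inter_iff, mem_union, mem_gr, mem_gr, mem_gr, mem_singleton_iff]
    constructor
    · rintro ⟨h12, h3, h4⟩
      simp only at h12 h3 h4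
      have hxK : x ∈ K n := KT_subset_K n h3
      have b := hn_bounds n hxK
      have ht : t = 3 / 2 := by
        rcases h12 with ⟨_, h2⟩ | ⟨_, h2⟩
        · exfalso; linarith [b.2.1, b.2.2.2.2.1]
        · linarith [b.2.2.2.1, b.2.2.2.2.1]
      obtain ⟨i, r, hr, rfl⟩ := mem_iUnion.1 h3
      obtain ⟨e0, e1, e2, e3⟩ := hn_legp n i r
      rw [e2, ht] at h4
      have hi : i = 1 ∧ r = 1 := by
        have hr1 := hr.1
        have hr2 := hr.2
        fin_cases i
        · exfalso; simp at h4; linarith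
        · simp at h4; exact ⟨rfl, by linarith⟩
        · exfalso; simp at h4; linarith
      rw [hi.1, hi.2, ht]
    · intro h
      obtain ⟨rfl, rfl⟩ := Prod.mk.inj h
      obtain ⟨e0, e1, e2, e3⟩ := hn_legp n 1 1
      refine ⟨Or.inr ⟨legp_mem_KT one_mem, ?_⟩, legp_mem_KT one_mem, ?_⟩
      · rw [e1, if_neg c01, if_pos rfl]; norm_num
      · rw [e2, if_pos rfl, if_neg c21]; norm_num
  have i23 : ((gr 0 n (K n) ∪ gr 1 n KT) ∪ gr 2 n KT) ∩ gr 3 n (K' n) =
      {(legp 2 1, 5 / 2)} := by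
    ext ⟨x, t⟩
    rw [mem_inter_iff, mem_union, mem_union, mem_gr, mem_gr, mem_gr, mem_gr, mem_singleton_iff]
    constructor
    · rintro ⟨h123, h4, h5⟩
      simp only at h123 h4 h5
      have hxK : x ∈ K n := K'_subset_K n h4
      have b := hn_bounds n hxK
      rcases h123 with (⟨_, h2⟩ | ⟨_, h2⟩) | ⟨h3, h2⟩
      · exfalso; linarith [b.2.1, b.2.2.2.2.2.2]
      · exfalso; linarith [b.2.2.2.1, b.2.2.2.2.2.2]
      · have ht : t = 5 / 2 := by linarith [b.2.2.2.2.2.1, b.2.2.2.2.2.2]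
        obtain ⟨i, r, hr, rfl⟩ := mem_iUnion.1 h3
        obtain ⟨e0, e1, e2, e3⟩ := hn_legp n i r
        rw [e2, ht] at h2
        have hi : i = 2 ∧ r = 1 := by
          have hr1 := hr.1
          have hr2 := hr.2
          fin_cases i
          · exfalso; simp at h2; linarith
          · exfalso; simp at h2; linarith
          · simp at h2; exact ⟨rfl, by linarith⟩
        rw [hi.1, hi.2, ht]
    · intro h
      obtain ⟨rfl, rfl⟩ := Prod.mk.inj h
      obtain ⟨e0, e1, e2, e3⟩ := hn_legp n 2 1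
      refine ⟨Or.inr ⟨legp_mem_KT one_mem, ?_⟩, KT_subset_K' n (legp_mem_KT one_mem), ?_⟩
      · rw [e2, if_neg c12, if_pos rfl]; norm_num
      · rw [e3, if_pos rfl]; norm_num
  exact IsTreeSet.glue (IsTreeSet.glue (IsTreeSet.glue g0 g1 i01) g2 i12) g3 i23

/-- `X` is tree-like. -/
theorem treeLikeX_proof (hT : Stmt_TreeX) (hC : Stmt_Cont) : Stmt_TreeLikeX := by
  intro m hm ε hε
  have hXc : IsCompact X := hC.2.2.1
  let g : ℕ → X → Pt × ℝ := fun n p => (p.1.1 n, p.1.2)
  have hgc0 : ∀ n, Continuous (g n) := by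
    intro n
    exact ((continuous_apply n).comp (continuous_fst.comp continuous_subtype_val)).prodMk
      (continuous_snd.comp continuous_subtype_val)
  have hrange : ∀ n, IsTreeSet (range (g n)) := by
    intro n
    have : range (g n) = (fun p : Sq × ℝ => (p.1 n, p.2)) '' X := by
      ext q
      constructor
      · rintro ⟨p, rfl⟩
        exact ⟨p.1, p.2, rfl⟩
      · rintro ⟨p, hp, rfl⟩
        exact ⟨⟨p, hp⟩, rfl⟩
    rw [this]
    exact hT n
  have hstep : ∀ n (p q : X), g (n + 1) p = g (n + 1) q → g n p = g n q := by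
    intro n p q h
    obtain ⟨h1, h2⟩ := Prod.mk.inj h
    have key : ∀ p : X, kap (p.1.1 (n + 1)) = p.1.1 n := by
      intro p
      obtain ⟨j, y, hy, hyp⟩ := mem_iUnion.1 p.2
      rw [← hyp]
      exact thread_dom j y hy n
    simp only [g]
    rw [← key p, ← key q, h1, h2]
  -- the distance is continuous on `X × X`
  have hd : Continuous (fun p : X × X => @dist X m.toDist p.1 p.2) := by
    have h := @continuous_dist X m.toPseudoMetricSpace
    rw [hm] at h
    exact h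
  let D : ℕ → Set (X × X) := fun n => {p | g n p.1 = g n p.2 ∧ ε / 2 ≤ @dist X m.toDist p.1 p.2}
  have hDcl : ∀ n, IsClosed (D n) := by
    intro n
    apply IsClosed.inter
    · exact isClosed_eq ((hgc0 n).comp continuous_fst) ((hgc0 n).comp continuous_snd)
    · exact isClosed_le continuous_const hd
  have hDsub : ∀ n, D (n + 1) ⊆ D n := fun n p hp => ⟨hstep n p.1 p.2 hp.1, hp.2⟩
  have hcs : CompactSpace X := isCompact_iff_compactSpace.1 hXc
  have hex : ∃ n, D n = ∅ := by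
    by_contra hne
    push Not at hne
    obtain ⟨p, hp⟩ := IsCompact.nonempty_iInter_of_sequence_nonempty_isCompact_isClosed D hDsub
      hne (hDcl 0).isCompact hDcl
    have hp' : ∀ n, p ∈ D n := fun n => mem_iInter.1 hp n
    have heq : p.1 = p.2 := by
      apply Subtype.ext
      apply Prod.ext
      · funext n
        exact (Prod.mk.inj (hp' n).1).1
      · exact (Prod.mk.inj (hp' 0).1).2
    have := (hp' 0).2
    rw [heq, @dist_self X m.toPseudoMetricSpace] at this
    linarith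
  obtain ⟨n, hn⟩ := hex
  refine ⟨Pt × ℝ, inferInstance, inferInstance, g n, ?_, hrange n, ?_⟩
  · rw [hm]; exact hgc0 n
  · intro z
    have : @Metric.diam X m.toPseudoMetricSpace (g n ⁻¹' {z}) ≤ ε / 2 := by
      refine @Metric.diam_le_of_forall_dist_le X _ m.toPseudoMetricSpace _ ?_ ?_
      · linarith
      · intro p hp q hq
        by_contra hlt
        push Not at hlt
        have : (p, q) ∈ D n := ⟨by rw [hp, hq], hlt.le⟩
        rw [hn] at this
        exact this
    linarith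

end Pool.Agent.TLC

end
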