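import Pool.Agent.TLC.Basic
import Pool.Agent.TLC.Stmts

/-!
# `X`, `Y` and `Y'` are continua
-/

set_option autoImplicit false

noncomputable section

namespace Pool.Agent.TLC

open Set

theorem Y_cont (hInv : Stmt_Inv) : IsCompact Y ∧ IsConnected Y :=
  hInv Pt inferInstance inferInstance kap K continuous_kap isCompact_K isConnected_K
    fun _ _ => kap_mem_K

theorem Y'_cont (hInv : Stmt_Inv) : IsCompact Y' ∧ IsConnected Y' :=
  hInv Pt inferInstance inferInstance kap K' continuous_kap isCompact_K' isConnected_K'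
    fun _ _ => kap_mem_K'

theorem one_mem : (1 : ℝ) ∈ Icc (0 : ℝ) 1 := ⟨zero_le_one, le_rfl⟩

theorem zero_mem : (0 : ℝ) ∈ Icc (0 : ℝ) 1 := ⟨le_rfl, zero_le_one⟩

theorem lc_self (i : Fin 3) (r : ℝ) : lc i (lim i r) = r := by simp [lc_lim]

theorem lc_ne {i k : Fin 3} (h : k ≠ i) (r : ℝ) : lc k (lim i r) = 0 := by simp [lc_lim, h]

theorem sec_tip_0 : sec 0 (lim 0 1) = sec 1 (lim 0 1) := by
  have h1 : lc 1 (lim 0 1) = 0 := lc_ne (by decide) _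
  simp only [sec, ht, lc_self, h1]
  norm_num

theorem sec_tip_1 : sec 1 (lim 1 1) = sec 2 (lim 1 1) := by
  have h1 : lc 0 (lim 1 1) = 0 := lc_ne (by decide) _
  have h2 : lc 2 (lim 1 1) = 0 := lc_ne (by decide) _
  simp only [sec, ht, lc_self, h1, h2]
  norm_num

theorem sec_tip_2 : sec 2 (lim 2 1) = sec 3 (lim 2 1) := by
  have h1 : lc 1 (lim 2 1) = 0 := lc_ne (by decide) _
  simp only [sec, ht, lc_self, h1]
  norm_num

theorem isCompact_dom (hInv : Stmt_Inv) : ∀ j, IsCompact (dom j)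
  | 0 => (Y_cont hInv).1
  | 1 => isCompact_YT
  | 2 => isCompact_YT
  | 3 => (Y'_cont hInv).1

theorem isConnected_dom (hInv : Stmt_Inv) : ∀ j, IsConnected (dom j)
  | 0 => (Y_cont hInv).2
  | 1 => isConnected_YT
  | 2 => isConnected_YT
  | 3 => (Y'_cont hInv).2

theorem isCompact_sheet (hInv : Stmt_Inv) (j : Fin 4) : IsCompact (sec j '' dom j) :=
  (isCompact_dom hInv j).image (continuous_sec j)

theorem isConnected_sheet (hInv : Stmt_Inv) (j : Fin 4) : IsConnected (sec j '' dom j) :=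
  (isConnected_dom hInv j).image _ (continuous_sec j).continuousOn

theorem X_eq : X = ((sec 0 '' dom 0 ∪ sec 1 '' dom 1) ∪ sec 2 '' dom 2) ∪ sec 3 '' dom 3 := by
  ext p
  simp only [X, mem_iUnion, mem_union]
  constructor
  · rintro ⟨j, hj⟩
    match j, hj with
    | 0, hj => exact Or.inl (Or.inl (Or.inl hj))
    | 1, hj => exact Or.inl (Or.inl (Or.inr hj))
    | 2, hj => exact Or.inl (Or.inr hj)
    | 3, hj => exact Or.inr hj
  · rintro (((h | h) | h) | h)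
    exacts [⟨0, h⟩, ⟨1, h⟩, ⟨2, h⟩, ⟨3, h⟩]

theorem cont_proof (hInv : Stmt_Inv) : Stmt_Cont := by
  refine ⟨(Y_cont hInv).1, (Y_cont hInv).2, isCompact_iUnion (isCompact_sheet hInv), ?_⟩
  rw [X_eq]
  have m0 : lim 0 1 ∈ YT := mem_YT.2 ⟨0, 1, one_mem, rfl⟩
  have m1 : lim 1 1 ∈ YT := mem_YT.2 ⟨1, 1, one_mem, rfl⟩
  have m2 : lim 2 1 ∈ YT := mem_YT.2 ⟨2, 1, one_mem, rfl⟩
  have n0 : (sec 0 '' dom 0 ∩ sec 1 '' dom 1).Nonempty :=
    ⟨sec 0 (lim 0 1), ⟨lim 0 1, YT_subset_Y m0, rfl⟩, ⟨lim 0 1, m0, sec_tip_0.symm⟩⟩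
  have h01 := IsConnected.union n0 (isConnected_sheet hInv 0) (isConnected_sheet hInv 1)
  have n1 : ((sec 0 '' dom 0 ∪ sec 1 '' dom 1) ∩ sec 2 '' dom 2).Nonempty :=
    ⟨sec 1 (lim 1 1), Or.inr ⟨lim 1 1, m1, rfl⟩, ⟨lim 1 1, m1, sec_tip_1.symm⟩⟩
  have h02 := IsConnected.union n1 h01 (isConnected_sheet hInv 2)
  have n2 : (((sec 0 '' dom 0 ∪ sec 1 '' dom 1) ∪ sec 2 '' dom 2) ∩ sec 3 '' dom 3).Nonempty :=
    ⟨sec 2 (lim 2 1), Or.inr ⟨lim 2 1, m2, rfl⟩, ⟨lim 2 1, YT_subset_Y' m2, sec_tip_2.symm⟩⟩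
  exact IsConnected.union n2 h02 (isConnected_sheet hInv 3)

end Pool.Agent.TLC

end
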