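import Mathlib

/-!
# Finite trees and tree-like continua
-/

set_option autoImplicit false

namespace Pool.Agent.TLC

open Set

/-- Finite trees in a topological space: arcs, and unions of two finite trees with exactly one
common point. -/
inductive IsTreeSet {Z : Type} [TopologicalSpace Z] : Set Z → Prop
  | arc (γ : unitInterval → Z) (hc : Continuous γ) (hi : Function.Injective γ) :
      IsTreeSet (range γ)
  | glue {A B : Set Z} {z : Z} (hA : IsTreeSet A) (hB : IsTreeSet B) (h : A ∩ B = {z}) :
      IsTreeSet (A ∪ B)

/-- A metric space is tree-like if for every `ε > 0` there is a continuous map `g` onto a finite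
tree in some Hausdorff space such that all fibres of `g` have diameter less than `ε`. -/
def TreeLike (X : Type) [MetricSpace X] : Prop :=
  ∀ ε : ℝ, 0 < ε → ∃ (Z : Type) (_ : TopologicalSpace Z) (_ : T2Space Z) (g : X → Z),
    Continuous g ∧ IsTreeSet (range g) ∧ ∀ z, Metric.diam (g ⁻¹' {z}) < ε

end Pool.Agent.TLC
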