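import Mathlib
import Pool.Agent.TLC.TreeLike

/-!
# A confluent map `f` of a tree-like continuum such that `f × f` is not confluent: definitions

The continuum `Y` is an inverse limit of finite trees `K n`: a triod (three legs) together with six
hairs (binary trees of depth `n`), all attached at one point. The continuum `X` consists of four
sheets: `Y`, the triod, the triod and a part `Y'` of `Y`, glued in a row at the tips of the legs.
-/

set_option autoImplicit false

noncomputable section

namespace Pool.Agent.TLC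

open Set

/-! ### Binary trees as sets of functions -/

/-- Words over two letters. -/
abbrev Wd : Type := List Bool

/-- Real functions on words; the value at `w` is the position on the edge with name `w`. -/
abbrev HFun : Type := Wd → ℝ

/-- The point at position `r` of the first edge. -/
def edge (r : ℝ) : HFun := fun w => if w = [] then r else 0

/-- The point `u` of the subtree number `b` attached at the end of the first edge. -/
def node (b : Bool) (u : HFun) : HFun
  | [] => 1
  | c :: w => if c = b then u w else 0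

/-- The binary tree of depth `n`: an edge with two copies of the tree of depth `n - 1` at its
end. -/
def Tree : ℕ → Set HFun
  | 0 => edge '' Icc 0 1
  | n + 1 => edge '' Icc 0 1 ∪ ⋃ b : Bool, node b '' Tree n

/-! ### The types of hairs -/

/-- Types of hairs. A hair of type `M l` connects the two states different from `l`, a hair of type
`P i` is attached at the state `i`. -/
inductive Ty : Type
  | M (l : Fin 3) : Ty
  | P (i : Fin 3) : Ty
  deriving DecidableEq, Fintype

/-- The leg over which the first edge of the hair is folded. -/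
def lg : Ty → Fin 3
  | Ty.M l => l
  | Ty.P i => i + 1

/-- The types of the two subtrees at the end of the first edge. -/
def ch : Ty → Bool → Ty
  | Ty.M l, false => Ty.M (l + 1)
  | Ty.M l, true => Ty.M (l + 2)
  | Ty.P i, false => Ty.M (i + 2)
  | Ty.P i, true => Ty.P (i + 1)

/-- The states at which a hair is attached. -/
def st : Ty → Set (Fin 3)
  | Ty.M l => {l + 1, l + 2}
  | Ty.P i => {i}

/-! ### The trees `K n` and the bonding map -/

/-- Branches: three legs and six hairs. -/
abbrev Br : Type := Fin 3 ⊕ Ty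

/-- The ambient space of the trees `K n`. -/
abbrev Pt : Type := Br → HFun

/-- The point `u` of the branch `a`. -/
def br (a : Br) (u : HFun) : Pt := fun c => if c = a then u else 0

/-- The point at position `r` of the leg `i`. -/
def legp (i : Fin 3) (r : ℝ) : Pt := br (Sum.inl i) (edge r)

/-- The triod. -/
def KT : Set Pt := ⋃ i : Fin 3, legp i '' Icc 0 1

/-- The tree of level `n`. -/
def K (n : ℕ) : Set Pt := KT ∪ ⋃ τ : Ty, br (Sum.inr τ) '' Tree n

/-- The subtree of level `n` without the hairs of type `P`. -/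
def K' (n : ℕ) : Set Pt := KT ∪ ⋃ l : Fin 3, br (Sum.inr (Ty.M l)) '' Tree n

/-- The tent map. -/
def tent (r : ℝ) : ℝ := 1 - |2 * r - 1|

/-- The bonding map: it is the identity on the legs, folds the first edge of the hair `τ` over the
leg `lg τ` and maps its subtree number `b` onto the hair `ch τ b`. -/
def kap (x : Pt) : Pt
  | Sum.inl i => fun w =>
      if w = [] then x (Sum.inl i) [] + ∑ τ : Ty, (if lg τ = i then tent (x (Sum.inr τ) []) else 0)
      else 0
  | Sum.inr σ => fun w =>
      ∑ τ : Ty, ∑ b : Bool, if ch τ b = σ then x (Sum.inr τ) (b :: w) else 0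

/-! ### The continuum `Y` -/

/-- Sequences of points. -/
abbrev Sq : Type := ℕ → Pt

/-- The inverse limit. -/
def Y : Set Sq := {y | ∀ n, y n ∈ K n ∧ kap (y (n + 1)) = y n}

/-- The part of `Y` without hairs of type `P`. -/
def Y' : Set Sq := {y | ∀ n, y n ∈ K' n ∧ kap (y (n + 1)) = y n}

/-- A point of the triod in `Y`. -/
def lim (i : Fin 3) (r : ℝ) : Sq := fun _ => legp i r

/-- The triod in `Y`. -/
def YT : Set Sq := ⋃ i : Fin 3, lim i '' Icc 0 1

/-- The centre of the triod. -/
def ctr : Sq := 0

/-! ### The continuum `X` -/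

/-- The coordinate of the leg `i` at level `0`. -/
def lc (i : Fin 3) (y : Sq) : ℝ := y 0 (Sum.inl i) []

/-- The height of the sheet `j` over `y`. -/
def ht : Fin 4 → Sq → ℝ
  | 0, y => lc 0 y / 2
  | 1, y => 1 - lc 0 y / 2 + lc 1 y / 2
  | 2, y => 2 - lc 1 y / 2 + lc 2 y / 2
  | 3, y => 3 - lc 2 y / 2

/-- The part of `Y` covered by the sheet `j`. -/
def dom : Fin 4 → Set Sq
  | 0 => Y
  | 1 => YT
  | 2 => YT
  | 3 => Y'

/-- The point of the sheet `j` over `y`. -/
def sec (j : Fin 4) (y : Sq) : Sq × ℝ := (y, ht j y)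

/-- The continuum `X`. -/
def X : Set (Sq × ℝ) := ⋃ j : Fin 4, sec j '' dom j

/-! ### The continuum `L` in `Y × [0, 2]` -/

/-- The height of a state. -/
def hgt (i : Fin 3) : ℝ := (i : ℕ)

/-- The part of `L` over a hair, at level `n`. -/
def R : ℕ → Ty → Set (HFun × ℝ)
  | 0, Ty.M l =>
      (fun r : ℝ => (edge r, hgt (l + 1) + (hgt (l + 2) - hgt (l + 1)) * r / 2)) '' Icc 0 1 ∪
      (fun r : ℝ => (edge r, hgt (l + 2) - (hgt (l + 2) - hgt (l + 1)) * r / 2)) '' Icc 0 1
  | 0, Ty.P i => (fun r : ℝ => (edge r, hgt i)) '' Icc 0 1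
  | n + 1, τ => (⋃ s ∈ st τ, (fun r : ℝ => (edge r, hgt s)) '' Icc 0 1) ∪
      ⋃ b : Bool, (fun p : HFun × ℝ => (node b p.1, p.2)) '' R n (ch τ b)

/-- The part of `L` over the triod: the leg `k` is missing at the state `k`. -/
def LT : Set (Pt × ℝ) := ⋃ i : Fin 3, ⋃ k ∈ ({i}ᶜ : Set (Fin 3)),
  (fun r : ℝ => (legp k r, hgt i)) '' Icc 0 1

/-- The set `L` at level `n`. -/
def LL (n : ℕ) : Set (Pt × ℝ) :=
  LT ∪ ⋃ τ : Ty, (fun p : HFun × ℝ => (br (Sum.inr τ) p.1, p.2)) '' R n τ

/-- The continuum `L`. -/
def L : Set (Sq × ℝ) := {p | p.1 ∈ Y ∧ ∀ n, (p.1 n, p.2) ∈ LL n}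

end Pool.Agent.TLC

end
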