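import Pool.Agent.TLC.Stmts

/-!
# Auxiliary facts for the modules STAR and SEP (helper94)
-/

set_option autoImplicit false

noncomputable section

namespace Pool.Agent.TLC

open Set Filter Topology

namespace Aux94

theorem edge_nil (r : ℝ) : edge r [] = r := by simp [edge]

theorem edge_cons (r : ℝ) (b : Bool) (w : Wd) : edge r (b :: w) = 0 := by simp [edge]

theorem edge_zero : edge 0 = 0 := by
  funext w
  simp [edge]

theorem br_same (a : Br) (u : HFun) : br a u a = u := by simp [br]

theorem br_ne {a c : Br} (h : c ≠ a) (u : HFun) : br a u c = 0 := by simp [br, h]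

theorem br_zero (a : Br) : br a 0 = 0 := by
  funext c
  simp [br]

theorem legp_zero (i : Fin 3) : legp i 0 = 0 := by
  unfold legp
  rw [edge_zero, br_zero]

theorem tree_facts (n : ℕ) : ∀ u ∈ Tree n, 0 ≤ u [] ∧ (u [] = 0 → u = 0) := by
  induction n with
  | zero =>
    rintro _ ⟨r, hr, rfl⟩
    rw [edge_nil]
    refine ⟨hr.1, ?_⟩
    rintro rfl
    exact edge_zero
  | succ n ih =>
    rintro u (⟨r, hr, rfl⟩ | hu)
    · rw [edge_nil]
      refine ⟨hr.1, ?_⟩
      rintro rfl
      exact edge_zero
    · simp only [mem_iUnion] at hu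
      obtain ⟨b, v, hv, rfl⟩ := hu
      have : node b v [] = 1 := rfl
      rw [this]
      exact ⟨zero_le_one, fun h => absurd h one_ne_zero⟩

theorem tent_zero : tent 0 = 0 := by
  unfold tent
  norm_num

theorem tent_one : tent 1 = 0 := by
  unfold tent
  norm_num

theorem tent_half {r : ℝ} (h : r ≤ 1) : tent (r / 2) = r := by
  unfold tent
  rw [abs_of_nonpos (by linarith)]
  ring

/-- the points of `K n` -/
theorem K_cases {n : ℕ} {x : Pt} (hx : x ∈ K n) :
    (∃ i, ∃ r ∈ Icc (0 : ℝ) 1, x = legp i r) ∨ ∃ τ, ∃ u ∈ Tree n, x = br (Sum.inr τ) u := by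
  rcases hx with hx | hx
  · left
    simp only [KT, mem_iUnion] at hx
    obtain ⟨i, r, hr, rfl⟩ := hx
    exact ⟨i, r, hr, rfl⟩
  · right
    simp only [mem_iUnion] at hx
    obtain ⟨τ, u, hu, rfl⟩ := hx
    exact ⟨τ, u, hu, rfl⟩

theorem K'_cases {n : ℕ} {x : Pt} (hx : x ∈ K' n) :
    (∃ i, ∃ r ∈ Icc (0 : ℝ) 1, x = legp i r) ∨
      ∃ l, ∃ u ∈ Tree n, x = br (Sum.inr (Ty.M l)) u := by
  rcases hx with hx | hx
  · left
    simp only [KT, mem_iUnion] at hx
    obtain ⟨i, r, hr, rfl⟩ := hx
    exact ⟨i, r, hr, rfl⟩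
  · right
    simp only [mem_iUnion] at hx
    obtain ⟨τ, u, hu, rfl⟩ := hx
    exact ⟨τ, u, hu, rfl⟩

theorem legp_mem_KT {i : Fin 3} {r : ℝ} (hr : r ∈ Icc (0 : ℝ) 1) : legp i r ∈ KT := by
  simp only [KT, mem_iUnion]
  exact ⟨i, r, hr, rfl⟩

theorem zero_mem_KT : (0 : Pt) ∈ KT := by
  rw [← legp_zero 0]
  exact legp_mem_KT ⟨le_rfl, zero_le_one⟩

/-- every point of `K n` is on one branch -/
theorem K_branch {n : ℕ} {x : Pt} (hx : x ∈ K n) :
    ∃ a u, x = br a u ∧ 0 ≤ u [] ∧ (u [] = 0 → u = 0) := by
  rcases K_cases hx with ⟨i, r, hr, rfl⟩ | ⟨τ, u, hu, rfl⟩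
  · refine ⟨Sum.inl i, edge r, rfl, ?_, ?_⟩
    · rw [edge_nil]; exact hr.1
    · rw [edge_nil]
      rintro rfl
      exact edge_zero
  · exact ⟨Sum.inr τ, u, rfl, (tree_facts n u hu).1, (tree_facts n u hu).2⟩

theorem br_inr_inr (τ σ : Ty) (u : HFun) (w : Wd) :
    br (Sum.inr τ) u (Sum.inr σ) w = if σ = τ then u w else 0 := by
  unfold br
  by_cases h : σ = τ
  · subst h; simp
  · have : (Sum.inr σ : Br) ≠ Sum.inr τ := fun hh => h (Sum.inr_injective hh)
    simp [h]

theorem br_inl_inr (i : Fin 3) (σ : Ty) (u : HFun) (w : Wd) :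
    br (Sum.inl i) u (Sum.inr σ) w = 0 := by
  unfold br
  simp

theorem br_inr_inl (τ : Ty) (i : Fin 3) (u : HFun) (w : Wd) :
    br (Sum.inr τ) u (Sum.inl i) w = 0 := by
  unfold br
  simp

theorem kap_legp (i : Fin 3) (r : ℝ) : kap (legp i r) = legp i r := by
  funext c
  cases c with
  | inl j =>
    funext w
    unfold kap legp
    by_cases hw : w = []
    · subst hw
      simp only [if_true]
      have : ∀ τ : Ty, (if lg τ = j then tent (br (Sum.inl i) (edge r) (Sum.inr τ) []) else 0)
          = 0 := by
        intro τ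
        rw [br_inl_inr, tent_zero]
        simp
      simp only [this, Finset.sum_const_zero, add_zero]
    · simp only [hw, if_false]
      unfold br
      by_cases hji : (Sum.inl j : Br) = Sum.inl i
      · simp only [hji, if_true]
        unfold edge
        simp [hw]
      · simp only [hji, if_false]
        rfl
  | inr σ =>
    funext w
    unfold kap legp
    simp only [br_inl_inr]
    simp

theorem kap_zero : kap 0 = 0 := by
  have := kap_legp 0 0
  rwa [legp_zero] at this

theorem kap_edge (τ : Ty) (r : ℝ) : kap (br (Sum.inr τ) (edge r)) = legp (lg τ) (tent r) := by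
  funext c
  cases c with
  | inl j =>
    funext w
    unfold kap
    by_cases hw : w = []
    · subst hw
      simp only [if_true, br_inr_inl, zero_add]
      have : ∀ σ : Ty, (if lg σ = j then tent (br (Sum.inr τ) (edge r) (Sum.inr σ) []) else 0)
          = if σ = τ then (if lg τ = j then tent r else 0) else 0 := by
        intro σ
        rw [br_inr_inr]
        by_cases h : σ = τ
        · subst h
          simp [edge_nil]
        · simp only [h, if_false, tent_zero]
          simp
      rw [Finset.sum_congr rfl (fun σ _ => this σ)]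
      rw [Finset.sum_ite_eq']
      simp only [Finset.mem_univ, if_true]
      unfold legp br
      by_cases hj : lg τ = j
      · subst hj
        simp [edge_nil]
      · have : (Sum.inl j : Br) ≠ Sum.inl (lg τ) := fun hh => hj (Sum.inl_injective hh).symm
        simp only [hj, if_false, this]
        rfl
    · simp only [hw, if_false]
      unfold legp br
      by_cases hji : (Sum.inl j : Br) = Sum.inl (lg τ)
      · simp only [hji, if_true]
        unfold edge
        simp [hw]
      · simp only [hji, if_false]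
        rfl
  | inr σ =>
    funext w
    unfold kap legp
    simp only [br_inl_inr, br_inr_inr, edge_cons]
    simp

theorem kap_node (τ : Ty) (b : Bool) (u : HFun) :
    kap (br (Sum.inr τ) (node b u)) = br (Sum.inr (ch τ b)) u := by
  funext c
  cases c with
  | inl j =>
    funext w
    rw [br_inr_inl]
    unfold kap
    by_cases hw : w = []
    · subst hw
      simp only [if_true, br_inr_inl, zero_add]
      apply Finset.sum_eq_zero
      intro σ _
      rw [br_inr_inr]
      by_cases h : σ = τ
      · subst h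
        have : node b u [] = 1 := rfl
        rw [if_pos rfl, this, tent_one]
        simp
      · simp only [h, if_false, tent_zero]
        simp
    · simp only [hw, if_false]
  | inr σ =>
    funext w
    rw [br_inr_inr]
    unfold kap
    have h1 : ∀ ρ : Ty, (∑ c : Bool, if ch ρ c = σ then
        br (Sum.inr τ) (node b u) (Sum.inr ρ) (c :: w) else 0)
        = if ρ = τ then (if σ = ch τ b then u w else 0) else 0 := by
      intro ρ
      simp only [br_inr_inr]
      by_cases h : ρ = τ
      · subst h
        simp only [if_true]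
        have h2 : ∀ c : Bool, (if ch ρ c = σ then node b u (c :: w) else 0)
            = if c = b then (if σ = ch ρ b then u w else 0) else 0 := by
          intro c
          have h3 : node b u (c :: w) = if c = b then u w else 0 := rfl
          rw [h3]
          by_cases hc : c = b
          · subst hc
            by_cases hs : ch ρ c = σ
            · simp [hs]
            · have : σ ≠ ch ρ c := fun hh => hs hh.symm
              simp [hs, this]
          · simp [hc]
        rw [Finset.sum_congr rfl (fun c _ => h2 c), Finset.sum_ite_eq']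
        simp
      · simp [h]
    show (∑ ρ : Ty, ∑ c : Bool, if ch ρ c = σ then
        br (Sum.inr τ) (node b u) (Sum.inr ρ) (c :: w) else 0) = _
    rw [Finset.sum_congr rfl (fun ρ _ => h1 ρ), Finset.sum_ite_eq']
    simp

/-- `kap` is continuous -/
theorem continuous_kap : Continuous kap := by
  have hc : ∀ (a : Br) (w : Wd), Continuous (fun x : Pt => x a w) := fun a w =>
    (continuous_apply w).comp (continuous_apply a)
  refine continuous_pi fun c => ?_
  cases c with
  | inl i =>
    refine continuous_pi fun w => ?_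
    unfold kap
    by_cases hw : w = []
    · simp only [hw, if_true]
      refine (hc _ _).add (continuous_finsetSum _ fun τ _ => ?_)
      by_cases h : lg τ = i
      · simp only [h, if_true]
        unfold tent
        exact continuous_const.sub (((continuous_const.mul (hc _ _)).sub continuous_const).abs)
      · simp only [h, if_false]
        exact continuous_const
    · simp only [hw, if_false]
      exact continuous_const
  | inr σ =>
    refine continuous_pi fun w => ?_
    unfold kap
    refine continuous_finsetSum _ fun τ _ => continuous_finsetSum _ fun b _ => ?_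
    by_cases h : ch τ b = σ
    · simp only [h, if_true]
      exact hc _ _
    · simp only [h, if_false]
      exact continuous_const

theorem continuous_coord (m : ℕ) (a : Br) (w : Wd) : Continuous (fun q : Sq => q m a w) :=
  (continuous_apply w).comp ((continuous_apply a).comp (continuous_apply m))

/-- a thread which is a leg point at level `m` is this leg point below `m` -/
theorem leg_below {y : Sq} (hy : y ∈ Y) {i : Fin 3} {r : ℝ} :
    ∀ m, y m = legp i r → ∀ k, k ≤ m → y k = legp i r := by
  intro m
  induction m with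
  | zero =>
    intro h k hk
    have : k = 0 := by omega
    subst this
    exact h
  | succ m ih =>
    intro h k hk
    have h1 : y m = legp i r := by
      rw [← (hy m).2, h, kap_legp]
    by_cases hkm : k ≤ m
    · exact ih h1 k hkm
    · have : k = m + 1 := by omega
      subst this
      exact h

theorem zero_below {y : Sq} (hy : y ∈ Y) {m : ℕ} (h : y m = 0) : ∀ k, k ≤ m → y k = 0 := by
  rw [← legp_zero 0] at h ⊢
  exact leg_below hy m h

/-- `y` is at level `m` on the hair `τ`, outside of the centre -/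
def Hr (m : ℕ) (τ : Ty) (y : Sq) : Prop := ∃ u ∈ Tree m, u ≠ 0 ∧ y m = br (Sum.inr τ) u

theorem Hr.pos {m : ℕ} {τ : Ty} {y : Sq} (h : Hr m τ y) : 0 < y m (Sum.inr τ) [] := by
  obtain ⟨u, hu, hu0, hy⟩ := h
  rw [hy, br_same]
  obtain ⟨h1, h2⟩ := tree_facts m u hu
  exact lt_of_le_of_ne h1 (fun hh => hu0 (h2 hh.symm))

theorem Hr.unique {m : ℕ} {τ σ : Ty} {y : Sq} (h : Hr m τ y) (h' : Hr m σ y) : τ = σ := by
  have h1 := h.pos
  obtain ⟨u, hu, hu0, hy⟩ := h'
  rw [hy, br_inr_inr] at h1
  by_contra hne
  rw [if_neg hne] at h1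
  exact lt_irrefl _ h1

theorem Hr.up {m : ℕ} {τ : Ty} {y : Sq} (hy : y ∈ Y) (h : Hr m τ y) :
    ∃ σ b, ch σ b = τ ∧ Hr (m + 1) σ y ∧ y (m + 1) (Sum.inr σ) [] = 1 := by
  obtain ⟨u, hu, hu0, hyu⟩ := h
  have hk := (hy m).2
  have hpos : 0 < y m (Sum.inr τ) [] := Hr.pos ⟨u, hu, hu0, hyu⟩
  rcases K_cases (hy (m + 1)).1 with ⟨i, r, hr, hx⟩ | ⟨σ, v, hv, hx⟩
  · exfalso
    rw [← hk, hx, kap_legp] at hpos
    unfold legp at hpos
    rw [br_inl_inr] at hpos
    exact lt_irrefl _ hpos
  · rcases hv with ⟨r, hr, rfl⟩ | hv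
    · exfalso
      rw [← hk, hx, kap_edge] at hpos
      unfold legp at hpos
      rw [br_inl_inr] at hpos
      exact lt_irrefl _ hpos
    · simp only [mem_iUnion] at hv
      obtain ⟨b, v', hv', rfl⟩ := hv
      have h1 : y m = br (Sum.inr (ch σ b)) v' := by rw [← hk, hx, kap_node]
      have h2 : ch σ b = τ := by
        rw [h1, br_inr_inr] at hpos
        by_contra hne
        rw [if_neg (fun hh => hne hh.symm)] at hpos
        exact lt_irrefl _ hpos
      refine ⟨σ, b, h2, ⟨node b v', ?_, ?_, hx⟩, ?_⟩
      · right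
        simp only [mem_iUnion]
        exact ⟨b, v', hv', rfl⟩
      · intro h0
        have : node b v' [] = (0 : HFun) [] := by rw [h0]
        have h3 : node b v' [] = 1 := rfl
        rw [h3] at this
        exact one_ne_zero this
      · rw [hx, br_same]
        rfl

theorem Hr.up_exists {m : ℕ} {τ : Ty} {y : Sq} (hy : y ∈ Y) (h : Hr m τ y) :
    ∀ k, m ≤ k → ∃ σ, Hr k σ y := by
  intro k hk
  induction k, hk using Nat.le_induction with
  | base => exact ⟨τ, h⟩
  | succ k _ ih =>
    obtain ⟨σ, hσ⟩ := ih
    obtain ⟨ρ, b, -, hρ, -⟩ := hσ.up hy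
    exact ⟨ρ, hρ⟩

/-- a point of `Y` outside of the triod is somewhere on a hair -/
theorem exists_Hr_of_notMem_YT {y : Sq} (hy : y ∈ Y) (h : y ∉ YT) : ∃ n τ, Hr n τ y := by
  by_contra hcon
  push Not at hcon
  have hK : ∀ n, y n ∈ KT := by
    intro n
    rcases K_cases (hy n).1 with ⟨i, r, hr, hx⟩ | ⟨τ, u, hu, hx⟩
    · rw [hx]
      exact legp_mem_KT hr
    · by_cases hu0 : u = 0
      · rw [hx, hu0, br_zero]
        exact zero_mem_KT
      · exact absurd ⟨u, hu, hu0, hx⟩ (hcon n τ)
  have h0 := hK 0
  simp only [KT, mem_iUnion] at h0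
  obtain ⟨i, r, hr, hx⟩ := h0
  apply h
  simp only [YT, mem_iUnion]
  refine ⟨i, r, hr, ?_⟩
  funext n
  show legp i r = y n
  induction n with
  | zero => exact hx
  | succ n ih =>
    have h1 := hK (n + 1)
    simp only [KT, mem_iUnion] at h1
    obtain ⟨j, s, hs, hx'⟩ := h1
    rw [← hx', ih, ← (hy n).2, ← hx', kap_legp]

/-- a point of `Y` outside of `Y'` is somewhere on a hair of type `P` -/
theorem exists_Hr_of_notMem_Y' {y : Sq} (hy : y ∈ Y) (h : y ∉ Y') : ∃ n i, Hr n (Ty.P i) y := by
  by_contra hcon
  push Not at hcon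
  apply h
  intro n
  refine ⟨?_, (hy n).2⟩
  rcases K_cases (hy n).1 with ⟨i, r, hr, hx⟩ | ⟨τ, u, hu, hx⟩
  · left
    rw [hx]
    exact legp_mem_KT hr
  · cases τ with
    | M l =>
      right
      simp only [mem_iUnion]
      exact ⟨l, u, hu, hx.symm⟩
    | P i =>
      by_cases hu0 : u = 0
      · left
        rw [hx, hu0, br_zero]
        exact zero_mem_KT
      · exact absurd ⟨u, hu, hu0, hx⟩ (hcon n i)

/-- convergence to a point all of whose coordinates are eventually reached -/
theorem mem_of_closed {Q : Set Sq} (hQ : IsClosed Q) (z : Sq)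
    (h : ∃ᶠ m in atTop, ∃ q ∈ Q, ∀ k, k ≤ m → q k = z k) : z ∈ Q := by
  rw [← hQ.closure_eq, mem_closure_iff_nhds]
  intro U hU
  -- a neighbourhood depends on finitely many coordinates
  rw [nhds_pi, Filter.mem_pi] at hU
  obtain ⟨I, hI, t, ht, htU⟩ := hU
  obtain ⟨B, hB⟩ := hI.bddAbove
  obtain ⟨m, hm, q, hq, hqz⟩ := (frequently_atTop.1 h) B
  refine ⟨q, htU ?_, hq⟩
  intro k hk
  rw [hqz k ((hB hk).trans hm)]
  exact mem_of_mem_nhds (ht k)

end Aux94

end Pool.Agent.TLC

end
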