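import Mathlib
import Pool.Agent.TLC.Final
import Pool.Agent.TLC.Inv
import Pool.Agent.TLC.Sep
import Pool.Agent.TLC.Star
import Pool.Agent.TLC.Conf
import Pool.Agent.TLC.Tree1
import Pool.Agent.TLC.Tree2
import Pool.Agent.TLC.LCon
import Pool.Agent.TLC.Iota

set_option autoImplicit false

namespace Pool.Agent.TLC.TreeLikeFails

open Pool.Agent.LibConfluent Pool.Agent.TLC

/-- There is a confluent mapping `f` of a tree-like continuum `X` onto a continuum `Y` such that
`f × f` is not confluent. -/
theorem result : ∃ (X Y : Type) (_ : MetricSpace X) (_ : MetricSpace Y) (f : X → Y),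
    CompactSpace X ∧ ConnectedSpace X ∧ CompactSpace Y ∧ ConnectedSpace Y ∧
    TreeLike X ∧ Confluent f ∧
    ∃ (M : Set (Y × Y)) (C : Set (X × X)), IsSubcontinuum M ∧
      IsComponentOf C (Prod.map f f ⁻¹' M) ∧ Prod.map f f '' C ≠ M :=
  Fin11.main inv_proof
    (treeLikeX_proof (treeX_proof treeImage_proof treeSets_proof) (cont_proof inv_proof))
    (conf_proof star2_proof star3_proof sepT_proof sepY'_proof (conT_proof inv_proof)
      (conY'_proof inv_proof))
    l_proof lT_proof Iota89.iota_proof

end Pool.Agent.TLC.TreeLikeFails
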